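import Pool.Agent.Helper62.Hovey.AdamsZorn

/-!
# Cohomological functors on countably many compact objects: the extension step
-/

open CategoryTheory CategoryTheory.Limits CategoryTheory.Pretriangulated

noncomputable section

open scoped Classical

universe w v u

namespace Pool.Agent.Helper62.Hovey

variable {T : Type u} [Category.{v} T] [HasZeroObject T] [HasShift T ℤ] [Preadditive T]
  [∀ n : ℤ, (shiftFunctor T n).Additive] [Pretriangulated T]

variable {ι : Type} {c : ι → T}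

namespace CohFun

variable (H : CohFun c)

/-- the extension step -/
lemma good_extend [HasCoproducts.{w} T] (hc : IsCountableGen.{w} c) {A : Set H.Lab} {B : Set H.RLab}
    (hG : H.Good A B) {i₀ : ι} {h₀ : H.obj i₀} (hh : h₀ ∉ H.sub A i₀) :
    ∃ (A' : Set H.Lab) (B' : Set H.RLab), H.Good A' B' ∧ A ⊆ A' ∧ B ⊆ B' ∧ ¬ A' ⊆ A := by
  obtain ⟨s, t, hs0, hst, hsol⟩ := exists_seq hc hG.pureSub ⟨i₀, h₀⟩
  let tc : ∀ n k, c (s n).1 ⟶ c (s (n + k)).1 := fun n k => seqComp (κ := fun n => (s n).1) t n k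
  have htc0 : ∀ n, tc n 0 = 𝟙 (c (s n).1) := fun n => rfl
  have htc1 : ∀ n k, tc n (k + 1) = tc n k ≫ t (n + k) := fun n k => rfl
  have hst' : ∀ n, H.map (t n) (s (n + 1)).2 - (s n).2 ∈ H.sub A (s n).1 := hst
  have hmem : ∀ n k, H.map (tc n k) (s (n + k)).2 - (s n).2 ∈ H.sub A (s n).1 := by
    intro n k
    induction k with
    | zero =>
      have h0 : H.map (tc n 0) (s (n + 0)).2 = (s n).2 := by
        rw [htc0]
        exact H.map_id _ _
      have h5 : H.map (tc n 0) (s (n + 0)).2 - (s n).2 = 0 := by rw [h0]; exact sub_self _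
      rw [h5]
      exact zero_mem _
    | succ k ih =>
      have h4 : H.map (tc n (k + 1)) (s (n + (k + 1))).2 - (s n).2 =
          H.map (tc n k) (H.map (t (n + k)) (s (n + k + 1)).2 - (s (n + k)).2) +
          (H.map (tc n k) (s (n + k)).2 - (s n).2) := by
        rw [htc1, H.map_comp, map_sub]
        exact (sub_add_sub_cancel _ _ _).symm
      rw [h4]
      exact add_mem (H.sub_map _ _ _ (hst' (n + k))) ih
  have hy : ∀ n, (s n).2 ∉ H.sub A (s n).1 := by
    intro n
    induction n with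
    | zero => rw [hs0]; exact hh
    | succ n ih =>
      intro h
      apply ih
      have h1 := sub_mem (H.sub_map (t n) A _ h) (hst' n)
      rwa [sub_sub_cancel] at h1
  choose z hz hzg using hst'
  -- the new labels
  let a : ℕ → H.Lab := fun n => (n, s n)
  have hainj : ∀ m n, a m = a n → m = n := fun m n h => congrArg Prod.fst h
  have haA : ∀ n, a n ∉ A := by
    intro n hn
    apply hy n
    refine ⟨(DFinsupp.single (a n) (𝟙 (c (s n).1)) : H.Gen (s n).1), single_mem_suppIn hn _, ?_⟩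
    rw [gen_single]
    exact H.map_id _ _
  have hid : ∀ n, 𝟙 (c (s n).1) ≠ 0 := by
    intro n h
    apply hy n
    rw [← H.map_id _ (s n).2, h, map_zero_hom]
    exact zero_mem _
  let ζ : ∀ n, H.Gen (s n).1 := fun n =>
    (DFinsupp.single (a (n + 1)) (t n) : H.Gen (s n).1) - (DFinsupp.single (a n) (𝟙 (c (s n).1)) : H.Gen (s n).1) - z n
  let b : ℕ → H.RLab := fun n => ⟨(s n).1, ζ n⟩
  have hsing : ∀ (j : ι) (m n : ℕ) (x : c j ⟶ c (a m).2.1), m ≠ n →
      (DFinsupp.single (a m) x : H.Gen j) (a n) = 0 := by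
    intro j m n x hmn
    rw [DFinsupp.single_apply, dif_neg]
    intro h
    exact hmn (hainj _ _ h)
  have hζ0 : ∀ n m, m < n → (b n).2 (a m) = 0 := by
    intro n m hmn
    change ((DFinsupp.single (a (n + 1)) (t n) : H.Gen (s n).1) - (DFinsupp.single (a n) (𝟙 (c (s n).1)) : H.Gen (s n).1)
      - z n) (a m) = 0
    rw [DFinsupp.sub_apply, DFinsupp.sub_apply, hsing _ _ _ _ (by omega), hsing _ _ _ _ (by omega),
      hz n _ (haA m), sub_zero, sub_zero]
  have hζ1 : ∀ n, (b n).2 (a n) = - 𝟙 (c (s n).1) := by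
    intro n
    change ((DFinsupp.single (a (n + 1)) (t n) : H.Gen (s n).1) - (DFinsupp.single (a n) (𝟙 (c (s n).1)) : H.Gen (s n).1)
      - z n) (a n) = - 𝟙 (c (s n).1)
    rw [DFinsupp.sub_apply, DFinsupp.sub_apply, hsing _ _ _ _ (by omega), DFinsupp.single_eq_same,
      hz n _ (haA n), sub_zero, zero_sub]
  let A' : Set H.Lab := A ∪ Set.range a
  let B' : Set H.RLab := B ∪ Set.range b
  have hAA' : A ⊆ A' := Set.subset_union_left
  have hBB' : B ⊆ B' := Set.subset_union_left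
  have haA' : ∀ n, a n ∈ A' := fun n => Or.inr ⟨n, rfl⟩
  have hbB' : ∀ n, b n ∈ B' := fun n => Or.inr ⟨n, rfl⟩
  have hsupp : ∀ b' ∈ B', b'.2 ∈ suppIn A' := by
    rintro b' (hb | ⟨n, rfl⟩)
    · exact suppIn_mono hAA' (hG.rel_supp b' hb)
    · refine sub_mem (sub_mem ?_ ?_) ?_
      · exact single_mem_suppIn (haA' _) _
      · exact single_mem_suppIn (haA' _) _
      · exact suppIn_mono hAA' (hz n)
  have hzero : ∀ b' ∈ B', H.gen b'.1 b'.2 = 0 := by
    rintro b' (hb | ⟨n, rfl⟩)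
    · exact hG.rel_zero b' hb
    · change H.gen (s n).1 ((DFinsupp.single (a (n + 1)) (t n) : H.Gen (s n).1) -
        (DFinsupp.single (a n) (𝟙 (c (s n).1)) : H.Gen (s n).1) - z n) = 0
      rw [map_sub, map_sub, gen_single, gen_single, hzg n]
      have h1 : H.map (𝟙 (c (s n).1)) (a n).2.2 = (s n).2 := H.map_id _ _
      rw [h1]
      exact sub_self _
  -- the subgroup `R`
  let R : ∀ j, AddSubgroup (H.Gen j) := fun j => (suppIn B').map (H.rel j) ⊔ suppIn A
  have hRA : ∀ j (x : H.Gen j), x ∈ suppIn A → x ∈ R j := fun j x hx => (le_sup_right : suppIn A ≤ R j) hx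
  have hRB : ∀ j (ψ : H.Rel j), ψ ∈ suppIn B' → H.rel j ψ ∈ R j := fun j ψ hψ =>
    (le_sup_left : (suppIn B').map (H.rel j) ≤ R j) ⟨ψ, hψ, rfl⟩
  have hRgen : ∀ j (x : H.Gen j), x ∈ R j → H.gen j x ∈ H.sub A j := by
    intro j x hx
    obtain ⟨x₁, ⟨ψ, hψ, rfl⟩, x₂, hx₂, rfl⟩ := AddSubgroup.mem_sup.mp hx
    rw [_root_.map_add, gen_rel_of hzero hψ, zero_add]
    exact ⟨x₂, hx₂, rfl⟩
  have claim0 : ∀ j n (g : c j ⟶ c (s n).1), (DFinsupp.single (a n) g : H.Gen j) -
      (DFinsupp.single (a (n + 1)) (g ≫ t n) : H.Gen j) ∈ R j := by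
    intro j n g
    have h1 := hRB j (DFinsupp.single (b n) g) (single_mem_suppIn (hbB' n) _)
    rw [rel_single] at h1
    have h2 : H.pull g (b n).2 = (DFinsupp.single (a (n + 1)) (g ≫ t n) : H.Gen j) -
        (DFinsupp.single (a n) g : H.Gen j) - H.pull g (z n) := by
      change H.pull g ((DFinsupp.single (a (n + 1)) (t n) : H.Gen (s n).1) -
        (DFinsupp.single (a n) (𝟙 (c (s n).1)) : H.Gen (s n).1) - z n) = _
      rw [map_sub, map_sub, pull_single, pull_single]
      congr 2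
      exact congrArg (fun x => (DFinsupp.single (a n) x : H.Gen j)) (Category.comp_id g)
    rw [h2] at h1
    have h3 := neg_mem (add_mem h1 (hRA j _ (H.pull_mem g (hz n))))
    rwa [sub_add_cancel, neg_sub] at h3
  have claim1 : ∀ j n k (g : c j ⟶ c (s n).1), (DFinsupp.single (a n) g : H.Gen j) -
      (DFinsupp.single (a (n + k)) (g ≫ tc n k) : H.Gen j) ∈ R j := by
    intro j n k g
    induction k with
    | zero =>
      have h1 : (DFinsupp.single (a (n + 0)) (g ≫ tc n 0) : H.Gen j) = (DFinsupp.single (a n) g : H.Gen j) :=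
        congrArg (fun x => (DFinsupp.single (a n) x : H.Gen j)) (Category.comp_id g)
      rw [h1, sub_self]
      exact zero_mem _
    | succ k ih =>
      have h1 := add_mem ih (claim0 j (n + k) (g ≫ tc n k))
      rw [sub_add_sub_cancel] at h1
      have h2 : (g ≫ tc n k) ≫ t (n + k) = g ≫ tc n (k + 1) := by rw [htc1, Category.assoc]
      rw [h2] at h1
      exact h1
  have claim2 : ∀ j (x : H.Gen j), x ∈ suppIn A' → ∃ (N : ℕ) (g : c j ⟶ c (s N).1),
      x - (DFinsupp.single (a N) g : H.Gen j) ∈ R j := by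
    intro j x hx
    have hadd : ∀ x₁ x₂ : H.Gen j, (∃ (N : ℕ) (g : c j ⟶ c (s N).1), x₁ - (DFinsupp.single (a N) g : H.Gen j) ∈ R j) →
        (∃ (N : ℕ) (g : c j ⟶ c (s N).1), x₂ - (DFinsupp.single (a N) g : H.Gen j) ∈ R j) →
        ∃ (N : ℕ) (g : c j ⟶ c (s N).1), x₁ + x₂ - (DFinsupp.single (a N) g : H.Gen j) ∈ R j := by
      have haux : ∀ (x₁ x₂ : H.Gen j) (N k : ℕ) (g : c j ⟶ c (s N).1) (g' : c j ⟶ c (s (N + k)).1),
          x₁ - (DFinsupp.single (a N) g : H.Gen j) ∈ R j → x₂ - (DFinsupp.single (a (N + k)) g' : H.Gen j) ∈ R j →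
          ∃ (N : ℕ) (g : c j ⟶ c (s N).1), x₁ + x₂ - (DFinsupp.single (a N) g : H.Gen j) ∈ R j := by
        intro x₁ x₂ N k g g' h1 h2
        refine ⟨N + k, g ≫ tc N k + g', ?_⟩
        have h3 := add_mem (add_mem h1 (claim1 j N k g)) h2
        have h4 : (DFinsupp.single (a (N + k)) (g ≫ tc N k + g') : H.Gen j) =
            (DFinsupp.single (a (N + k)) (g ≫ tc N k) : H.Gen j) + (DFinsupp.single (a (N + k)) g' : H.Gen j) :=
          DFinsupp.single_add _ _ _
        rw [h4]
        have h5 : x₁ + x₂ - ((DFinsupp.single (a (N + k)) (g ≫ tc N k) : H.Gen j) +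
            (DFinsupp.single (a (N + k)) g' : H.Gen j)) = x₁ - (DFinsupp.single (a N) g : H.Gen j) +
            ((DFinsupp.single (a N) g : H.Gen j) - (DFinsupp.single (a (N + k)) (g ≫ tc N k) : H.Gen j)) +
            (x₂ - (DFinsupp.single (a (N + k)) g' : H.Gen j)) := by abel
        rw [h5]
        exact h3
      rintro x₁ x₂ ⟨N, g, h1⟩ ⟨N', g', h2⟩
      rcases le_total N N' with h | h
      · obtain ⟨k, rfl⟩ := Nat.exists_eq_add_of_le h
        exact haux x₁ x₂ N k g g' h1 h2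
      · obtain ⟨k, rfl⟩ := Nat.exists_eq_add_of_le h
        rw [add_comm x₁ x₂]
        exact haux x₂ x₁ N' k g' g h2 h1
    have hz0 : ∃ (N : ℕ) (g : c j ⟶ c (s N).1), (0 : H.Gen j) - (DFinsupp.single (a N) g : H.Gen j) ∈ R j := by
      refine ⟨0, 0, ?_⟩
      have h1 : (DFinsupp.single (a 0) (0 : c j ⟶ c (s 0).1) : H.Gen j) = 0 := DFinsupp.single_zero _
      rw [h1, sub_zero]
      exact zero_mem _
    have hsum : x = ∑ l ∈ x.support, (DFinsupp.single l (x l) : H.Gen j) := (DFinsupp.sum_single (f := x)).symm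
    rw [hsum]
    refine Finset.sum_induction _ (fun x => ∃ (N : ℕ) (g : c j ⟶ c (s N).1),
      x - (DFinsupp.single (a N) g : H.Gen j) ∈ R j) hadd hz0 ?_
    intro l hl
    have hlA' : l ∈ A' := by
      by_contra hn
      exact (DFinsupp.mem_support_iff.mp hl) (hx l hn)
    rcases hlA' with hlA | ⟨n, rfl⟩
    · refine ⟨0, 0, ?_⟩
      have h1 : (DFinsupp.single (a 0) (0 : c j ⟶ c (s 0).1) : H.Gen j) = 0 := DFinsupp.single_zero _
      rw [h1, sub_zero]
      exact hRA j _ (single_mem_suppIn hlA _)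
    · refine ⟨n, x (a n), ?_⟩
      rw [sub_self]
      exact zero_mem _
  refine ⟨A', B', ⟨hsupp, hzero, ?_, ?_, ?_⟩, hAA', hBB', fun h => haA 0 (h (haA' 0))⟩
  · intro j ψ hψ h0
    by_cases hex : ∃ n, ψ (b n) ≠ 0
    · exfalso
      let n := Nat.find hex
      have hn : ψ (b n) ≠ 0 := Nat.find_spec hex
      have hlt : ∀ m, m < n → ψ (b m) = 0 := fun m hm => not_not.mp (Nat.find_min hex hm)
      have h1 : H.rel j ψ (a n) = ψ (b n) ≫ (b n).2 (a n) := by
        rw [rel_apply]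
        refine Finset.sum_eq_single (b n) ?_ ?_
        · intro b' _ hb'
          by_cases hB : b' ∈ B'
          · rcases hB with hB | ⟨m, rfl⟩
            · rw [hG.rel_supp b' hB _ (haA n), comp_zero]
            · rcases lt_trichotomy m n with h | h | h
              · rw [hlt m h, zero_comp]
              · exact absurd (by rw [h]) hb'
              · rw [hζ0 m n h, comp_zero]
          · rw [hψ b' hB, zero_comp]
        · intro h
          rw [DFinsupp.notMem_support_iff.mp h, zero_comp]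
      rw [h0, hζ1 n] at h1
      apply hn
      have h2 : (0 : c j ⟶ c (s n).1) = ψ (b n) ≫ (-𝟙 (c (s n).1)) := h1
      rw [Preadditive.comp_neg, zero_eq_neg] at h2
      exact (Category.comp_id _).symm.trans h2
    · push Not at hex
      refine hG.inj j ψ ?_ h0
      intro b' hb'
      by_cases hB : b' ∈ B'
      · rcases hB with hB | ⟨m, rfl⟩
        · exact absurd hB hb'
        · exact hex m
      · exact hψ b' hB
  · intro j x hx h0
    obtain ⟨N, g, hr⟩ := claim2 j x hx
    have h1 := hRgen j _ hr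
    rw [map_sub, h0, zero_sub, gen_single] at h1
    obtain ⟨k, v, hv⟩ := hsol N j j 0 g ⟨0, by
      rw [map_zero, zero_sub]
      exact h1⟩
    rw [zero_comp] at hv
    have hv' : g ≫ tc N k = 0 := hv.symm
    have h2 := claim1 j N k g
    rw [hv'] at h2
    have h3 : (DFinsupp.single (a (N + k)) (0 : c j ⟶ c (s (N + k)).1) : H.Gen j) = 0 := DFinsupp.single_zero _
    rw [h3, sub_zero] at h2
    have h4 := add_mem hr h2
    rw [sub_add_cancel] at h4
    obtain ⟨x₁, ⟨ψ, hψ, rfl⟩, x₂, hx₂, rfl⟩ := AddSubgroup.mem_sup.mp h4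
    rw [_root_.map_add, gen_rel_of hzero hψ, zero_add] at h0
    obtain ⟨ψ', hψ', rfl⟩ := hG.exact j x₂ hx₂ h0
    exact ⟨ψ + ψ', add_mem hψ (suppIn_mono hBB' hψ'), _root_.map_add _ _ _⟩
  · intro i j f x hx
    obtain ⟨y, hy', hyx⟩ := hx
    obtain ⟨N, g, hr⟩ := claim2 i y hy'
    have h1 := hRgen i _ hr
    rw [map_sub, hyx, gen_single] at h1
    obtain ⟨k, v, hv⟩ := hsol N i j f g ⟨x, h1⟩
    have hv' : f ≫ v = g ≫ tc N k := hv
    let x₁ : H.obj j := H.map v (s (N + k)).2
    have hx₁ : x₁ ∈ H.sub A' j := by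
      refine ⟨(DFinsupp.single (a (N + k)) v : H.Gen j), single_mem_suppIn (haA' _) _, ?_⟩
      rw [gen_single]
    have h2 : H.map f (x - x₁) ∈ H.sub A i := by
      have h3 : H.map f (x - x₁) = (H.map f x - H.map g (s N).2) -
          H.map g (H.map (tc N k) (s (N + k)).2 - (s N).2) := by
        simp only [x₁]
        rw [map_sub, ← H.map_comp, hv', H.map_comp, map_sub]
        abel
      rw [h3]
      exact sub_mem h1 (H.sub_map g A _ (hmem N k))
    obtain ⟨x₂, hx₂, hxx⟩ := hG.pure f (x - x₁) h2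
    refine ⟨x₁ + x₂, add_mem hx₁ (H.sub_mono hAA' j hx₂), ?_⟩
    rw [_root_.map_add, hxx, map_sub]
    abel

/-- a complete resolution -/
lemma exists_good [HasCoproducts.{w} T] (hc : IsCountableGen.{w} c) :
    ∃ (A : Set H.Lab) (B : Set H.RLab), H.Good A B ∧ ∀ (i : ι) (x : H.obj i), x ∈ H.sub A i := by
  obtain ⟨p, hp⟩ := zorn_le₀ {p : Set H.Lab × Set H.RLab | H.Good p.1 p.2} (by
    intro S hS hch
    rcases S.eq_empty_or_nonempty with rfl | hne
    · exact ⟨(∅, ∅), H.good_empty, fun z hz => hz.elim⟩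
    · refine ⟨(⋃ p ∈ S, p.1, ⋃ p ∈ S, p.2), H.good_chain S hS hch hne, fun q hq => ⟨?_, ?_⟩⟩
      · exact Set.subset_biUnion_of_mem (u := fun p : Set H.Lab × Set H.RLab => p.1) hq
      · exact Set.subset_biUnion_of_mem (u := fun p : Set H.Lab × Set H.RLab => p.2) hq)
  refine ⟨p.1, p.2, hp.1, fun i x => ?_⟩
  by_contra hx
  obtain ⟨A', B', hG, hA, hB, hne⟩ := H.good_extend hc hp.1 hx
  have h1 := hp.2 (y := (A', B')) hG ⟨hA, hB⟩
  exact hne h1.1

end CohFun

end Pool.Agent.Helper62.Hovey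

end
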