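import Pool.Agent.Helper62.Hovey.AdamsExt

/-!
# The representability theorem of Adams and Neeman for cohomological functors on countably many compact objects
-/

open CategoryTheory CategoryTheory.Limits CategoryTheory.Pretriangulated

noncomputable section

open scoped Classical

universe v u

namespace Pool.Agent.Helper62.Hovey

variable {T : Type u} [Category.{v} T] [HasZeroObject T] [HasShift T ℤ] [Preadditive T]
  [∀ n : ℤ, (shiftFunctor T n).Additive] [Pretriangulated T] [HasCoproducts.{v} T]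

variable {ι : Type} {c : ι → T}

section Sum

variable {K : Type v} (κ : K → ι) (S : Set K)

variable (c) in
/-- the coproduct over a set of labels -/
abbrev sumObj : T := ∐ (fun k : S => c (κ k))

variable (c) in
/-- finitely supported families of morphisms as morphisms to the coproduct -/
def evS (j : ι) : (Π₀ k : K, (c j ⟶ c (κ k))) →+ (c j ⟶ sumObj c κ S) :=
  DFinsupp.sumAddHom (fun k => if h : k ∈ S then
    Preadditive.rightComp (c j) (Sigma.ι (fun k : S => c (κ k)) ⟨k, h⟩) else 0)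

lemma evS_single [inst : DecidableEq K] {j : ι} {k : K} (hk : k ∈ S) (g : c j ⟶ c (κ k)) :
    evS c κ S j (DFinsupp.single k g) = g ≫ Sigma.ι (fun k : S => c (κ k)) ⟨k, hk⟩ := by
  obtain rfl : inst = fun a b => Classical.propDecidable (a = b) := Subsingleton.elim _ _
  rw [evS, DFinsupp.sumAddHom_single, dif_pos hk]
  rfl

lemma evS_single_not [inst : DecidableEq K] {j : ι} {k : K} (hk : k ∉ S) (g : c j ⟶ c (κ k)) :
    evS c κ S j (DFinsupp.single k g) = 0 := by
  obtain rfl : inst = fun a b => Classical.propDecidable (a = b) := Subsingleton.elim _ _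
  rw [evS, DFinsupp.sumAddHom_single, dif_neg hk]
  rfl

lemma evS_π {j : ι} (z : Π₀ k : K, (c j ⟶ c (κ k))) (k : K) (hk : k ∈ S) :
    evS c κ S j z ≫ Sigma.π (fun k : S => c (κ k)) ⟨k, hk⟩ = z k := by
  have h : (Preadditive.rightComp (c j) (Sigma.π (fun k : S => c (κ k)) ⟨k, hk⟩)).comp (evS c κ S j) =
      DFinsupp.evalAddMonoidHom k := by
    refine DFinsupp.addHom_ext fun l g => ?_
    change evS c κ S j (DFinsupp.single l g) ≫ Sigma.π (fun k : S => c (κ k)) ⟨k, hk⟩ =
      (DFinsupp.single l g : Π₀ k : K, (c j ⟶ c (κ k))) k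
    by_cases hl : l ∈ S
    · rw [evS_single κ S hl]
      by_cases hlk : l = k
      · subst hlk
        rw [DFinsupp.single_eq_same, Category.assoc, Sigma.ι_π_eq_id]
        exact Category.comp_id _
      · rw [DFinsupp.single_apply, dif_neg hlk, Category.assoc, Sigma.ι_π_of_ne, comp_zero]
        intro h
        exact hlk (congrArg Subtype.val h)
    · rw [evS_single_not κ S hl, zero_comp, DFinsupp.single_apply, dif_neg]
      rintro rfl
      exact hl hk
  exact DFunLike.congr_fun h z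

lemma evS_inj {j : ι} (z : Π₀ k : K, (c j ⟶ c (κ k))) (hz : z ∈ suppIn S) (h : evS c κ S j z = 0) : z = 0 := by
  ext k : 1
  by_cases hk : k ∈ S
  · rw [← evS_π κ S z k hk, h, zero_comp]
    rfl
  · exact hz k hk

lemma evS_surj {j : ι} (hj : IsCompactObj.{v} (c j)) (f : c j ⟶ sumObj c κ S) :
    ∃ z ∈ suppIn S, evS c κ S j z = f := by
  obtain ⟨s, g, hg⟩ := hj (fun k : S => c (κ k)) f
  refine ⟨∑ k ∈ s, DFinsupp.single (k : K) (g k), sum_mem fun k _ => single_mem_suppIn k.2 _, ?_⟩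
  rw [map_sum, hg]
  exact Finset.sum_congr rfl fun k _ => evS_single κ S k.2 _

lemma evS_comp {i j : ι} (f : c i ⟶ c j) (z : Π₀ k : K, (c j ⟶ c (κ k))) :
    f ≫ evS c κ S j z =
      evS c κ S i (DFinsupp.mapRange.addMonoidHom (fun k => Preadditive.leftComp (c (κ k)) f) z) := by
  have h : (Preadditive.leftComp (sumObj c κ S) f).comp (evS c κ S j) =
      (evS c κ S i).comp (DFinsupp.mapRange.addMonoidHom (fun k => Preadditive.leftComp (c (κ k)) f)) := by
    refine DFinsupp.addHom_ext fun l g => ?_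
    rw [AddMonoidHom.comp_apply, AddMonoidHom.comp_apply, DFinsupp.mapRange.addMonoidHom_apply,
      DFinsupp.mapRange_single]
    change f ≫ evS c κ S j (DFinsupp.single l g) = evS c κ S i (DFinsupp.single l (f ≫ g))
    by_cases hl : l ∈ S
    · rw [evS_single κ S hl, evS_single κ S hl, Category.assoc]
    · rw [evS_single_not κ S hl, evS_single_not κ S hl, comp_zero]
  exact DFunLike.congr_fun h z

end Sum

/-- The representability theorem: a cohomological functor on the compact objects is represented by an object. -/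
theorem adams_representability (hc : IsCountableGen.{v} c) (H : CohFun c) :
    ∃ (E : T) (ρ : ∀ i, (c i ⟶ E) → H.obj i),
      (∀ (i j : ι) (f : c i ⟶ c j) (e : c j ⟶ E), ρ i (f ≫ e) = H.map f (ρ j e)) ∧
      (∀ (i : ι) (e e' : c i ⟶ E), ρ i (e + e') = ρ i e + ρ i e') ∧ ∀ i, Function.Bijective (ρ i) := by
  obtain ⟨A, B, hG, htop⟩ := H.exists_good hc
  let κ₀ : H.Lab → ι := fun a => a.2.1
  let κ₁ : H.RLab → ι := fun b => b.1
  let P₀ : T := sumObj c κ₀ A
  let P₁ : T := sumObj c κ₁ B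
  let ev₀ : ∀ j, H.Gen j →+ (c j ⟶ P₀) := fun j => evS c κ₀ A j
  let ev₁ : ∀ j, H.Rel j →+ (c j ⟶ P₁) := fun j => evS c κ₁ B j
  let d : P₁ ⟶ P₀ := Sigma.desc (fun b : B => ev₀ _ b.1.2)
  have hpull : ∀ {i j : ι} (f : c i ⟶ c j) (z : H.Gen j), f ≫ ev₀ j z = ev₀ i (H.pull f z) :=
    fun f z => evS_comp κ₀ A f z
  have hd : ∀ (j : ι) (ψ : H.Rel j), ψ ∈ suppIn B → ev₁ j ψ ≫ d = ev₀ j (H.rel j ψ) := by
    intro j ψ hψ
    have hsum : ψ = ∑ l ∈ ψ.support, (DFinsupp.single l (ψ l) : H.Rel j) := (DFinsupp.sum_single (f := ψ)).symm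
    rw [hsum, map_sum, map_sum, map_sum, Preadditive.sum_comp]
    refine Finset.sum_congr rfl fun b hb => ?_
    have hbB : b ∈ B := by
      by_contra hn
      exact (DFinsupp.mem_support_iff.mp hb) (hψ b hn)
    have h1 : ev₁ j (DFinsupp.single b (ψ b)) = ψ b ≫ Sigma.ι (fun k : B => c (κ₁ k)) ⟨b, hbB⟩ :=
      evS_single κ₁ B hbB _
    rw [h1, H.rel_single, ← hpull, Category.assoc]
    congr 1
    exact Sigma.ι_desc _ _
  obtain ⟨E, p, q, hT⟩ := distinguished_cocone_triangle d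
  -- injectivity of `d` on compact objects
  have hinj : ∀ (j : ι) (x : c j ⟶ P₁), x ≫ d = 0 → x = 0 := by
    intro j x hx
    obtain ⟨ψ, hψ, rfl⟩ := evS_surj κ₁ B (hc.compact j) x
    have h1 : ev₀ j (H.rel j ψ) = 0 := by rw [← hd j ψ hψ]; exact hx
    have h2 := evS_inj κ₀ A _ (hG.rel_mem hψ) h1
    rw [hG.inj j ψ hψ h2, map_zero]
  have hinj' : ∀ (i : ι) (x : c i ⟶ P₁⟦(1 : ℤ)⟧), x ≫ d⟦(1 : ℤ)⟧' = 0 → x = 0 := by
    intro i x hx
    obtain ⟨k, ⟨e⟩⟩ := hc.shift i (-1)
    let e' : (c k)⟦(1 : ℤ)⟧ ≅ c i := (shiftFunctor T (1 : ℤ)).mapIso e.symm ≪≫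
      (shiftFunctorCompIsoId T (-1 : ℤ) 1 (by norm_num)).app (c i)
    obtain ⟨z, hz⟩ := (shiftFunctor T (1 : ℤ)).map_surjective (e'.hom ≫ x)
    have h2 : z ≫ d = 0 := by
      apply (shiftFunctor T (1 : ℤ)).map_injective
      rw [Functor.map_comp, hz, Functor.map_zero, Category.assoc, hx, comp_zero]
    have h3 := hinj k z h2
    rw [h3, Functor.map_zero] at hz
    rw [← cancel_epi e'.hom, ← hz, comp_zero]
  -- every morphism to `E` lifts
  have hlift : ∀ (i : ι) (e : c i ⟶ E), ∃ z : H.Gen i, z ∈ suppIn A ∧ ev₀ i z ≫ p = e := by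
    intro i e
    have h1 : e ≫ q = 0 := by
      apply hinj' i
      rw [Category.assoc]
      have := comp_distTriang_mor_zero₃₁ _ hT
      have h2 : q ≫ d⟦(1 : ℤ)⟧' = 0 := this
      rw [h2, comp_zero]
    obtain ⟨y, hy⟩ := Triangle.coyoneda_exact₃ _ hT e h1
    obtain ⟨z, hz, rfl⟩ := evS_surj κ₀ A (hc.compact i) y
    exact ⟨z, hz, hy.symm⟩
  have hker : ∀ (i : ι) (z : H.Gen i), z ∈ suppIn A → (ev₀ i z ≫ p = 0 ↔ H.gen i z = 0) := by
    intro i z hz
    constructor
    · intro h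
      obtain ⟨y, hy⟩ := Triangle.coyoneda_exact₂ _ hT (ev₀ i z) h
      obtain ⟨ψ, hψ, rfl⟩ := evS_surj κ₁ B (hc.compact i) y
      have h1 : ev₀ i z = ev₀ i (H.rel i ψ) := by
        rw [← hd i ψ hψ]
        exact hy
      have h2 := evS_inj κ₀ A (z - H.rel i ψ) (sub_mem hz (hG.rel_mem hψ)) (by
        change ev₀ i (z - H.rel i ψ) = 0
        rw [map_sub, h1, sub_self])
      rw [sub_eq_zero.mp h2]
      exact CohFun.gen_rel_of hG.rel_zero hψ
    · intro h
      obtain ⟨ψ, hψ, rfl⟩ := hG.exact i z hz h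
      rw [← hd i ψ hψ, Category.assoc]
      have h2 : d ≫ p = 0 := comp_distTriang_mor_zero₁₂ _ hT
      rw [h2, comp_zero]
  choose ζ hζ hζe using hlift
  have hkey : ∀ (i : ι) (z : H.Gen i), z ∈ suppIn A → H.gen i (ζ i (ev₀ i z ≫ p)) = H.gen i z := by
    intro i z hz
    have h1 := (hker i (ζ i (ev₀ i z ≫ p) - z) (sub_mem (hζ i _) hz)).mp (by
      rw [map_sub, Preadditive.sub_comp, hζe, sub_self])
    rw [map_sub] at h1
    exact sub_eq_zero.mp h1
  refine ⟨E, fun i e => H.gen i (ζ i e), ?_, ?_, fun i => ⟨?_, ?_⟩⟩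
  · intro i j f e
    have h1 : f ≫ e = ev₀ i (H.pull f (ζ j e)) ≫ p := by
      rw [← hpull, Category.assoc, hζe]
    change H.gen i (ζ i (f ≫ e)) = H.map f (H.gen j (ζ j e))
    rw [h1, hkey i _ (H.pull_mem f (hζ j e)), H.gen_pull]
  · intro i e e'
    have h1 : e + e' = ev₀ i (ζ i e + ζ i e') ≫ p := by
      rw [map_add, Preadditive.add_comp, hζe, hζe]
    change H.gen i (ζ i (e + e')) = H.gen i (ζ i e) + H.gen i (ζ i e')
    rw [h1, hkey i _ (add_mem (hζ i e) (hζ i e')), map_add]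
  · intro e e' h
    have h0 : H.gen i (ζ i e) = H.gen i (ζ i e') := h
    have h1 := (hker i (ζ i e - ζ i e') (sub_mem (hζ i _) (hζ i _))).mpr (by rw [map_sub, h0, sub_self])
    rw [map_sub, Preadditive.sub_comp, hζe, hζe] at h1
    exact sub_eq_zero.mp h1
  · intro x
    obtain ⟨z, hz, rfl⟩ := htop i x
    exact ⟨ev₀ i z ≫ p, hkey i z hz⟩

end Pool.Agent.Helper62.Hovey

end
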