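import Pool.Agent.Helper62.Hovey.Telescope

/-!
# Cohomological functors on countably many compact objects: countable extensions

Preparations for the representability theorem of Adams and Neeman.
-/

open CategoryTheory CategoryTheory.Limits CategoryTheory.Pretriangulated

universe w v u

namespace Pool.Agent.Helper62.Hovey

variable {T : Type u} [Category.{v} T] [HasZeroObject T] [HasShift T ℤ] [Preadditive T]
  [∀ n : ℤ, (shiftFunctor T n).Additive] [Pretriangulated T]

variable {ι : Type}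

/-- a cohomological functor on the compact objects `c i` -/
structure CohFun (c : ι → T) where
  obj : ι → Type v
  [grp : ∀ i, AddCommGroup (obj i)]
  map : ∀ {i j : ι}, (c i ⟶ c j) → obj j →+ obj i
  map_id : ∀ (i : ι) (x : obj i), map (𝟙 (c i)) x = x
  map_comp : ∀ {i j k : ι} (f : c i ⟶ c j) (g : c j ⟶ c k) (x : obj k), map (f ≫ g) x = map f (map g x)
  map_add : ∀ {i j : ι} (f g : c i ⟶ c j) (x : obj j), map (f + g) x = map f x + map g x
  exact : ∀ {i j : ι} (f : c i ⟶ c j) (x : obj j), map f x = 0 →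
    ∃ (k : ι) (g : c j ⟶ c k) (y : obj k), f ≫ g = 0 ∧ map g y = x

attribute [instance] CohFun.grp

variable {c : ι → T}

namespace CohFun

variable (H : CohFun c)

/-- the map `f ↦ f^* x` -/
def ev {i j : ι} (x : H.obj j) : (c i ⟶ c j) →+ H.obj i where
  toFun f := H.map f x
  map_zero' := by
    have h := H.map_add (0 : c i ⟶ c j) 0 x
    rw [add_zero] at h
    simpa using h
  map_add' f g := H.map_add f g x

lemma ev_apply {i j : ι} (x : H.obj j) (f : c i ⟶ c j) : H.ev x f = H.map f x := rfl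

lemma map_zero_hom {i j : ι} (x : H.obj j) : H.map (0 : c i ⟶ c j) x = 0 := (H.ev x).map_zero

lemma map_sub_hom {i j : ι} (f g : c i ⟶ c j) (x : H.obj j) : H.map (f - g) x = H.map f x - H.map g x :=
  (H.ev x).map_sub f g

lemma map_neg_hom {i j : ι} (f : c i ⟶ c j) (x : H.obj j) : H.map (-f) x = - H.map f x :=
  (H.ev x).map_neg f

end CohFun

section Biprod

variable [HasCoproducts.{w} T]

lemma IsCountableGen.exists_biprod (hc : IsCountableGen.{w} c) (i j : ι) :
    ∃ k, Nonempty (c k ≅ c i ⊞ c j) := by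
  -- `c k` is the cone of the zero map `(c j)[-1] → c i`
  obtain ⟨l, ⟨e⟩⟩ := hc.shift j (-1)
  obtain ⟨k, u, v, hT⟩ := hc.cone l i (0 : c l ⟶ c i)
  let e' : (c l)⟦(1 : ℤ)⟧ ≅ c j := (shiftFunctor T (1 : ℤ)).mapIso e.symm ≪≫
    (shiftFunctorCompIsoId T (-1 : ℤ) 1 (by norm_num)).app (c j)
  have hrot := rot_of_distTriang _ hT
  obtain ⟨d, -, -⟩ := exists_iso_binaryBiproduct_of_distTriang _ hrot (by
    change -(shiftFunctor T (1 : ℤ)).map (0 : c l ⟶ c i) = 0
    rw [Functor.map_zero, neg_zero])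
  let d' : c k ≅ c i ⊞ (c l)⟦(1 : ℤ)⟧ := d
  exact ⟨k, ⟨d' ≪≫ biprod.mapIso (Iso.refl _) e'⟩⟩

end Biprod

/-- A family of subgroups which is stable under pullback and pure. -/
structure PureSub (H : CohFun c) where
  G : ∀ i, AddSubgroup (H.obj i)
  map_mem : ∀ {i j : ι} (f : c i ⟶ c j) (x : H.obj j), x ∈ G j → H.map f x ∈ G i
  pure : ∀ {i j : ι} (f : c i ⟶ c j) (x : H.obj j), H.map f x ∈ G i → ∃ x' ∈ G j, H.map f x' = H.map f x

section Solve

variable [HasCoproducts.{w} T] (hc : IsCountableGen.{w} c) {H : CohFun c} (G : PureSub H)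

include hc in
/-- weak pushouts, with elements -/
lemma PureSub.solve {i j k : ι} (f : c i ⟶ c j) (g : c i ⟶ c k) (x : H.obj j) (y : H.obj k)
    (h : H.map f x - H.map g y ∈ G.G i) :
    ∃ (l : ι) (y' : H.obj l) (t : c k ⟶ c l) (v : c j ⟶ c l), f ≫ v = g ≫ t ∧ H.map t y' - y ∈ G.G k := by
  obtain ⟨m, ⟨e⟩⟩ := hc.exists_biprod j k
  let a : c j ⟶ c m := biprod.inl ≫ e.inv
  let b : c k ⟶ c m := biprod.inr ≫ e.inv
  let p : c m ⟶ c j := e.hom ≫ biprod.fst
  let q : c m ⟶ c k := e.hom ≫ biprod.snd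
  have hap : a ≫ p = 𝟙 _ := by simp [a, p]
  have haq : a ≫ q = 0 := by simp [a, q]
  have hbp : b ≫ p = 0 := by simp [b, p]
  have hbq : b ≫ q = 𝟙 _ := by simp [b, q]
  let z : H.obj m := H.map p x + H.map q y
  have haz : H.map a z = x := by
    simp only [z]
    rw [map_add, ← H.map_comp, ← H.map_comp, hap, haq, H.map_id, H.map_zero_hom, add_zero]
  have hbz : H.map b z = y := by
    simp only [z]
    rw [map_add, ← H.map_comp, ← H.map_comp, hbp, hbq, H.map_id, H.map_zero_hom, zero_add]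
  have hF : H.map (f ≫ a - g ≫ b) z ∈ G.G i := by
    rw [H.map_sub_hom, H.map_comp, H.map_comp, haz, hbz]
    exact h
  obtain ⟨z', hz', hzz⟩ := G.pure _ _ hF
  obtain ⟨l, r, y', hr, hy'⟩ := H.exact (f ≫ a - g ≫ b) (z - z') (by rw [map_sub, hzz, sub_self])
  refine ⟨l, y', b ≫ r, a ≫ r, ?_, ?_⟩
  · rw [Preadditive.sub_comp, sub_eq_zero] at hr
    simpa using hr
  · rw [H.map_comp, hy', map_sub, hbz, sub_sub_cancel_left]
    exact neg_mem (G.map_mem _ _ hz')

end Solve

section Seq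

variable [HasCoproducts.{w} T] (hc : IsCountableGen.{w} c) {H : CohFun c} (G : PureSub H)

/-- elements of the functor -/
abbrev CohFun.El (H : CohFun c) : Type v := Σ i : ι, H.obj i

/-- tasks -/
abbrev Task (c : ι → T) (k : ι) : Type v := Σ (p : ι × ι), (c p.1 ⟶ c p.2) × (c p.1 ⟶ c k)

/-- pushing a task forward -/
def Task.push {k l : ι} (t : c k ⟶ c l) (τ : Task c k) : Task c l := ⟨τ.1, (τ.2.1, τ.2.2 ≫ t)⟩

include hc in
lemma exists_next (s : H.El) (τ : Task c s.1) : ∃ (s' : H.El) (t : c s.1 ⟶ c s'.1),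
    H.map t s'.2 - s.2 ∈ G.G s.1 ∧
    ((∃ x : H.obj τ.1.2, H.map τ.2.1 x - H.map τ.2.2 s.2 ∈ G.G τ.1.1) → ∃ v : c τ.1.2 ⟶ c s'.1,
      τ.2.1 ≫ v = τ.2.2 ≫ t) := by
  by_cases h : ∃ x : H.obj τ.1.2, H.map τ.2.1 x - H.map τ.2.2 s.2 ∈ G.G τ.1.1
  · obtain ⟨x, hx⟩ := h
    obtain ⟨l, y', t, v, h1, h2⟩ := G.solve hc _ _ _ _ hx
    exact ⟨⟨l, y'⟩, t, h2, fun _ => ⟨v, h1⟩⟩
  · refine ⟨s, 𝟙 _, ?_, fun h' => absurd h' h⟩
    rw [H.map_id, sub_self]
    exact zero_mem _

include hc in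
lemma exists_taskEnum (k : ι) : ∃ e : ℕ → Task c k, Function.Surjective e := by
  haveI := hc.countable
  haveI : Countable (ι × ι) := inferInstance
  haveI : ∀ p : ι × ι, Countable ((c p.1 ⟶ c p.2) × (c p.1 ⟶ c k)) := fun p => by
    haveI := hc.countable_hom p.1 p.2
    haveI := hc.countable_hom p.1 k
    infer_instance
  haveI : Countable (Task c k) := inferInstance
  haveI : Nonempty (Task c k) := by
    obtain ⟨i⟩ := hc.nonempty
    exact ⟨⟨(i, i), (0, 0)⟩⟩
  exact exists_surjective_nat _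

/-- composites in a sequence -/
def seqComp {κ : ℕ → ι} (t : ∀ n, c (κ n) ⟶ c (κ (n + 1))) (n : ℕ) : ∀ k : ℕ, c (κ n) ⟶ c (κ (n + k))
  | 0 => 𝟙 (c (κ n))
  | k + 1 => seqComp t n k ≫ t (n + k)

lemma Task.push_id {k : ι} (τ : Task c k) : Task.push (𝟙 (c k)) τ = τ := by
  rcases τ with ⟨p, f, g⟩
  simp [Task.push]

lemma Task.push_push {k l m : ι} (t : c k ⟶ c l) (t' : c l ⟶ c m) (τ : Task c k) :
    Task.push t' (Task.push t τ) = Task.push (t ≫ t') τ := by
  rcases τ with ⟨p, f, g⟩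
  simp [Task.push]

include hc in
/-- the main sequence -/
lemma exists_seq (s₀ : H.El) : ∃ (s : ℕ → H.El) (t : ∀ n, c (s n).1 ⟶ c (s (n + 1)).1), s 0 = s₀ ∧
    (∀ n, H.map (t n) (s (n + 1)).2 - (s n).2 ∈ G.G (s n).1) ∧
    ∀ (n : ℕ) (i j : ι) (f : c i ⟶ c j) (g : c i ⟶ c (s n).1),
      (∃ x : H.obj j, H.map f x - H.map g (s n).2 ∈ G.G i) →
      ∃ (k : ℕ) (v : c j ⟶ c (s (n + k)).1), f ≫ v = g ≫ seqComp (κ := fun n => (s n).1) t n k := by
  classical
  choose nx nt hnx hnv using fun (s : H.El) (τ : Task c s.1) => exists_next hc G s τ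
  choose en hen using fun k : ι => exists_taskEnum hc (c := c) k
  -- states with pending tasks
  let Q : Type v := Σ s : H.El, (ℕ → ℕ → Task c s.1)
  let task : ℕ → (q : Q) → Task c q.1.1 := fun m q => q.2 m.unpair.1 m.unpair.2
  let next : ℕ → Q → Q := fun m q =>
    ⟨nx q.1 (task m q), fun n j => if n ≤ m then Task.push (nt q.1 (task m q)) (q.2 n j) else en _ j⟩
  let seq : ℕ → Q := fun m => Nat.rec ⟨s₀, fun _ j => en _ j⟩ (fun m q => next m q) m
  have hseq : ∀ m, seq (m + 1) = next m (seq m) := fun m => rfl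
  let s : ℕ → H.El := fun m => (seq m).1
  let t : ∀ m, c (s m).1 ⟶ c (s (m + 1)).1 := fun m => nt (seq m).1 (task m (seq m))
  let tc : ∀ n k, c (s n).1 ⟶ c (s (n + k)).1 := fun n k => seqComp (κ := fun n => (s n).1) t n k
  have htc0 : ∀ n, tc n 0 = 𝟙 (c (s n).1) := fun n => rfl
  have htc1 : ∀ n k, tc n (k + 1) = tc n k ≫ t (n + k) := fun n k => rfl
  -- pending tasks
  have hself : ∀ m j, (seq m).2 m j = en _ j := by
    intro m j
    cases m with
    | zero => rfl
    | succ m =>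
      change (if m + 1 ≤ m then _ else _) = _
      rw [if_neg (Nat.not_succ_le_self m)]
  have hpush : ∀ n k j, (seq (n + k)).2 n j = Task.push (tc n k) ((seq n).2 n j) := by
    intro n k j
    induction k with
    | zero => exact (Task.push_id _).symm
    | succ k ih =>
      have h1 : (seq (n + (k + 1))).2 n j = Task.push (t (n + k)) ((seq (n + k)).2 n j) := by
        change (if n ≤ n + k then _ else _) = _
        rw [if_pos (Nat.le_add_right n k)]
        rfl
      rw [h1, ih, htc1]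
      exact Task.push_push _ _ _
  refine ⟨s, t, rfl, fun n => hnx _ _, ?_⟩
  rintro n i j f g ⟨x, hx⟩
  obtain ⟨q, hq⟩ := hen (s n).1 ⟨(i, j), (f, g)⟩
  obtain ⟨k, hk⟩ := Nat.exists_eq_add_of_le (Nat.left_le_pair n q)
  have htask : task (n + k) (seq (n + k)) = ⟨(i, j), (f, g ≫ tc n k)⟩ := by
    have h1 : task (n + k) (seq (n + k)) = (seq (n + k)).2 n q := by
      change (seq (n + k)).2 (Nat.unpair (n + k)).1 (Nat.unpair (n + k)).2 = _
      have h0 : Nat.unpair (n + k) = (n, q) := by rw [← hk, Nat.unpair_pair]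
      have h1 : (Nat.unpair (n + k)).1 = n := by rw [h0]
      have h2 : (Nat.unpair (n + k)).2 = q := by rw [h0]
      rw [h1, h2]
    rw [h1, hpush n k q, hself n q]
    have h2 : en (seq n).1.1 q = ⟨(i, j), (f, g)⟩ := hq
    rw [h2]
    rfl
  have hmem : ∀ k, H.map (tc n k) (s (n + k)).2 - (s n).2 ∈ G.G (s n).1 := by
    intro k
    induction k with
    | zero =>
      have h0 : H.map (tc n 0) (s (n + 0)).2 = (s n).2 := by
        rw [htc0]
        exact H.map_id _ _
      have h5 : H.map (tc n 0) (s (n + 0)).2 - (s n).2 = 0 := by rw [h0]; exact sub_self _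
      rw [h5]
      exact zero_mem _
    | succ k ih =>
      have h4 : H.map (tc n (k + 1)) (s (n + (k + 1))).2 - (s n).2 =
          H.map (tc n k) (H.map (t (n + k)) (s (n + k + 1)).2 - (s (n + k)).2) +
          (H.map (tc n k) (s (n + k)).2 - (s n).2) := by
        rw [htc1, H.map_comp, map_sub]
        exact (sub_add_sub_cancel _ _ _).symm
      rw [h4]
      exact add_mem (G.map_mem _ _ (hnx (seq (n + k)).1 (task (n + k) (seq (n + k))))) ih
  have hsolv : ∃ x : H.obj (task (n + k) (seq (n + k))).1.2,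
      H.map (task (n + k) (seq (n + k))).2.1 x - H.map (task (n + k) (seq (n + k))).2.2 (s (n + k)).2 ∈
        G.G (task (n + k) (seq (n + k))).1.1 := by
    rw [htask]
    refine ⟨x, ?_⟩
    have h1 : H.map f x - H.map (g ≫ tc n k) (s (n + k)).2 =
        (H.map f x - H.map g (s n).2) - H.map g (H.map (tc n k) (s (n + k)).2 - (s n).2) := by
      rw [H.map_comp, map_sub]
      abel
    change H.map f x - H.map (g ≫ tc n k) (s (n + k)).2 ∈ G.G i
    rw [h1]
    exact sub_mem hx (G.map_mem _ _ (hmem k))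
  have h1 := hnv (seq (n + k)).1 (task (n + k) (seq (n + k))) hsolv
  have h2 : ∀ (τ : Task c (s (n + k)).1), τ = ⟨(i, j), (f, g ≫ tc n k)⟩ →
      ∀ (r : c (s (n + k)).1 ⟶ c (s (n + k + 1)).1), (∃ v : c τ.1.2 ⟶ c (s (n + k + 1)).1, τ.2.1 ≫ v = τ.2.2 ≫ r) →
      ∃ v : c j ⟶ c (s (n + k + 1)).1, f ≫ v = (g ≫ tc n k) ≫ r := by
    rintro τ rfl r h
    exact h
  obtain ⟨v, hv⟩ := h2 _ htask (t (n + k)) h1
  refine ⟨k + 1, v, ?_⟩
  rw [hv, Category.assoc]
  rfl

end Seq

end Pool.Agent.Helper62.Hovey
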