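import Pool.Agent.Helper62.Hovey.AdamsSeq

/-!
# Cohomological functors on countably many compact objects: free resolutions of length one
-/

open CategoryTheory CategoryTheory.Limits CategoryTheory.Pretriangulated

noncomputable section

open scoped Classical

universe w v u

namespace Pool.Agent.Helper62.Hovey

/-- elements of a direct sum which are supported in `S` -/
def suppIn {K : Type*} {X : K → Type*} [∀ k, AddCommGroup (X k)] (S : Set K) : AddSubgroup (Π₀ k, X k) where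
  carrier := {z | ∀ k, k ∉ S → z k = 0}
  zero_mem' := fun _ _ => rfl
  add_mem' := fun {a b} ha hb k hk => by rw [DFinsupp.add_apply, ha k hk, hb k hk, add_zero]
  neg_mem' := fun {a} ha k hk => by rw [DFinsupp.neg_apply, ha k hk, neg_zero]

lemma mem_suppIn {K : Type*} {X : K → Type*} [∀ k, AddCommGroup (X k)] {S : Set K} {z : Π₀ k, X k} :
    z ∈ suppIn S ↔ ∀ k, k ∉ S → z k = 0 := Iff.rfl

lemma suppIn_mono {K : Type*} {X : K → Type*} [∀ k, AddCommGroup (X k)] {S S' : Set K} (h : S ⊆ S') :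
    suppIn (X := X) S ≤ suppIn S' := fun _ hz k hk => hz k (fun hk' => hk (h hk'))

lemma single_mem_suppIn {K : Type*} [DecidableEq K] {X : K → Type*} [∀ k, AddCommGroup (X k)] {S : Set K} {k : K} (hk : k ∈ S)
    (x : X k) : DFinsupp.single k x ∈ suppIn (X := X) S := by
  intro l hl
  rw [DFinsupp.single_apply, dif_neg]
  rintro rfl
  exact hl hk

variable {T : Type u} [Category.{v} T] [HasZeroObject T] [HasShift T ℤ] [Preadditive T]
  [∀ n : ℤ, (shiftFunctor T n).Additive] [Pretriangulated T]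

variable {ι : Type} {c : ι → T}

namespace CohFun

variable (H : CohFun c)

/-- labels of generators -/
abbrev Lab : Type v := ℕ × H.El

/-- the free functor on all labels -/
abbrev Gen (j : ι) : Type v := Π₀ a : H.Lab, (c j ⟶ c a.2.1)

/-- labels of relations -/
abbrev RLab : Type v := Σ j : ι, H.Gen j

/-- the free functor on all labels of relations -/
abbrev Rel (j : ι) : Type v := Π₀ b : H.RLab, (c j ⟶ c b.1)

/-- precomposition -/
def pull {i j : ι} (f : c i ⟶ c j) : H.Gen j →+ H.Gen i :=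
  DFinsupp.mapRange.addMonoidHom (fun a => Preadditive.leftComp (c a.2.1) f)

lemma pull_apply {i j : ι} (f : c i ⟶ c j) (z : H.Gen j) (a : H.Lab) : H.pull f z a = f ≫ z a := by
  rfl

lemma pull_single {i j : ι} (f : c i ⟶ c j) (a : H.Lab) (g : c j ⟶ c a.2.1) :
    H.pull f (DFinsupp.single a g : H.Gen j) = (DFinsupp.single a (f ≫ g : c i ⟶ c a.2.1) : H.Gen i) := by
  unfold pull
  rw [DFinsupp.mapRange.addMonoidHom_apply, DFinsupp.mapRange_single]
  rfl

/-- the generators -/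
def gen (j : ι) : H.Gen j →+ H.obj j := DFinsupp.sumAddHom (fun a => H.ev a.2.2)

lemma gen_single {j : ι} (a : H.Lab) (g : c j ⟶ c a.2.1) :
    H.gen j (DFinsupp.single a g) = H.map g a.2.2 := by
  simp [gen, ev_apply]

lemma gen_pull {i j : ι} (f : c i ⟶ c j) (z : H.Gen j) : H.gen i (H.pull f z) = H.map f (H.gen j z) := by
  have h : (H.gen i).comp (H.pull f) = (H.map f).comp (H.gen j) := by
    refine DFinsupp.addHom_ext fun a g => ?_
    simp only [AddMonoidHom.comp_apply, pull_single, gen_single, map_comp]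
  exact DFunLike.congr_fun h z

/-- the map `f ↦ f^* z` -/
def pullHom {i j : ι} (z : H.Gen j) : (c i ⟶ c j) →+ H.Gen i where
  toFun f := H.pull f z
  map_zero' := by
    ext a : 1
    rw [pull_apply, zero_comp]
    rfl
  map_add' f g := by
    ext a : 1
    rw [pull_apply, DFinsupp.add_apply, pull_apply, pull_apply, Preadditive.add_comp]

/-- the relations -/
def rel (j : ι) : H.Rel j →+ H.Gen j := DFinsupp.sumAddHom (fun b => H.pullHom b.2)

lemma rel_single {j : ι} (b : H.RLab) (g : c j ⟶ c b.1) :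
    H.rel j (DFinsupp.single b g) = H.pull g b.2 := by
  simp [rel, pullHom]

lemma rel_apply {j : ι} (ψ : H.Rel j) (a : H.Lab) :
    H.rel j ψ a = ∑ b ∈ ψ.support, ψ b ≫ b.2 a := by
  rw [rel, DFinsupp.sumAddHom_apply, DFinsupp.sum, DFinsupp.finsetSum_apply]
  refine Finset.sum_congr rfl fun b _ => ?_
  exact H.pull_apply _ _ _

/-- the subfunctor generated by the labels in `A` -/
def sub (A : Set H.Lab) (i : ι) : AddSubgroup (H.obj i) := (suppIn A).map (H.gen i)

lemma sub_mono {A A' : Set H.Lab} (h : A ⊆ A') (i : ι) : H.sub A i ≤ H.sub A' i :=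
  AddSubgroup.map_mono (suppIn_mono h)

lemma pull_mem {i j : ι} (f : c i ⟶ c j) {A : Set H.Lab} {z : H.Gen j} (hz : z ∈ suppIn A) :
    H.pull f z ∈ suppIn A := by
  intro a ha
  rw [pull_apply, hz a ha, comp_zero]

lemma sub_map {i j : ι} (f : c i ⟶ c j) (A : Set H.Lab) (x : H.obj j) (hx : x ∈ H.sub A j) :
    H.map f x ∈ H.sub A i := by
  obtain ⟨z, hz, rfl⟩ := hx
  exact ⟨H.pull f z, H.pull_mem f hz, H.gen_pull f z⟩

/-- partial resolutions -/
structure Good (A : Set H.Lab) (B : Set H.RLab) : Prop where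
  rel_supp : ∀ b ∈ B, b.2 ∈ suppIn A
  rel_zero : ∀ b ∈ B, H.gen b.1 b.2 = 0
  inj : ∀ (j : ι) (ψ : H.Rel j), ψ ∈ suppIn B → H.rel j ψ = 0 → ψ = 0
  exact : ∀ (j : ι) (z : H.Gen j), z ∈ suppIn A → H.gen j z = 0 → ∃ ψ ∈ suppIn B, H.rel j ψ = z
  pure : ∀ {i j : ι} (f : c i ⟶ c j) (x : H.obj j), H.map f x ∈ H.sub A i → ∃ x' ∈ H.sub A j, H.map f x' = H.map f x

/-- the pure subfunctor of a partial resolution -/
def Good.pureSub {H : CohFun c} {A : Set H.Lab} {B : Set H.RLab} (h : H.Good A B) : PureSub H where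
  G := H.sub A
  map_mem f x hx := H.sub_map f A x hx
  pure f x hx := h.pure f x hx

lemma Good.rel_mem {H : CohFun c} {A : Set H.Lab} {B : Set H.RLab} (h : H.Good A B) {j : ι} {ψ : H.Rel j}
    (hψ : ψ ∈ suppIn B) : H.rel j ψ ∈ suppIn A := by
  intro a ha
  rw [rel_apply]
  refine Finset.sum_eq_zero fun b _ => ?_
  by_cases hb : b ∈ B
  · rw [h.rel_supp b hb a ha, comp_zero]
  · rw [hψ b hb, zero_comp]

lemma gen_rel_of {H : CohFun c} {B : Set H.RLab} (h : ∀ b ∈ B, H.gen b.1 b.2 = 0) {j : ι} {ψ : H.Rel j}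
    (hψ : ψ ∈ suppIn B) : H.gen j (H.rel j ψ) = 0 := by
  rw [rel, DFinsupp.sumAddHom_apply, DFinsupp.sum, map_sum]
  refine Finset.sum_eq_zero fun b _ => ?_
  by_cases hb : b ∈ B
  · change H.gen j (H.pull (ψ b) b.2) = 0
    rw [gen_pull, h b hb, map_zero]
  · rw [hψ b hb]
    simp

lemma good_empty : H.Good ∅ ∅ where
  rel_supp b hb := hb.elim
  rel_zero b hb := hb.elim
  inj j ψ hψ _ := by
    ext b : 1
    exact hψ b (Set.notMem_empty b)
  exact j z hz _ := ⟨0, zero_mem _, by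
    rw [map_zero]
    ext a : 1
    exact (hz a (Set.notMem_empty a)).symm⟩
  pure f x hx := by
    obtain ⟨z, hz, hzx⟩ := hx
    have hz0 : z = 0 := by
      ext a : 1
      exact hz a (Set.notMem_empty a)
    refine ⟨0, zero_mem _, ?_⟩
    rw [← hzx, hz0, map_zero, map_zero]

/-- the union of a chain -/
lemma good_chain (S : Set (Set H.Lab × Set H.RLab)) (hS : ∀ p ∈ S, H.Good p.1 p.2) (hch : IsChain (· ≤ ·) S)
    (hne : S.Nonempty) : H.Good (⋃ p ∈ S, p.1) (⋃ p ∈ S, p.2) := by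
  have hA : ∀ p ∈ S, p.1 ⊆ ⋃ p ∈ S, p.1 := fun p hp => Set.subset_biUnion_of_mem (u := fun p => p.1) hp
  have hB : ∀ p ∈ S, p.2 ⊆ ⋃ p ∈ S, p.2 := fun p hp => Set.subset_biUnion_of_mem (u := fun p => p.2) hp
  have hfinA : ∀ s : Finset H.Lab, (∀ a ∈ s, a ∈ ⋃ p ∈ S, p.1) → ∃ p ∈ S, ∀ a ∈ s, a ∈ p.1 := by
    intro s
    induction s using Finset.induction_on with
    | empty =>
      intro _
      obtain ⟨p, hp⟩ := hne
      exact ⟨p, hp, fun a ha => absurd ha (Finset.notMem_empty a)⟩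
    | insert a s _ ih =>
      intro h
      obtain ⟨p, hp, hps⟩ := ih (fun a ha => h a (Finset.mem_insert_of_mem ha))
      obtain ⟨q, hq, haq⟩ := Set.mem_iUnion₂.mp (h a (Finset.mem_insert_self a s))
      rcases hch.total hp hq with hpq | hpq
      · refine ⟨q, hq, fun b hb => ?_⟩
        rcases Finset.mem_insert.mp hb with rfl | hb
        · exact haq
        · exact hpq.1 (hps b hb)
      · refine ⟨p, hp, fun b hb => ?_⟩
        rcases Finset.mem_insert.mp hb with rfl | hb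
        · exact hpq.1 haq
        · exact hps b hb
  have hfinB : ∀ s : Finset H.RLab, (∀ a ∈ s, a ∈ ⋃ p ∈ S, p.2) → ∃ p ∈ S, ∀ a ∈ s, a ∈ p.2 := by
    intro s
    induction s using Finset.induction_on with
    | empty =>
      intro _
      obtain ⟨p, hp⟩ := hne
      exact ⟨p, hp, fun a ha => absurd ha (Finset.notMem_empty a)⟩
    | insert a s _ ih =>
      intro h
      obtain ⟨p, hp, hps⟩ := ih (fun a ha => h a (Finset.mem_insert_of_mem ha))
      obtain ⟨q, hq, haq⟩ := Set.mem_iUnion₂.mp (h a (Finset.mem_insert_self a s))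
      rcases hch.total hp hq with hpq | hpq
      · refine ⟨q, hq, fun b hb => ?_⟩
        rcases Finset.mem_insert.mp hb with rfl | hb
        · exact haq
        · exact hpq.2 (hps b hb)
      · refine ⟨p, hp, fun b hb => ?_⟩
        rcases Finset.mem_insert.mp hb with rfl | hb
        · exact hpq.2 haq
        · exact hps b hb
  have hsA : ∀ (j : ι) (z : H.Gen j), z ∈ suppIn (⋃ p ∈ S, p.1) → ∃ p ∈ S, z ∈ suppIn p.1 := by
    intro j z hz
    obtain ⟨p, hp, hps⟩ := hfinA z.support (fun a ha => by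
      by_contra hna
      exact (DFinsupp.mem_support_iff.mp ha) (hz a hna))
    refine ⟨p, hp, fun a ha => ?_⟩
    by_contra hne
    exact ha (hps a (DFinsupp.mem_support_iff.mpr hne))
  have hsB : ∀ (j : ι) (z : H.Rel j), z ∈ suppIn (⋃ p ∈ S, p.2) → ∃ p ∈ S, z ∈ suppIn p.2 := by
    intro j z hz
    obtain ⟨p, hp, hps⟩ := hfinB z.support (fun a ha => by
      by_contra hna
      exact (DFinsupp.mem_support_iff.mp ha) (hz a hna))
    refine ⟨p, hp, fun a ha => ?_⟩
    by_contra hne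
    exact ha (hps a (DFinsupp.mem_support_iff.mpr hne))
  refine ⟨?_, ?_, ?_, ?_, ?_⟩
  · intro b hb
    obtain ⟨p, hp, hbp⟩ := Set.mem_iUnion₂.mp hb
    exact suppIn_mono (hA p hp) ((hS p hp).rel_supp b hbp)
  · intro b hb
    obtain ⟨p, hp, hbp⟩ := Set.mem_iUnion₂.mp hb
    exact (hS p hp).rel_zero b hbp
  · intro j ψ hψ h0
    obtain ⟨p, hp, hψp⟩ := hsB j ψ hψ
    exact (hS p hp).inj j ψ hψp h0
  · intro j z hz h0
    obtain ⟨p, hp, hzp⟩ := hsA j z hz
    obtain ⟨ψ, hψ, hψz⟩ := (hS p hp).exact j z hzp h0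
    exact ⟨ψ, suppIn_mono (hB p hp) hψ, hψz⟩
  · intro i j f x hx
    obtain ⟨z, hz, hzx⟩ := hx
    obtain ⟨p, hp, hzp⟩ := hsA i z hz
    obtain ⟨x', hx', hxx⟩ := (hS p hp).pure f x ⟨z, hzp, hzx⟩
    exact ⟨x', H.sub_mono (hA p hp) j hx', hxx⟩

end CohFun

end Pool.Agent.Helper62.Hovey

end
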