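import Pool.Agent.Helper62.Hovey.Basic

/-!
# The homology theory dual to a cohomology theory

`F(X)` is the colimit over all compact objects `C → X` of `Hom(Hom(C, E), W)`, with `W` a divisible group which
contains all groups `Hom(C, E)`.
-/

open CategoryTheory CategoryTheory.Limits CategoryTheory.Pretriangulated

universe w v u

namespace Pool.Agent.Helper62.Hovey

variable {T : Type u} [Category.{v} T] [HasZeroObject T] [HasShift T ℤ] [Preadditive T]
  [∀ n : ℤ, (shiftFunctor T n).Additive] [Pretriangulated T] [HasCoproducts.{w} T]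

/-- homology theories on `T`: homological functors to abelian groups which preserve coproducts -/
structure IsHomologyTheory (F : T ⥤ AddCommGrpCat.{v}) : Prop where
  homological : F.IsHomological
  coproducts : ∀ J : Type w, PreservesColimitsOfShape (Discrete J) F

/-- the coefficients -/
abbrev Coeff {ι : Type} (c : ι → T) (E : T) : Type v :=
  (Σ i : ι, CharacterModule (c i ⟶ E)) → AddCircle (1 : ℚ)

section Group

variable {K : Type v}

lemma exists_factor {A B : Type v} [AddCommGroup A] [AddCommGroup B] (p : A →+ B) (φ : A →+ (K → AddCircle (1 : ℚ)))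
    (h : ∀ a, p a = 0 → φ a = 0) : ∃ ψ : B →+ (K → AddCircle (1 : ℚ)), ∀ a, φ a = ψ (p a) := by
  let r : A ⧸ p.ker →+ B := QuotientAddGroup.kerLift p
  have hr : Function.Injective r := QuotientAddGroup.kerLift_injective p
  let φ' : A ⧸ p.ker →+ (K → AddCircle (1 : ℚ)) := QuotientAddGroup.lift p.ker φ (fun a ha => h a ha)
  obtain ⟨ψ, hψ⟩ := (Module.Baer.of_divisible (K → AddCircle (1 : ℚ))).extension_property_addMonoidHom r hr φ'
  refine ⟨ψ, fun a => ?_⟩
  have := DFunLike.congr_fun hψ (QuotientAddGroup.mk a)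
  exact this.symm

end Group

variable {ι : Type} {c : ι → T}

/-- an object of the comma category -/
def mkObj (c : ι → T) {X : T} (i : ι) (f : c i ⟶ X) : CostructuredArrow (inducedFunctor c) X :=
  let i' : InducedCategory T c := i
  CostructuredArrow.mk (S := inducedFunctor c) (Y := i') f

/-- a morphism of the comma category -/
def mkHom {X : T} {i j : ι} {f : c i ⟶ X} {g : c j ⟶ X} (k : c i ⟶ c j) (h : k ≫ g = f) :
    mkObj c i f ⟶ mkObj c j g :=
  CostructuredArrow.homMk (InducedCategory.homMk k) h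

section Filtered

lemma isFiltered (hc : IsCountableGen.{w} c) (X : T) :
    IsFiltered (CostructuredArrow (inducedFunctor c) X) := by
  haveI : Nonempty (CostructuredArrow (inducedFunctor c) X) := by
    obtain ⟨i⟩ := hc.nonempty
    exact ⟨mkObj c i 0⟩
  haveI : IsFilteredOrEmpty (CostructuredArrow (inducedFunctor c) X) :=
    { cocone_objs := by
        intro a b
        -- `c k` is the cone of the zero map `(c j)[-1] → c i`
        let i : ι := a.left
        let j : ι := b.left
        let f : c i ⟶ X := a.hom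
        let g : c j ⟶ X := b.hom
        obtain ⟨l, ⟨e⟩⟩ := hc.shift j (-1)
        obtain ⟨k, u, v, hT⟩ := hc.cone l i (0 : c l ⟶ c i)
        -- a section of `v`
        obtain ⟨s, hs⟩ : ∃ s : (c l)⟦(1 : ℤ)⟧ ⟶ c k, 𝟙 _ = s ≫ v := by
          apply Triangle.coyoneda_exact₁ _ hT (𝟙 _)
          refine (Category.id_comp _).trans ?_
          exact (shiftFunctor T (1 : ℤ)).map_zero _ _
        have huv : u ≫ v = 0 := comp_distTriang_mor_zero₂₃ _ hT
        let e' : (c l)⟦(1 : ℤ)⟧ ≅ c j := (shiftFunctor T (1 : ℤ)).mapIso e.symm ≪≫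
          (shiftFunctorCompIsoId T (-1 : ℤ) 1 (by norm_num)).app (c j)
        obtain ⟨h₀, hh₀⟩ : ∃ h₀ : c k ⟶ X, f = u ≫ h₀ := Triangle.yoneda_exact₂ _ hT f zero_comp
        let h : c k ⟶ X := h₀ + v ≫ (e'.hom ≫ g - s ≫ h₀)
        have h1 : u ≫ h = f := by
          simp only [h, Preadditive.comp_add]
          rw [← Category.assoc u v, huv, zero_comp, add_zero, hh₀]
        have h2 : (e'.inv ≫ s) ≫ h = g := by
          simp only [h, Preadditive.comp_add, Category.assoc]
          rw [← Category.assoc s v, ← hs, Category.id_comp, Preadditive.comp_sub]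
          rw [← Category.assoc e'.inv e'.hom, e'.inv_hom_id, Category.id_comp]
          abel
        exact ⟨mkObj c k h, mkHom (i := i) (f := f) u h1, mkHom (i := j) (f := g) (e'.inv ≫ s) h2, trivial⟩
      cocone_maps := by
        intro a b p q
        let i : ι := a.left
        let j : ι := b.left
        let f : c i ⟶ X := a.hom
        let g : c j ⟶ X := b.hom
        let p' : c i ⟶ c j := p.left.hom
        let q' : c i ⟶ c j := q.left.hom
        have hp : p' ≫ g = f := CostructuredArrow.w p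
        have hq : q' ≫ g = f := CostructuredArrow.w q
        obtain ⟨k, r, hr, hcok, -⟩ := hc.exists_cokernel i j (p' - q')
        obtain ⟨h, hh⟩ := hcok X g (by rw [Preadditive.sub_comp, hp, hq, sub_self])
        refine ⟨mkObj c k h, mkHom (i := j) (f := g) r hh.symm, ?_⟩
        apply CostructuredArrow.hom_ext
        apply InducedCategory.hom_ext
        change p' ≫ r = q' ≫ r
        rw [← sub_eq_zero, ← Preadditive.sub_comp, hr] }
  exact { }

end Filtered

section Functor

variable (c) (E : T)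

/-- `C ↦ Hom(Hom(C, E), W)` on compact objects -/
noncomputable def G : InducedCategory T c ⥤ AddCommGrpCat.{v} where
  obj i := AddCommGrpCat.of ((c i ⟶ E) →+ Coeff c E)
  map {i j} k := AddCommGrpCat.ofHom
    { toFun := fun φ => φ.comp { toFun := fun e => k.hom ≫ e, map_zero' := comp_zero, map_add' := fun _ _ => Preadditive.comp_add _ _ _ _ _ _ }
      map_zero' := by ext; rfl
      map_add' := fun _ _ => by ext; rfl }
  map_id i := by
    ext φ e
    simp
  map_comp f g := by
    ext φ e
    simp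

/-- the dual homology theory -/
noncomputable def F : T ⥤ AddCommGrpCat.{v} := (inducedFunctor c).pointwiseLeftKanExtension (G c E)

variable {E}

/-- the class of an element -/
noncomputable def cls {X : T} (i : ι) (f : c i ⟶ X) (φ : (c i ⟶ E) →+ Coeff c E) : (F c E).obj X :=
  (colimit.ι (CostructuredArrow.proj (inducedFunctor c) X ⋙ G c E) (mkObj c i f)) φ


/-- the push forward of a functional -/
def push {i j : ι} (k : c i ⟶ c j) (φ : (c i ⟶ E) →+ Coeff c E) : (c j ⟶ E) →+ Coeff c E :=
  φ.comp { toFun := fun e => k ≫ e, map_zero' := comp_zero, map_add' := fun _ _ => Preadditive.comp_add _ _ _ _ _ _ }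

omit [HasZeroObject T] [HasShift T ℤ] [∀ n : ℤ, (shiftFunctor T n).Additive] [Pretriangulated T]
  [HasCoproducts.{w} T] in
lemma push_apply {i j : ι} (k : c i ⟶ c j) (φ : (c i ⟶ E) →+ Coeff c E) (e : c j ⟶ E) :
    push c k φ e = φ (k ≫ e) := rfl

omit [HasZeroObject T] [HasShift T ℤ] [∀ n : ℤ, (shiftFunctor T n).Additive] [Pretriangulated T]
  [HasCoproducts.{w} T] in
lemma cls_push {X : T} {i j : ι} (k : c i ⟶ c j) (f : c j ⟶ X) (φ : (c i ⟶ E) →+ Coeff c E) :
    cls c i (k ≫ f) φ = cls c j f (push c k φ) := by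
  have := colimit.w (CostructuredArrow.proj (inducedFunctor c) X ⋙ G c E) (mkHom (f := k ≫ f) (g := f) k rfl)
  exact (ConcreteCategory.congr_hom this φ).symm

omit [HasZeroObject T] [HasShift T ℤ] [∀ n : ℤ, (shiftFunctor T n).Additive] [Pretriangulated T]
  [HasCoproducts.{w} T] in
lemma map_cls {X Y : T} (u : X ⟶ Y) (i : ι) (f : c i ⟶ X) (φ : (c i ⟶ E) →+ Coeff c E) :
    (F c E).map u (cls c i f φ) = cls c i (f ≫ u) φ := by
  have : colimit.ι (CostructuredArrow.proj (inducedFunctor c) X ⋙ G c E) (mkObj c i f) ≫ (F c E).map u =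
      colimit.ι (CostructuredArrow.proj (inducedFunctor c) Y ⋙ G c E) (mkObj c i (f ≫ u)) :=
    colimit.ι_desc _ _
  exact ConcreteCategory.congr_hom this φ

omit [HasZeroObject T] [HasShift T ℤ] [∀ n : ℤ, (shiftFunctor T n).Additive] [Pretriangulated T]
  [HasCoproducts.{w} T] in
lemma cls_add {X : T} (i : ι) (f : c i ⟶ X) (φ ψ : (c i ⟶ E) →+ Coeff c E) :
    cls c i f (φ + ψ) = cls c i f φ + cls c i f ψ :=
  map_add (colimit.ι (CostructuredArrow.proj (inducedFunctor c) X ⋙ G c E) (mkObj c i f)).hom φ ψ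

omit [HasZeroObject T] [HasShift T ℤ] [∀ n : ℤ, (shiftFunctor T n).Additive] [Pretriangulated T]
  [HasCoproducts.{w} T] in
lemma cls_zero {X : T} (i : ι) (f : c i ⟶ X) : cls c i f (0 : (c i ⟶ E) →+ Coeff c E) = 0 :=
  map_zero (colimit.ι (CostructuredArrow.proj (inducedFunctor c) X ⋙ G c E) (mkObj c i f)).hom

variable {c}

lemma exists_rep (hc : IsCountableGen.{w} c) {X : T} (z : (F c E).obj X) :
    ∃ (i : ι) (f : c i ⟶ X) (φ : (c i ⟶ E) →+ Coeff c E), z = cls c i f φ := by
  haveI := isFiltered hc X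
  obtain ⟨a, y, hy⟩ := Concrete.colimit_exists_rep (CostructuredArrow.proj (inducedFunctor c) X ⋙ G c E) z
  exact ⟨a.left, a.hom, y, hy.symm⟩

lemma cls_eq_zero (hc : IsCountableGen.{w} c) {X : T} {i : ι} {f : c i ⟶ X} {φ : (c i ⟶ E) →+ Coeff c E}
    (h : cls c i f φ = 0) : ∃ (j : ι) (g : c i ⟶ c j) (k : c j ⟶ X), f = g ≫ k ∧ push c g φ = 0 := by
  haveI := isFiltered hc X
  have h0 : cls c i f φ = cls c i f 0 := by rw [h, cls_zero]
  obtain ⟨b, p, q, hpq⟩ := Concrete.colimit_exists_of_rep_eq
    (CostructuredArrow.proj (inducedFunctor c) X ⋙ G c E) (i := mkObj c i f) (j := mkObj c i f) φ 0 h0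
  refine ⟨b.left, p.left.hom, b.hom, (CostructuredArrow.w p).symm, ?_⟩
  refine Eq.trans hpq ?_
  exact map_zero ((CostructuredArrow.proj (inducedFunctor c) X ⋙ G c E).map q).hom

/-- additivity in the morphism -/
lemma cls_add_left (hc : IsCountableGen.{w} c) {X : T} {i : ι} (f g : c i ⟶ X) (φ : (c i ⟶ E) →+ Coeff c E) :
    cls c i (f + g) φ = cls c i f φ + cls c i g φ := by
  haveI := isFiltered hc X
  let b := IsFiltered.max (mkObj c i f) (mkObj c i g)
  let p := IsFiltered.leftToMax (mkObj c i f) (mkObj c i g)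
  let q := IsFiltered.rightToMax (mkObj c i f) (mkObj c i g)
  let p' : c i ⟶ c b.left := p.left.hom
  let q' : c i ⟶ c b.left := q.left.hom
  let h : c b.left ⟶ X := b.hom
  have hp : p' ≫ h = f := CostructuredArrow.w p
  have hq : q' ≫ h = g := CostructuredArrow.w q
  rw [← hp, ← hq, ← Preadditive.add_comp, cls_push, cls_push, cls_push, ← cls_add]
  congr 1
  ext e : 1
  simp only [push_apply, Preadditive.add_comp, map_add, AddMonoidHom.add_apply]

lemma cls_zero_left (hc : IsCountableGen.{w} c) {X : T} (i : ι) (φ : (c i ⟶ E) →+ Coeff c E) :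
    cls c i (0 : c i ⟶ X) φ = 0 := by
  have := cls_add_left hc (0 : c i ⟶ X) 0 φ
  simpa using this

lemma cls_sum_left (hc : IsCountableGen.{w} c) {X : T} {i : ι} {J : Type*} (s : Finset J) (f : J → (c i ⟶ X))
    (φ : (c i ⟶ E) →+ Coeff c E) : cls c i (∑ j ∈ s, f j) φ = ∑ j ∈ s, cls c i (f j) φ := by
  classical
  induction s using Finset.induction_on with
  | empty => simp [cls_zero_left hc]
  | insert a s ha ih => rw [Finset.sum_insert ha, Finset.sum_insert ha, cls_add_left hc, ih]

lemma exact_at (hc : IsCountableGen.{w} c) (Δ : Triangle T) (hΔ : Δ ∈ distTriang T) (z : (F c E).obj Δ.obj₂)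
    (hz : (F c E).map Δ.mor₂ z = 0) : ∃ y : (F c E).obj Δ.obj₁, (F c E).map Δ.mor₁ y = z := by
  obtain ⟨i, f, φ, rfl⟩ := exists_rep hc z
  rw [map_cls] at hz
  obtain ⟨j, g, h, hg, hφ⟩ := cls_eq_zero hc hz
  obtain ⟨l, k, hk, hcok, -⟩ := hc.exists_kernel i j g
  -- `φ` comes from `c l`
  obtain ⟨ψ, hψ⟩ := exists_factor (K := Σ i : ι, CharacterModule (c i ⟶ E))
    ({ toFun := fun e => k ≫ e, map_zero' := comp_zero,
       map_add' := fun _ _ => Preadditive.comp_add _ _ _ _ _ _ } : (c i ⟶ E) →+ (c l ⟶ E)) φ (by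
      intro e he
      change k ≫ e = 0 at he
      obtain ⟨e', rfl⟩ := hcok _ e he
      have := DFunLike.congr_fun hφ e'
      exact this)
  obtain ⟨x, hx⟩ : ∃ x : c l ⟶ Δ.obj₁, k ≫ f = x ≫ Δ.mor₁ := by
    apply Triangle.coyoneda_exact₂ _ hΔ
    rw [Category.assoc, hg, ← Category.assoc, hk, zero_comp]
  refine ⟨cls c l x ψ, ?_⟩
  rw [map_cls, ← hx, cls_push]
  congr 1
  ext e : 1
  exact (hψ e).symm

variable (c E) in
lemma F_homological (hc : IsCountableGen.{w} c) : (F c E).IsHomological where
  map_zero X Y := by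
    ext z
    obtain ⟨i, f, φ, rfl⟩ := exists_rep hc z
    refine (map_cls c (0 : X ⟶ Y) i f φ).trans ?_
    rw [comp_zero, cls_zero_left hc]
    rfl
  exact Δ hΔ := by
    rw [ShortComplex.ab_exact_iff]
    intro z hz
    exact exact_at hc Δ hΔ z hz

/-- vanishing of the homology theory -/
lemma F_zero_iff (hc : IsCountableGen.{w} c) (X : T) :
    (∀ z : (F c E).obj X, z = 0) ↔
      ∀ (i : ι) (f : c i ⟶ X), ∃ (j : ι) (g : c i ⟶ c j) (h : c j ⟶ X), f = g ≫ h ∧ ∀ e : c j ⟶ E, g ≫ e = 0 := by
  classical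
  constructor
  · intro hX i f
    -- the injective functional
    let φ : (c i ⟶ E) →+ Coeff c E :=
      { toFun := fun e κ => if h : κ.1 = i then (h ▸ κ.2 : CharacterModule (c i ⟶ E)) e else 0
        map_zero' := by
          funext κ
          split_ifs with h
          · simp
          · rfl
        map_add' := by
          intro a b
          funext κ
          simp only [Pi.add_apply]
          split_ifs with h
          · simp
          · simp }
    have hφ : ∀ e : c i ⟶ E, φ e = 0 → e = 0 := by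
      intro e he
      apply CharacterModule.eq_zero_of_character_apply
      intro χ
      have := congrFun he ⟨i, χ⟩
      simpa [φ] using this
    obtain ⟨j, g, h, hf, hg⟩ := cls_eq_zero hc (hX (cls c i f φ))
    exact ⟨j, g, h, hf, fun e => hφ _ (DFunLike.congr_fun hg e)⟩
  · intro h z
    obtain ⟨i, f, φ, rfl⟩ := exists_rep hc z
    obtain ⟨j, g, k, rfl, he⟩ := h i f
    rw [cls_push]
    have : push c g φ = 0 := by
      ext e : 1
      rw [push_apply, he, map_zero]
      rfl
    rw [this, cls_zero]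

end Functor

end Pool.Agent.Helper62.Hovey
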