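import Pool.Agent.Helper62.Hovey.Baer

/-!
# Morphisms to the reduced power are natural transformations
-/

open CategoryTheory CategoryTheory.Limits CategoryTheory.Pretriangulated

universe w v u

namespace Pool.Agent.Helper62.Hovey

variable {T : Type u} [Category.{v} T] [HasZeroObject T] [HasShift T ℤ] [Preadditive T]
  [∀ n : ℤ, (shiftFunctor T n).Additive] [Pretriangulated T] [HasCoproducts.{w} T]

variable {ι : Type} {c : ι → T}

/-- additive natural transformations `h_X → h_Q` of functors on the compact objects `c i` -/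
structure NatHom (c : ι → T) (X Q : T) where
  app : ∀ i, (c i ⟶ X) → (c i ⟶ Q)
  add : ∀ i (f g : c i ⟶ X), app i (f + g) = app i f + app i g
  nat : ∀ i j (k : c i ⟶ c j) (f : c j ⟶ X), app i (k ≫ f) = k ≫ app j f

omit [HasZeroObject T] [HasShift T ℤ] [∀ n : ℤ, (shiftFunctor T n).Additive] [Pretriangulated T]
  [HasCoproducts.{w} T] in
lemma NatHom.zero {X Q : T} (α : NatHom c X Q) (i : ι) : α.app i 0 = 0 := by
  have := α.add i 0 0
  simpa using this

section

variable [HasProductsOfShape ℕ T] {E : T} {R : RedPower.{w} E}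

/-- injectivity of `h_Q` -/
theorem extend (hc : IsCountableGen.{w} c) {X : T} (G : PGraph c X R.Q) :
    ∃ α : NatHom c X R.Q, ∀ (i : ι) (x : c i ⟶ X) (y : c i ⟶ R.Q), (x, y) ∈ G.G i → α.app i x = y := by
  classical
  let S : Set (∀ i : ι, AddSubgroup ((c i ⟶ X) × (c i ⟶ R.Q))) := {F |
    (∀ (i j : ι) (k : c i ⟶ c j) (x : c j ⟶ X) (y : c j ⟶ R.Q), (x, y) ∈ F j → (k ≫ x, k ≫ y) ∈ F i) ∧
    (∀ (i : ι) (y : c i ⟶ R.Q), ((0 : c i ⟶ X), y) ∈ F i → y = 0)}
  have hzorn := zorn_le_nonempty₀ S ?_ G.G ⟨G.pre, G.fn⟩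
  · obtain ⟨M, hGM, hM⟩ := hzorn
    have hpre := hM.prop.1
    have hfn := hM.prop.2
    have huniq : ∀ (i : ι) (x : c i ⟶ X) (y y' : c i ⟶ R.Q), (x, y) ∈ M i → (x, y') ∈ M i → y = y' := by
      intro i x y y' h h'
      have := (M i).sub_mem h h'
      simp only [Prod.mk_sub_mk, sub_self] at this
      exact sub_eq_zero.mp (hfn i _ this)
    have htot : ∀ (i : ι) (x : c i ⟶ X), ∃ y, (x, y) ∈ M i := by
      intro i x
      let A : PGraph c (c i) R.Q :=
        { G := fun j =>
            { carrier := {p | (p.1 ≫ x, p.2) ∈ M j}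
              add_mem' := fun {p q} hp hq => by
                have := (M j).add_mem hp hq
                simpa [Preadditive.add_comp] using this
              zero_mem' := by
                change ((0 : c j ⟶ c i) ≫ x, (0 : c j ⟶ R.Q)) ∈ M j
                rw [zero_comp]
                exact (M j).zero_mem
              neg_mem' := fun {p} hp => by
                have := (M j).neg_mem hp
                simpa using this }
          pre := fun l j k z y h => by
            have := hpre l j k _ _ h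
            rw [← Category.assoc] at this
            exact this
          fn := fun j y h => by
            have h' : ((0 : c j ⟶ c i) ≫ x, y) ∈ M j := h
            rw [zero_comp] at h'
            exact hfn j y h' }
      obtain ⟨y, hy⟩ := baer hc A
      let L : ∀ j : ι, (c j ⟶ c i) →+ (c j ⟶ X) × (c j ⟶ R.Q) := fun j =>
        { toFun := fun k => (k ≫ x, k ≫ y)
          map_zero' := by simp
          map_add' := fun a b => by simp [Preadditive.add_comp] }
      let M' : ∀ j : ι, AddSubgroup ((c j ⟶ X) × (c j ⟶ R.Q)) := fun j => M j ⊔ (L j).range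
      have hM' : M' ∈ S := by
        refine ⟨?_, ?_⟩
        · intro l j k z q h
          obtain ⟨p, hp, r, hr, hpr⟩ := AddSubgroup.mem_sup.mp h
          obtain ⟨a, rfl⟩ := hr
          refine AddSubgroup.mem_sup.mpr ⟨(k ≫ p.1, k ≫ p.2), hpre l j k _ _ hp, L l (k ≫ a), ⟨_, rfl⟩, ?_⟩
          have h1 : z = p.1 + a ≫ x := (congrArg Prod.fst hpr).symm
          have h2 : q = p.2 + a ≫ y := (congrArg Prod.snd hpr).symm
          rw [h1, h2]
          simp [L, Preadditive.comp_add]
        · intro j q h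
          obtain ⟨p, hp, r, hr, hpr⟩ := AddSubgroup.mem_sup.mp h
          obtain ⟨a, rfl⟩ := hr
          have h1 : p.1 + a ≫ x = 0 := congrArg Prod.fst hpr
          have h2 : p.2 + a ≫ y = q := congrArg Prod.snd hpr
          have h3 : (a, -p.2) ∈ A.G j := by
            change (a ≫ x, -p.2) ∈ M j
            have h4 := (M j).neg_mem hp
            have h5 : a ≫ x = -p.1 := by
              rw [eq_neg_iff_add_eq_zero, add_comm]; exact h1
            rw [h5]
            exact h4
          have h4 := hy j a _ h3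
          rw [← h2, ← h4, add_neg_cancel]
      have hle : M ≤ M' := fun j => le_sup_left
      have hle' : M' ≤ M := hM.le_of_ge hM' hle
      refine ⟨y, hle' i (AddSubgroup.mem_sup.mpr ⟨0, (M i).zero_mem, L i (𝟙 _), ⟨_, rfl⟩, ?_⟩)⟩
      simp [L]
    choose a ha using htot
    refine ⟨⟨a, ?_, ?_⟩, ?_⟩
    · intro i f g
      exact huniq i (f + g) _ _ (ha i _) ((M i).add_mem (ha i f) (ha i g))
    · intro i j k f
      exact huniq i (k ≫ f) _ _ (ha i _) (hpre i j k _ _ (ha j f))
    · intro i x y h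
      exact huniq i x _ _ (ha i x) (hGM i h)
  · intro C hC hchain F hF
    have hdir : ∀ i : ι, DirectedOn (· ≤ ·) ((fun F : (∀ i : ι, AddSubgroup ((c i ⟶ X) × (c i ⟶ R.Q))) => F i) '' C) := by
      intro i
      rintro _ ⟨A, hA, rfl⟩ _ ⟨B, hB, rfl⟩
      rcases hchain.total hA hB with h | h
      · exact ⟨B i, ⟨B, hB, rfl⟩, h i, le_refl _⟩
      · exact ⟨A i, ⟨A, hA, rfl⟩, le_refl _, h i⟩
    have hne : ∀ i : ι, ((fun F : (∀ i : ι, AddSubgroup ((c i ⟶ X) × (c i ⟶ R.Q))) => F i) '' C).Nonempty :=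
      fun i => ⟨_, F, hF, rfl⟩
    refine ⟨fun i => sSup ((fun F : (∀ i : ι, AddSubgroup ((c i ⟶ X) × (c i ⟶ R.Q))) => F i) '' C), ⟨?_, ?_⟩, ?_⟩
    · intro i j k x y h
      rw [AddSubgroup.mem_sSup_of_directedOn (hne j) (hdir j)] at h
      rw [AddSubgroup.mem_sSup_of_directedOn (hne i) (hdir i)]
      obtain ⟨_, ⟨A, hA, rfl⟩, hxy⟩ := h
      exact ⟨_, ⟨A, hA, rfl⟩, (hC hA).1 i j k x y hxy⟩
    · intro i y h
      rw [AddSubgroup.mem_sSup_of_directedOn (hne i) (hdir i)] at h
      obtain ⟨_, ⟨A, hA, rfl⟩, hxy⟩ := h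
      exact (hC hA).2 i y hxy
    · intro A hA i
      exact le_sSup ⟨A, hA, rfl⟩

/-- `X` sees morphisms to `Q` as natural transformations -/
def Rep (c : ι → T) (Q X : T) : Prop :=
  (∀ α : NatHom c X Q, ∃ y : X ⟶ Q, ∀ (i : ι) (f : c i ⟶ X), α.app i f = f ≫ y) ∧
  (∀ y : X ⟶ Q, (∀ (i : ι) (f : c i ⟶ X), f ≫ y = 0) → y = 0)

omit [HasZeroObject T] [HasShift T ℤ] [∀ n : ℤ, (shiftFunctor T n).Additive] [Pretriangulated T]
  [HasCoproducts.{w} T] [HasProductsOfShape ℕ T] in
lemma Rep.of_iso {Q X Y : T} (e : X ≅ Y) (h : Rep c Q X) : Rep c Q Y := by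
  refine ⟨fun α => ?_, fun y hy => ?_⟩
  · obtain ⟨y, hy⟩ := h.1 ⟨fun i f => α.app i (f ≫ e.hom), fun i f g => by rw [Preadditive.add_comp, α.add],
      fun i j k f => by rw [Category.assoc, α.nat]⟩
    refine ⟨e.inv ≫ y, fun i f => ?_⟩
    have := hy i (f ≫ e.inv)
    simp only [Category.assoc, e.inv_hom_id, Category.comp_id] at this
    exact this
  · have := h.2 (e.hom ≫ y) (fun i f => by rw [← Category.assoc]; exact hy i _)
    rw [← cancel_epi e.hom, this, comp_zero]

omit [HasZeroObject T] [HasShift T ℤ] [∀ n : ℤ, (shiftFunctor T n).Additive] [Pretriangulated T]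
  [HasCoproducts.{w} T] [HasProductsOfShape ℕ T] in
lemma Rep.base (Q : T) (i : ι) : Rep c Q (c i) := by
  refine ⟨fun α => ⟨α.app i (𝟙 _), fun j f => ?_⟩, fun y hy => ?_⟩
  · have := α.nat j i f (𝟙 _)
    rwa [Category.comp_id] at this
  · have := hy i (𝟙 _)
    rwa [Category.id_comp] at this

omit [HasZeroObject T] [HasShift T ℤ] [∀ n : ℤ, (shiftFunctor T n).Additive] [Pretriangulated T]
  [HasProductsOfShape ℕ T] in
lemma Rep.coprod (hcomp : ∀ i, IsCompactObj.{w} (c i)) {Q : T} {J : Type w} (X : J → T)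
    (h : ∀ j, Rep c Q (X j)) : Rep c Q (∐ X) := by
  refine ⟨fun α => ?_, fun y hy => ?_⟩
  · have h1 : ∀ j, ∃ y : X j ⟶ Q, ∀ (i : ι) (f : c i ⟶ X j), α.app i (f ≫ Sigma.ι X j) = f ≫ y := by
      intro j
      exact (h j).1 ⟨fun i f => α.app i (f ≫ Sigma.ι X j), fun i f g => by rw [Preadditive.add_comp, α.add],
        fun i l k f => by rw [Category.assoc, α.nat]⟩
    choose y hy using h1
    refine ⟨Sigma.desc y, fun i f => ?_⟩
    obtain ⟨s, g, rfl⟩ := hcomp i X f
    let αi : (c i ⟶ ∐ X) →+ (c i ⟶ Q) := AddMonoidHom.mk' (α.app i) (α.add i)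
    have h2 : α.app i (∑ j ∈ s, g j ≫ Sigma.ι X j) = ∑ j ∈ s, α.app i (g j ≫ Sigma.ι X j) :=
      map_sum αi _ _
    rw [h2, Preadditive.sum_comp]
    refine Finset.sum_congr rfl fun j _ => ?_
    rw [hy, Category.assoc, Sigma.ι_desc]
  · apply Sigma.hom_ext
    intro j
    rw [comp_zero]
    exact (h j).2 _ (fun i f => by rw [← Category.assoc]; exact hy i _)

lemma Rep.cone (hc : IsCountableGen.{w} c) (Δ : Triangle T) (hΔ : Δ ∈ distTriang T)
    (h₁ : Rep c R.Q Δ.obj₁) (h₂ : Rep c R.Q Δ.obj₂) (h₁' : Rep c R.Q (Δ.obj₁⟦(1 : ℤ)⟧))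
    (h₂' : Rep c R.Q (Δ.obj₂⟦(1 : ℤ)⟧)) : Rep c R.Q Δ.obj₃ := by
  refine ⟨fun α => ?_, fun z hz => ?_⟩
  · obtain ⟨y, hy⟩ := h₂.1 ⟨fun i f => α.app i (f ≫ Δ.mor₂), fun i f g => by rw [Preadditive.add_comp, α.add],
      fun i l k f => by rw [Category.assoc, α.nat]⟩
    have huy : Δ.mor₁ ≫ y = 0 := by
      apply h₁.2
      intro i f
      have := hy i (f ≫ Δ.mor₁)
      rw [Category.assoc] at this
      rw [← this]
      change α.app i ((f ≫ Δ.mor₁) ≫ Δ.mor₂) = 0
      rw [Category.assoc, comp_distTriang_mor_zero₁₂ _ hΔ, comp_zero, α.zero]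
    obtain ⟨z, hz⟩ := Triangle.yoneda_exact₂ _ hΔ y huy
    let G : PGraph c (Δ.obj₁⟦(1 : ℤ)⟧) R.Q :=
      { G := fun j =>
          { carrier := {p | ∃ g : c j ⟶ Δ.obj₃, p.1 = g ≫ Δ.mor₃ ∧ p.2 = α.app j g - g ≫ z}
            add_mem' := by
              rintro p q ⟨g, h1, h2⟩ ⟨g', h1', h2'⟩
              refine ⟨g + g', ?_, ?_⟩
              · rw [Prod.fst_add, h1, h1', Preadditive.add_comp]
              · rw [Prod.snd_add, h2, h2', Preadditive.add_comp, α.add]
                abel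
            zero_mem' := ⟨0, by simp, by simp [α.zero]⟩
            neg_mem' := by
              rintro p ⟨g, h1, h2⟩
              refine ⟨-g, ?_, ?_⟩
              · rw [Prod.fst_neg, h1, Preadditive.neg_comp]
              · have h3 : α.app j (-g) = - α.app j g := by
                  have := α.add j g (-g)
                  rw [add_neg_cancel, α.zero] at this
                  exact (neg_eq_of_add_eq_zero_right this.symm).symm
                rw [Prod.snd_neg, h2, h3, Preadditive.neg_comp]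
                abel }
        pre := by
          rintro i j k x y ⟨g, h1, h2⟩
          refine ⟨k ≫ g, ?_, ?_⟩
          · change k ≫ x = _
            rw [Category.assoc]; exact congrArg (k ≫ ·) h1
          · change k ≫ y = _
            rw [α.nat, Category.assoc, ← Preadditive.comp_sub]; exact congrArg (k ≫ ·) h2
        fn := by
          rintro i y₁ ⟨g, h1, h2⟩
          obtain ⟨f, hf⟩ := Triangle.coyoneda_exact₃ _ hΔ g h1.symm
          change y₁ = _ at h2
          rw [h2, hf]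
          have h3 := hy i f
          change α.app i (f ≫ Δ.mor₂) = f ≫ y at h3
          rw [h3, hz, Category.assoc, sub_self] }
    obtain ⟨γ, hγ⟩ := extend hc G
    obtain ⟨b, hb⟩ := h₁'.1 γ
    refine ⟨z + Δ.mor₃ ≫ b, fun i g => ?_⟩
    have h3 := hγ i (g ≫ Δ.mor₃) (α.app i g - g ≫ z) ⟨g, rfl, rfl⟩
    rw [hb i, Category.assoc] at h3
    rw [Preadditive.comp_add, h3]
    abel
  · have hvz : Δ.mor₂ ≫ z = 0 := h₂.2 _ (fun i f => by rw [← Category.assoc]; exact hz i _)
    obtain ⟨b, hb⟩ := Triangle.yoneda_exact₃ _ hΔ z hvz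
    let G : PGraph c (Δ.obj₂⟦(1 : ℤ)⟧) R.Q :=
      { G := fun j =>
          { carrier := {p | ∃ g : c j ⟶ Δ.obj₁⟦(1 : ℤ)⟧, p.1 = g ≫ Δ.mor₁⟦(1 : ℤ)⟧' ∧ p.2 = g ≫ b}
            add_mem' := by
              rintro p q ⟨g, h1, h2⟩ ⟨g', h1', h2'⟩
              refine ⟨g + g', ?_, ?_⟩
              · rw [Prod.fst_add, h1, h1', Preadditive.add_comp]
              · rw [Prod.snd_add, h2, h2', Preadditive.add_comp]
            zero_mem' := ⟨0, by simp, by simp⟩
            neg_mem' := by
              rintro p ⟨g, h1, h2⟩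
              refine ⟨-g, ?_, ?_⟩
              · rw [Prod.fst_neg, h1, Preadditive.neg_comp]
              · rw [Prod.snd_neg, h2, Preadditive.neg_comp] }
        pre := by
          rintro i j k x y ⟨g, h1, h2⟩
          refine ⟨k ≫ g, ?_, ?_⟩
          · change k ≫ x = _
            rw [Category.assoc]; exact congrArg (k ≫ ·) h1
          · change k ≫ y = _
            rw [Category.assoc]; exact congrArg (k ≫ ·) h2
        fn := by
          rintro i y ⟨g, h1, h2⟩
          obtain ⟨f, hf⟩ := Triangle.coyoneda_exact₁ _ hΔ g h1.symm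
          change y = _ at h2
          rw [h2, hf, Category.assoc, ← hb]
          exact hz i f }
    obtain ⟨γ, hγ⟩ := extend hc G
    obtain ⟨y', hy'⟩ := h₂'.1 γ
    have h3 : b - Δ.mor₁⟦(1 : ℤ)⟧' ≫ y' = 0 := by
      apply h₁'.2
      intro i g
      have h4 := hγ i (g ≫ Δ.mor₁⟦(1 : ℤ)⟧') (g ≫ b) ⟨g, rfl, rfl⟩
      rw [hy' i, Category.assoc] at h4
      rw [Preadditive.comp_sub, h4, sub_self]
    rw [hb, sub_eq_zero.mp h3, ← Category.assoc, comp_distTriang_mor_zero₃₁ _ hΔ, zero_comp]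

/-- every object sees morphisms to the reduced power as natural transformations -/
theorem rep_of_inLoc (hc : IsCountableGen.{w} c) {X : T} (hX : InLoc.{w} c X) : ∀ n : ℤ, Rep c R.Q (X⟦n⟧) := by
  induction hX with
  | base i =>
    intro n
    obtain ⟨j, ⟨e⟩⟩ := hc.shift i n
    exact (Rep.base R.Q j).of_iso e.symm
  | iso e _ ih =>
    intro n
    exact (ih n).of_iso ((shiftFunctor T n).mapIso e)
  | @shift X m _ ih =>
    intro n
    exact (ih (m + n)).of_iso ((shiftFunctorAdd T m n).app X)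
  | cone Δ hΔ _ _ ih₁ ih₂ =>
    intro n
    have h := Triangle.shift_distinguished Δ hΔ n
    exact Rep.cone hc _ h (ih₁ n) (ih₂ n) ((ih₁ (n + 1)).of_iso ((shiftFunctorAdd T n 1).app _))
      ((ih₂ (n + 1)).of_iso ((shiftFunctorAdd T n 1).app _))
  | coprod X _ ih =>
    intro n
    exact (Rep.coprod hc.compact (fun j => (X j)⟦n⟧) (fun j => ih j n)).of_iso
      (PreservesCoproduct.iso (shiftFunctor T n) X).symm

theorem rep (hc : IsCountableGen.{w} c) (X : T) : Rep c R.Q X :=
  (rep_of_inLoc hc (hc.generate X) 0).of_iso ((shiftFunctorZero T ℤ).app X)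

end

end Pool.Agent.Helper62.Hovey
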