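import Pool.Agent.Helper62.Hovey.AdamsRep
import Pool.Agent.Helper62.Hovey.Rep

/-!
# Pure presentations by coproducts of compact objects, and lifting of natural transformations
-/

open CategoryTheory CategoryTheory.Limits CategoryTheory.Pretriangulated

noncomputable section

open scoped Classical

universe v u

namespace Pool.Agent.Helper62.Hovey

variable {T : Type u} [Category.{v} T] [HasZeroObject T] [HasShift T ℤ] [Preadditive T]
  [∀ n : ℤ, (shiftFunctor T n).Additive] [Pretriangulated T] [HasCoproducts.{v} T]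

variable {ι : Type} {c : ι → T}

/-- the cohomological functor represented by an object -/
def repFun (hc : IsCountableGen.{v} c) (X : T) : CohFun c where
  obj i := c i ⟶ X
  map f := Preadditive.leftComp X f
  map_id i x := Category.id_comp x
  map_comp f g x := Category.assoc f g x
  map_add f g x := Preadditive.add_comp _ _ _ _ _ _
  exact {i j} f x hx := by
    obtain ⟨k, g, hg, hcok, -⟩ := hc.exists_cokernel i j f
    obtain ⟨z, hz⟩ := hcok X x hx
    exact ⟨k, g, z, hg, hz.symm⟩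

/-- an object without morphisms from the generators is zero -/
lemma isZero_of_forall (hc : IsCountableGen.{v} c) (K : T) (h : ∀ (i : ι) (f : c i ⟶ K), f = 0) : IsZero K := by
  have key : ∀ Z : T, InLoc.{v} c Z → ∀ (n : ℤ) (f : Z⟦n⟧ ⟶ K), f = 0 := by
    intro Z hZ
    induction hZ with
    | base i =>
      intro n f
      obtain ⟨j, ⟨e⟩⟩ := hc.shift i n
      rw [← cancel_epi e.inv, h j (e.inv ≫ f), comp_zero]
    | @iso X Y e _ ih =>
      intro n f
      have := ih n ((shiftFunctor T n).map e.hom ≫ f)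
      rw [← cancel_epi ((shiftFunctor T n).map e.hom), this, comp_zero]
    | @shift X m _ ih =>
      intro n f
      have := ih (m + n) ((shiftFunctorAdd T m n).hom.app X ≫ f)
      rw [← cancel_epi ((shiftFunctorAdd T m n).hom.app X), this, comp_zero]
    | cone Δ hΔ _ _ ih₁ ih₂ =>
      intro n f
      have hT := Triangle.shift_distinguished Δ hΔ n
      have h1 : ∀ g : (Δ.obj₁⟦n⟧)⟦(1 : ℤ)⟧ ⟶ K, g = 0 := by
        intro g
        have := ih₁ (n + 1) ((shiftFunctorAdd T n 1).hom.app _ ≫ g)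
        rw [← cancel_epi ((shiftFunctorAdd T n 1).hom.app _), this, comp_zero]
      obtain ⟨z, hz⟩ := Triangle.yoneda_exact₃ _ hT f (ih₂ n _)
      rw [hz]
      have h2 : z = 0 := h1 z
      rw [h2]
      exact comp_zero
    | @coprod J X _ ih =>
      intro n f
      have e := PreservesCoproduct.iso (shiftFunctor T n) X
      rw [← cancel_epi e.inv, comp_zero]
      apply Sigma.hom_ext
      intro j
      rw [comp_zero]
      exact ih j n _
  rw [IsZero.iff_id_eq_zero]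
  have h0 := key K (hc.generate K) 0 ((shiftFunctorZero T ℤ).hom.app K)
  have h1 : IsIso ((shiftFunctorZero T ℤ).hom.app K) := inferInstance
  rw [← cancel_epi ((shiftFunctorZero T ℤ).hom.app K)]
  exact (Category.comp_id _).trans (h0.trans comp_zero.symm)

lemma isIso_of_forall (hc : IsCountableGen.{v} c) {X' X : T} (u : X' ⟶ X)
    (hinj : ∀ (i : ι) (z : c i ⟶ X'), z ≫ u = 0 → z = 0) (hsurj : ∀ (i : ι) (f : c i ⟶ X), ∃ z, z ≫ u = f) :
    IsIso u := by
  obtain ⟨K, a, b, hT⟩ := distinguished_cocone_triangle u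
  have hinj' : ∀ (i : ι) (x : c i ⟶ X'⟦(1 : ℤ)⟧), x ≫ u⟦(1 : ℤ)⟧' = 0 → x = 0 := by
    intro i x hx
    obtain ⟨k, ⟨e⟩⟩ := hc.shift i (-1)
    let e' : (c k)⟦(1 : ℤ)⟧ ≅ c i := (shiftFunctor T (1 : ℤ)).mapIso e.symm ≪≫
      (shiftFunctorCompIsoId T (-1 : ℤ) 1 (by norm_num)).app (c i)
    obtain ⟨z, hz⟩ := (shiftFunctor T (1 : ℤ)).map_surjective (e'.hom ≫ x)
    have h2 : z ≫ u = 0 := by
      apply (shiftFunctor T (1 : ℤ)).map_injective
      rw [Functor.map_comp, hz, Functor.map_zero, Category.assoc, hx, comp_zero]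
    have h3 := hinj k z h2
    rw [h3, Functor.map_zero] at hz
    rw [← cancel_epi e'.hom, ← hz, comp_zero]
  have hK : IsZero K := by
    apply isZero_of_forall hc
    intro i w
    have h1 : w ≫ b = 0 := by
      apply hinj' i
      have h2 : b ≫ u⟦(1 : ℤ)⟧' = 0 := comp_distTriang_mor_zero₃₁ _ hT
      rw [Category.assoc, h2, comp_zero]
    obtain ⟨f, hf⟩ : ∃ f : c i ⟶ X, w = f ≫ a := Triangle.coyoneda_exact₃ _ hT w h1
    obtain ⟨z, rfl⟩ := hsurj i f
    have h3 : u ≫ a = 0 := comp_distTriang_mor_zero₁₂ _ hT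
    rw [hf, Category.assoc, h3, comp_zero]
  exact (Triangle.isZero₃_iff_isIso₁ _ hT).mp hK

/-- every object has a pure presentation by coproducts of the generators, of length one -/
theorem exists_presentation (hc : IsCountableGen.{v} c) (X : T) :
    ∃ (J₀ J₁ : Type v) (κ₀ : J₀ → ι) (κ₁ : J₁ → ι) (d : ∐ (fun k => c (κ₁ k)) ⟶ ∐ (fun k => c (κ₀ k)))
      (p : ∐ (fun k => c (κ₀ k)) ⟶ X), d ≫ p = 0 ∧ (∀ (i : ι) (f : c i ⟶ X), ∃ g, g ≫ p = f) ∧
      (∀ (i : ι) (g : c i ⟶ ∐ (fun k => c (κ₀ k))), g ≫ p = 0 → ∃ h, h ≫ d = g) ∧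
      (∀ (i : ι) (h : c i ⟶ ∐ (fun k => c (κ₁ k))), h ≫ d = 0 → h = 0) := by
  let H : CohFun c := repFun hc X
  obtain ⟨A, B, hG, htop⟩ := H.exists_good hc
  let κ₀ : H.Lab → ι := fun a => a.2.1
  let κ₁ : H.RLab → ι := fun b => b.1
  let P₀ : T := sumObj c κ₀ A
  let P₁ : T := sumObj c κ₁ B
  let ev₀ : ∀ j, H.Gen j →+ (c j ⟶ P₀) := fun j => evS c κ₀ A j
  let ev₁ : ∀ j, H.Rel j →+ (c j ⟶ P₁) := fun j => evS c κ₁ B j
  let d : P₁ ⟶ P₀ := Sigma.desc (fun b : B => ev₀ _ b.1.2)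
  let p : P₀ ⟶ X := Sigma.desc (fun a : A => (a.1.2.2 : c (κ₀ a.1) ⟶ X))
  have hpull : ∀ {i j : ι} (f : c i ⟶ c j) (z : H.Gen j), f ≫ ev₀ j z = ev₀ i (H.pull f z) :=
    fun f z => evS_comp κ₀ A f z
  have hd : ∀ (j : ι) (ψ : H.Rel j), ψ ∈ suppIn B → ev₁ j ψ ≫ d = ev₀ j (H.rel j ψ) := by
    intro j ψ hψ
    have hsum : ψ = ∑ l ∈ ψ.support, (DFinsupp.single l (ψ l) : H.Rel j) := (DFinsupp.sum_single (f := ψ)).symm
    rw [hsum, map_sum, map_sum, map_sum, Preadditive.sum_comp]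
    refine Finset.sum_congr rfl fun b hb => ?_
    have hbB : b ∈ B := by
      by_contra hn
      exact (DFinsupp.mem_support_iff.mp hb) (hψ b hn)
    have h1 : ev₁ j (DFinsupp.single b (ψ b)) = ψ b ≫ Sigma.ι (fun k : B => c (κ₁ k)) ⟨b, hbB⟩ :=
      evS_single κ₁ B hbB _
    rw [h1, H.rel_single, ← hpull, Category.assoc]
    congr 1
    exact Sigma.ι_desc _ _
  have hp : ∀ (j : ι) (z : H.Gen j), z ∈ suppIn A → ev₀ j z ≫ p = H.gen j z := by
    intro j z hz
    have hsum : z = ∑ l ∈ z.support, (DFinsupp.single l (z l) : H.Gen j) := (DFinsupp.sum_single (f := z)).symm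
    rw [hsum, map_sum, map_sum, Preadditive.sum_comp]
    refine Finset.sum_congr rfl fun a ha => ?_
    have haA : a ∈ A := by
      by_contra hn
      exact (DFinsupp.mem_support_iff.mp ha) (hz a hn)
    have h1 : ev₀ j (DFinsupp.single a (z a)) = z a ≫ Sigma.ι (fun k : A => c (κ₀ k)) ⟨a, haA⟩ :=
      evS_single κ₀ A haA _
    rw [h1, H.gen_single, Category.assoc]
    have h2 : Sigma.ι (fun k : A => c (κ₀ k)) ⟨a, haA⟩ ≫ p = (a.2.2 : c (κ₀ a) ⟶ X) := Sigma.ι_desc _ _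
    rw [h2]
    rfl
  refine ⟨A, B, fun a => κ₀ a, fun b => κ₁ b, d, p, ?_, ?_, ?_, ?_⟩
  · apply Sigma.hom_ext
    intro b
    have h1 : Sigma.ι (fun k : B => c (κ₁ k)) b ≫ d = ev₀ _ b.1.2 := Sigma.ι_desc _ _
    rw [← Category.assoc, h1, hp _ _ (hG.rel_supp _ b.2), hG.rel_zero _ b.2, comp_zero]
    rfl
  · intro i f
    obtain ⟨z, hz, hzf⟩ := htop i f
    exact ⟨ev₀ i z, (hp i z hz).trans hzf⟩
  · intro i g hg
    obtain ⟨z, hz, rfl⟩ := evS_surj κ₀ A (hc.compact i) g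
    have h1 : H.gen i z = 0 := by
      rw [← hp i z hz]
      exact hg
    obtain ⟨ψ, hψ, rfl⟩ := hG.exact i z hz h1
    exact ⟨ev₁ i ψ, hd i ψ hψ⟩
  · intro i x hx
    obtain ⟨ψ, hψ, rfl⟩ := evS_surj κ₁ B (hc.compact i) x
    have h1 : ev₀ i (H.rel i ψ) = 0 := by rw [← hd i ψ hψ]; exact hx
    have h2 := evS_inj κ₀ A _ (hG.rel_mem hψ) h1
    rw [hG.inj i ψ hψ h2, map_zero]

/-- natural transformations on the compact objects lift to morphisms -/
theorem exists_lift (hc : IsCountableGen.{v} c) {X E : T} (α : NatHom c X E) :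
    ∃ y : X ⟶ E, ∀ (i : ι) (f : c i ⟶ X), α.app i f = f ≫ y := by
  obtain ⟨J₀, J₁, κ₀, κ₁, d, p, hdp, hp, hker, hinj⟩ := exists_presentation hc X
  obtain ⟨X', π, δ, hT⟩ := distinguished_cocone_triangle d
  obtain ⟨u, hu⟩ : ∃ u : X' ⟶ X, p = π ≫ u := Triangle.yoneda_exact₂ _ hT p hdp
  have hinj' : ∀ (i : ι) (x : c i ⟶ (∐ (fun k => c (κ₁ k)))⟦(1 : ℤ)⟧), x ≫ d⟦(1 : ℤ)⟧' = 0 → x = 0 := by
    intro i x hx
    obtain ⟨k, ⟨e⟩⟩ := hc.shift i (-1)
    let e' : (c k)⟦(1 : ℤ)⟧ ≅ c i := (shiftFunctor T (1 : ℤ)).mapIso e.symm ≪≫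
      (shiftFunctorCompIsoId T (-1 : ℤ) 1 (by norm_num)).app (c i)
    obtain ⟨z, hz⟩ := (shiftFunctor T (1 : ℤ)).map_surjective (e'.hom ≫ x)
    have h2 : z ≫ d = 0 := by
      apply (shiftFunctor T (1 : ℤ)).map_injective
      rw [Functor.map_comp, hz, Functor.map_zero, Category.assoc, hx, comp_zero]
    have h3 := hinj k z h2
    rw [h3, Functor.map_zero] at hz
    rw [← cancel_epi e'.hom, ← hz, comp_zero]
  have hdπ : d ≫ π = 0 := comp_distTriang_mor_zero₁₂ _ hT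
  have hlift : ∀ (i : ι) (z : c i ⟶ X'), ∃ g : c i ⟶ ∐ (fun k => c (κ₀ k)), z = g ≫ π := by
    intro i z
    have h1 : z ≫ δ = 0 := by
      apply hinj' i
      have h2 : δ ≫ d⟦(1 : ℤ)⟧' = 0 := comp_distTriang_mor_zero₃₁ _ hT
      rw [Category.assoc, h2, comp_zero]
    exact Triangle.coyoneda_exact₃ _ hT z h1
  have hiso : IsIso u := by
    apply isIso_of_forall hc
    · intro i z hz
      obtain ⟨g, rfl⟩ := hlift i z
      rw [Category.assoc, ← hu] at hz
      obtain ⟨h, rfl⟩ := hker i g hz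
      rw [Category.assoc, hdπ, comp_zero]
    · intro i f
      obtain ⟨g, rfl⟩ := hp i f
      exact ⟨g ≫ π, by rw [Category.assoc, hu]⟩
  -- the morphism on `P₀`
  let s : (∐ (fun k => c (κ₀ k))) ⟶ E := Sigma.desc fun k => α.app (κ₀ k) (Sigma.ι (fun k => c (κ₀ k)) k ≫ p)
  have hs : ∀ (i : ι) (g : c i ⟶ ∐ (fun k => c (κ₀ k))), g ≫ s = α.app i (g ≫ p) := by
    intro i g
    obtain ⟨t, h, rfl⟩ := hc.compact i _ g
    rw [Preadditive.sum_comp, Preadditive.sum_comp]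
    let αi : (c i ⟶ X) →+ (c i ⟶ E) := AddMonoidHom.mk' (α.app i) (α.add i)
    have h2 : α.app i (∑ j ∈ t, (h j ≫ Sigma.ι (fun k => c (κ₀ k)) j) ≫ p) =
        ∑ j ∈ t, α.app i ((h j ≫ Sigma.ι (fun k => c (κ₀ k)) j) ≫ p) := map_sum αi _ _
    rw [h2]
    refine Finset.sum_congr rfl fun j _ => ?_
    rw [Category.assoc, Category.assoc, α.nat]
    congr 1
    exact Sigma.ι_desc _ _
  have hds : d ≫ s = 0 := by
    apply Sigma.hom_ext
    intro k
    rw [comp_zero, ← Category.assoc, hs, Category.assoc, hdp, comp_zero, α.zero]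
  obtain ⟨z, hz⟩ : ∃ z : X' ⟶ E, s = π ≫ z := Triangle.yoneda_exact₂ _ hT s hds
  refine ⟨inv u ≫ z, fun i f => ?_⟩
  obtain ⟨g, rfl⟩ := hp i f
  rw [← hs, hz, hu]
  simp

end Pool.Agent.Helper62.Hovey

end
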