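import Pool.Agent.Helper62.Hovey.Lin
import Pool.Agent.Helper62.Hovey.Present
import Pool.Agent.Helper62.Hovey.Homology
import Pool.Agent.Helper24.LC

/-!
# Acyclic objects of theories with artinian kernels
-/

open CategoryTheory CategoryTheory.Limits CategoryTheory.Pretriangulated

universe v u

namespace Pool.Agent.Helper62.Hovey

section Mod

variable {T : Type u} [Category.{v} T] [Preadditive T] {A : Type*} [Ring A] {E : T}

/-- the group of morphisms `X ⟶ E` as a module over a ring acting on `E` -/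
def HomMod (_ρ : A →+* End E) (X : T) : Type v := X ⟶ E

variable (ρ : A →+* End E)

instance (X : T) : AddCommGroup (HomMod ρ X) := inferInstanceAs (AddCommGroup (X ⟶ E))

/-- the action is `a • x = x ≫ ρ a` -/
instance (X : T) : Module A (HomMod ρ X) where
  smul a x := (show X ⟶ E from x) ≫ (ρ a : E ⟶ E)
  one_smul x := by
    change (show X ⟶ E from x) ≫ (ρ 1 : E ⟶ E) = x
    rw [map_one]
    exact Category.comp_id _
  mul_smul a b x := by
    change (show X ⟶ E from x) ≫ (ρ (a * b) : E ⟶ E) = ((show X ⟶ E from x) ≫ (ρ b : E ⟶ E)) ≫ (ρ a : E ⟶ E)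
    rw [map_mul, Category.assoc]
    rfl
  smul_zero a := by
    change (0 : X ⟶ E) ≫ (ρ a : E ⟶ E) = 0
    exact zero_comp
  smul_add a x y := Preadditive.add_comp _ _ _ _ _ _
  add_smul a b x := by
    change (show X ⟶ E from x) ≫ (ρ (a + b) : E ⟶ E) = _
    rw [map_add]
    exact Preadditive.comp_add _ _ _ _ _ _
  zero_smul x := by
    change (show X ⟶ E from x) ≫ (ρ 0 : E ⟶ E) = 0
    rw [map_zero]
    exact comp_zero

variable {ρ}

lemma HomMod.smul_def {X : T} (a : A) (x : HomMod ρ X) : a • x = (show X ⟶ E from x) ≫ (ρ a : E ⟶ E) := rfl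

variable (ρ)

/-- precomposition as a linear map -/
def pre {X Y : T} (g : X ⟶ Y) : HomMod ρ Y →ₗ[A] HomMod ρ X where
  toFun e := g ≫ (show Y ⟶ E from e)
  map_add' e e' := Preadditive.comp_add _ _ _ _ _ _
  map_smul' a e := (Category.assoc _ _ _).symm

lemma pre_apply {X Y : T} (g : X ⟶ Y) (e : Y ⟶ E) : pre ρ g e = g ≫ e := rfl

lemma pre_comp {X Y Z : T} (g : X ⟶ Y) (h : Y ⟶ Z) : pre ρ (g ≫ h) = pre ρ g ∘ₗ pre ρ h := by
  apply LinearMap.ext
  intro e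
  exact Category.assoc g h e

lemma pre_id (X : T) : pre ρ (𝟙 X) = LinearMap.id := by
  apply LinearMap.ext
  intro e
  exact Category.id_comp (show X ⟶ E from e)

lemma range_pre_le {X Y Z : T} (g : X ⟶ Y) (h : Y ⟶ Z) :
    LinearMap.range (pre ρ (g ≫ h)) ≤ LinearMap.range (pre ρ g) := by
  rw [pre_comp]
  exact LinearMap.range_comp_le_range _ _

lemma map_range_pre {X Y Z : T} (g : X ⟶ Y) (h : Y ⟶ Z) :
    (LinearMap.range (pre ρ h)).map (pre ρ g) = LinearMap.range (pre ρ (g ≫ h)) := by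
  rw [pre_comp, LinearMap.range_comp]

end Mod

variable {T : Type u} [Category.{v} T] [HasZeroObject T] [HasShift T ℤ] [Preadditive T]
  [∀ n : ℤ, (shiftFunctor T n).Additive] [Pretriangulated T] [HasCoproducts.{v} T]

variable {ι : Type} {c : ι → T}

lemma exists_span (hc : IsCountableGen.{v} c) {X : T} {i j j' : ι} (g : c i ⟶ c j) (h : c j ⟶ X)
    (g' : c i ⟶ c j') (h' : c j' ⟶ X) (w : g ≫ h = g' ≫ h') :
    ∃ (l : ι) (m : c l ⟶ X) (u : c j ⟶ c l) (u' : c j' ⟶ c l), u ≫ m = h ∧ u' ≫ m = h' ∧ g ≫ u = g' ≫ u' := by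
  haveI := isFiltered hc X
  obtain ⟨k, a, b, hab⟩ := IsFiltered.span (mkHom (f := g ≫ h) (g := h) g rfl) (mkHom (f := g ≫ h) (g := h') g' w.symm)
  refine ⟨k.left, k.hom, a.left.hom, b.left.hom, CostructuredArrow.w a, CostructuredArrow.w b, ?_⟩
  have h1 := congrArg (fun x => x.left.hom) hab
  exact h1

lemma exists_dir (hc : IsCountableGen.{v} c) {X : T} {i j : ι} (f : c i ⟶ X) (g : c j ⟶ X) :
    ∃ (l : ι) (m : c l ⟶ X) (u : c i ⟶ c l) (u' : c j ⟶ c l), u ≫ m = f ∧ u' ≫ m = g := by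
  haveI := isFiltered hc X
  let a := IsFiltered.leftToMax (mkObj c i f) (mkObj c j g)
  let b := IsFiltered.rightToMax (mkObj c i f) (mkObj c j g)
  exact ⟨(IsFiltered.max (mkObj c i f) (mkObj c j g)).left, (IsFiltered.max (mkObj c i f) (mkObj c j g)).hom,
    a.left.hom, b.left.hom, CostructuredArrow.w a, CostructuredArrow.w b⟩

lemma exists_coeq (hc : IsCountableGen.{v} c) {X : T} {i j : ι} (g : c j ⟶ X) (k k' : c i ⟶ c j)
    (h : k ≫ g = k' ≫ g) : ∃ (l : ι) (m : c l ⟶ X) (u : c j ⟶ c l), u ≫ m = g ∧ k ≫ u = k' ≫ u := by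
  haveI := isFiltered hc X
  let a := mkHom (f := k ≫ g) (g := g) k rfl
  let b := mkHom (f := k ≫ g) (g := g) k' h.symm
  refine ⟨(IsFiltered.coeq a b).left, (IsFiltered.coeq a b).hom, (IsFiltered.coeqHom a b).left.hom,
    CostructuredArrow.w (IsFiltered.coeqHom a b), ?_⟩
  have h1 := congrArg (fun x => x.left.hom) (IsFiltered.coeq_condition a b)
  exact h1

variable {A : Type*} [Ring A] {E : T} (ρ : A →+* End E)

/-- the intersection of the images of all factorisations through the generators -/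
def jay {X : T} {i : ι} (f : c i ⟶ X) : Submodule A (HomMod ρ (c i)) :=
  ⨅ p : {p : Σ j : ι, (c i ⟶ c j) // ∃ h, f = p.2 ≫ h}, LinearMap.range (pre ρ p.1.2)

omit [HasZeroObject T] [HasShift T ℤ] [∀ n : ℤ, (shiftFunctor T n).Additive] [Pretriangulated T]
  [HasCoproducts.{v} T] in
lemma jay_le {X : T} {i j : ι} (f : c i ⟶ X) (g : c i ⟶ c j) (h : c j ⟶ X) (w : f = g ≫ h) :
    jay ρ f ≤ LinearMap.range (pre ρ g) :=
  iInf_le (fun p : {p : Σ j : ι, (c i ⟶ c j) // ∃ h, f = p.2 ≫ h} => LinearMap.range (pre ρ p.1.2)) ⟨⟨j, g⟩, h, w⟩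

lemma exists_jay (hc : IsCountableGen.{v} c) {X : T} {i : ι} (f : c i ⟶ X) (Γ : Submodule A (HomMod ρ (c i)))
    [IsArtinian A Γ] (hf : ∃ (j : ι) (g : c i ⟶ c j) (h : c j ⟶ X), f = g ≫ h ∧ LinearMap.range (pre ρ g) ≤ Γ) :
    ∃ (j : ι) (g : c i ⟶ c j) (h : c j ⟶ X), f = g ≫ h ∧ LinearMap.range (pre ρ g) = jay ρ f ∧ jay ρ f ≤ Γ := by
  let S : Set (Submodule A Γ) := {N | ∃ (j : ι) (g : c i ⟶ c j) (h : c j ⟶ X), f = g ≫ h ∧
    N.map Γ.subtype = LinearMap.range (pre ρ g)}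
  have hS : ∀ (j : ι) (g : c i ⟶ c j) (h : c j ⟶ X), f = g ≫ h → LinearMap.range (pre ρ g) ≤ Γ →
      (LinearMap.range (pre ρ g)).comap Γ.subtype ∈ S := by
    intro j g h hw hle
    refine ⟨j, g, h, hw, ?_⟩
    rw [Submodule.map_comap_subtype, inf_eq_right.mpr hle]
  have hne : S.Nonempty := by
    obtain ⟨j, g, h, hw, hle⟩ := hf
    exact ⟨_, hS j g h hw hle⟩
  obtain ⟨N, ⟨j, g, h, hw, hN⟩, hmin⟩ := (inferInstance : WellFoundedLT (Submodule A Γ)).wf.has_min S hne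
  have hgΓ : LinearMap.range (pre ρ g) ≤ Γ := by
    rw [← hN]
    exact Submodule.map_subtype_le _ _
  have hle : LinearMap.range (pre ρ g) ≤ jay ρ f := by
    refine le_iInf ?_
    rintro ⟨⟨j', g'⟩, h', hw'⟩
    change LinearMap.range (pre ρ g) ≤ LinearMap.range (pre ρ g')
    obtain ⟨l, m, u, u', hu, hu', huu⟩ := exists_span hc g h g' h' (hw.symm.trans hw')
    have h1 : LinearMap.range (pre ρ (g ≫ u)) ≤ Γ := (range_pre_le ρ g u).trans hgΓ
    have h2 := hS l (g ≫ u) m (by rw [Category.assoc, hu, hw]) h1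
    have h3 : (LinearMap.range (pre ρ (g ≫ u))).comap Γ.subtype ≤ N := by
      rw [← Submodule.comap_map_eq_of_injective Γ.injective_subtype N, hN]
      exact Submodule.comap_mono (range_pre_le ρ g u)
    have h4 : N ≤ (LinearMap.range (pre ρ (g ≫ u))).comap Γ.subtype := by
      by_contra hcon
      exact hmin _ h2 (lt_of_le_not_ge h3 hcon)
    rw [← hN]
    calc N.map Γ.subtype ≤ ((LinearMap.range (pre ρ (g ≫ u))).comap Γ.subtype).map Γ.subtype := Submodule.map_mono h4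
      _ ≤ LinearMap.range (pre ρ (g ≫ u)) := Submodule.map_comap_le _ _
      _ = LinearMap.range (pre ρ (g' ≫ u')) := by rw [huu]
      _ ≤ LinearMap.range (pre ρ g') := range_pre_le ρ g' u'
  have heq : LinearMap.range (pre ρ g) = jay ρ f := le_antisymm hle (jay_le ρ f g h hw)
  exact ⟨j, g, h, hw, heq, heq ▸ hgΓ⟩

lemma map_jay (hc : IsCountableGen.{v} c) {X : T}
    (hmin : ∀ (i : ι) (f : c i ⟶ X), ∃ (j : ι) (g : c i ⟶ c j) (h : c j ⟶ X), f = g ≫ h ∧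
      LinearMap.range (pre ρ g) = jay ρ f) {i' i : ι} (k : c i' ⟶ c i) (f : c i ⟶ X) :
    (jay ρ f).map (pre ρ k) = jay ρ (k ≫ f) := by
  obtain ⟨j, g, h, hw, hg⟩ := hmin i f
  obtain ⟨j', g', h', hw', hg'⟩ := hmin i' (k ≫ f)
  obtain ⟨l, m, u, u', hu, hu', huu⟩ := exists_span hc (k ≫ g) h g' h' (by rw [Category.assoc, ← hw, hw'])
  have h1 : LinearMap.range (pre ρ (g ≫ u)) = jay ρ f := by
    apply le_antisymm
    · rw [← hg]
      exact range_pre_le ρ g u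
    · exact jay_le ρ f (g ≫ u) m (by rw [Category.assoc, hu, hw])
  have h2 : (jay ρ f).map (pre ρ k) = LinearMap.range (pre ρ (g' ≫ u')) := by
    rw [← h1, map_range_pre, ← Category.assoc, huu]
  rw [h2]
  apply le_antisymm
  · rw [← hg']
    exact range_pre_le ρ g' u'
  · exact jay_le ρ _ (g' ≫ u') m (by rw [Category.assoc, hu', ← hw'])

/-- If every morphism from a generator factors such that the first factor has its image in an artinian module, then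
an object without morphisms to `E` is pro-zero. -/
theorem proZero_of_artinian (hc : IsCountableGen.{v} c) {X : T} (Γ : ∀ i, Submodule A (HomMod ρ (c i)))
    (hΓ : ∀ i, IsArtinian A (Γ i))
    (hfac : ∀ (i : ι) (f : c i ⟶ X), ∃ (j : ι) (g : c i ⟶ c j) (h : c j ⟶ X), f = g ≫ h ∧
      LinearMap.range (pre ρ g) ≤ Γ i) (h0 : ∀ y : X ⟶ E, y = 0) : ProZero c E X := by
  have hJ : ∀ (i : ι) (f : c i ⟶ X), ∃ (j : ι) (g : c i ⟶ c j) (h : c j ⟶ X), f = g ≫ h ∧
      LinearMap.range (pre ρ g) = jay ρ f ∧ jay ρ f ≤ Γ i := fun i f => by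
    haveI := hΓ i
    exact exists_jay ρ hc f (Γ i) (hfac i f)
  have hmin : ∀ (i : ι) (f : c i ⟶ X), ∃ (j : ι) (g : c i ⟶ c j) (h : c j ⟶ X), f = g ≫ h ∧
      LinearMap.range (pre ρ g) = jay ρ f := fun i f => by
    obtain ⟨j, g, h, h1, h2, -⟩ := hJ i f
    exact ⟨j, g, h, h1, h2⟩
  -- all elements vanish
  have key : ∀ (i : ι) (f : c i ⟶ X) (a : HomMod ρ (c i)), a ∈ jay ρ f → a = 0 := by
    intro i f a ha
    let Λ : Type v := Σ j : ι, (c j ⟶ X)
    let Mor : Λ → Λ → Type v := fun σ τ => {k : c σ.1 ⟶ c τ.1 // k ≫ τ.2 = σ.2}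
    obtain ⟨w, hw, hwk, hwa⟩ := Pool.Agent.Helper24.LC.linear_compactness (R := A) (Λ := Λ) Mor (M := fun σ => HomMod ρ (c σ.1))
      (fun {σ τ} k => pre ρ k.1) (fun σ => ⟨⟨𝟙 _, Category.id_comp _⟩, pre_id ρ _⟩)
      (fun {σ τ υ} k l => ⟨⟨k.1 ≫ l.1, by rw [Category.assoc, l.2, k.2]⟩, pre_comp ρ _ _⟩)
      (fun σ τ => by
        obtain ⟨l, m, u, u', hu, hu'⟩ := exists_dir hc σ.2 τ.2
        exact ⟨⟨l, m⟩, ⟨⟨u, hu⟩⟩, ⟨⟨u', hu'⟩⟩⟩)
      (fun {σ τ} k k' => by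
        obtain ⟨l, m, u, hu, huu⟩ := exists_coeq hc τ.2 k.1 k'.1 (by rw [k.2, k'.2])
        refine ⟨⟨l, m⟩, ⟨u, hu⟩, ?_⟩
        rw [← pre_comp, ← pre_comp, huu])
      (fun σ => jay ρ σ.2)
      (fun σ => by
        obtain ⟨j, g, h, h1, h2, h3⟩ := hJ σ.1 σ.2
        haveI := hΓ σ.1
        exact isArtinian_of_le h3)
      (fun {σ τ} k => by
        rw [map_jay ρ hc hmin k.1 τ.2]
        exact congrArg (jay ρ) k.2)
      ⟨i, f⟩ a ha
    let α : NatHom c X E :=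
      { app := fun j g => w ⟨j, g⟩
        add := by
          intro j g g'
          obtain ⟨l, m, u, u', hu, hu'⟩ := exists_dir hc g g'
          have h1 : pre ρ u (w ⟨l, m⟩) = w ⟨j, g⟩ := hwk (σ := ⟨j, g⟩) (τ := ⟨l, m⟩) ⟨u, hu⟩
          have h2 : pre ρ u' (w ⟨l, m⟩) = w ⟨j, g'⟩ := hwk (σ := ⟨j, g'⟩) (τ := ⟨l, m⟩) ⟨u', hu'⟩
          have h3 : pre ρ (u + u') (w ⟨l, m⟩) = w ⟨j, g + g'⟩ :=
            hwk (σ := ⟨j, g + g'⟩) (τ := ⟨l, m⟩) ⟨u + u', by rw [Preadditive.add_comp, hu, hu']⟩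
          rw [← h1, ← h2, ← h3]
          exact Preadditive.add_comp _ _ _ _ _ _
        nat := by
          intro j l k g
          exact (hwk (σ := ⟨j, k ≫ g⟩) (τ := ⟨l, g⟩) ⟨k, rfl⟩).symm }
    obtain ⟨y, hy⟩ := exists_lift hc α
    have h1 : w ⟨i, f⟩ = f ≫ y := hy i f
    rw [h0 y, comp_zero] at h1
    rw [← hwa]
    exact h1
  intro i f
  obtain ⟨j, g, h, h1, h2⟩ := hmin i f
  refine ⟨j, g, h, h1, fun e => ?_⟩
  exact key i f _ (h2 ▸ ⟨e, rfl⟩)

/-- factorisations with images in the modules `Γ i` -/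
theorem exists_fac [HasProductsOfShape ℕ T] (hc : IsCountableGen.{v} c) {X : T}
    (Γ : ∀ i, Submodule A (HomMod ρ (c i)))
    (hsl : ∀ (i : ι) (φ : (ℕ → A) →ₗ[A] HomMod ρ (c i)), ∃ N : ℕ, ∀ n, N ≤ n → φ (Pi.single n 1) ∈ Γ i)
    (h0 : ∀ y : X ⟶ E, y = 0) (h1 : ∀ y : X ⟶ E⟦(1 : ℤ)⟧, y = 0) (i : ι) (f : c i ⟶ X) :
    ∃ (j : ι) (g : c i ⟶ c j) (h : c j ⟶ X), f = g ≫ h ∧ LinearMap.range (pre ρ g) ≤ Γ i := by
  by_contra hcon
  push Not at hcon
  obtain ⟨R⟩ := exists_redPower.{v} E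
  obtain ⟨x, y, hx, hxy⟩ := exists_detect R hc f (fun x => (x : HomMod ρ (c i)) ∉ Γ i) (by
    intro j g h hw
    obtain ⟨_, ⟨e, rfl⟩, he⟩ := SetLike.not_le_iff_exists.mp (hcon j g h hw)
    exact ⟨e, he⟩)
  obtain ⟨φ, hadd, hsmul, N, hN⟩ := exists_linear ρ R hc h0 h1 f x y hxy
  let φ' : (ℕ → A) →ₗ[A] HomMod ρ (c i) := { toFun := φ, map_add' := hadd, map_smul' := hsmul }
  obtain ⟨N', hN'⟩ := hsl i φ'
  have h2 : φ (Pi.single (max N N') 1) = x (max N N') := hN _ (le_max_left _ _)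
  have h3 := hN' (max N N') (le_max_right _ _)
  apply hx (max N N')
  rw [← h2]
  exact h3

end Pool.Agent.Helper62.Hovey
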