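import Pool.Agent.Helper62.Hovey.Basic

/-!
# The functor `h_Q` on the compact objects is injective
-/

open CategoryTheory CategoryTheory.Limits CategoryTheory.Pretriangulated

universe w v u

namespace Pool.Agent.Helper62.Hovey

variable {T : Type u} [Category.{v} T] [HasZeroObject T] [HasShift T ℤ] [Preadditive T]
  [∀ n : ℤ, (shiftFunctor T n).Additive] [Pretriangulated T] [HasCoproducts.{w} T]

variable {ι : Type} {c : ι → T}

/-- A partially defined additive natural transformation `h_X → h_Q`, given by its graph. -/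
structure PGraph (c : ι → T) (X Q : T) where
  G : ∀ i, AddSubgroup ((c i ⟶ X) × (c i ⟶ Q))
  pre : ∀ (i j : ι) (k : c i ⟶ c j) (x : c j ⟶ X) (y : c j ⟶ Q), (x, y) ∈ G j → (k ≫ x, k ≫ y) ∈ G i
  fn : ∀ (i : ι) (y : c i ⟶ Q), ((0 : c i ⟶ X), y) ∈ G i → y = 0

omit [HasZeroObject T] [HasShift T ℤ] [∀ n : ℤ, (shiftFunctor T n).Additive] [Pretriangulated T]
  [HasCoproducts.{w} T] in
lemma PGraph.unique {X Q : T} (G : PGraph c X Q) {i : ι} {x : c i ⟶ X} {y y' : c i ⟶ Q}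
    (h : (x, y) ∈ G.G i) (h' : (x, y') ∈ G.G i) : y = y' := by
  have := (G.G i).sub_mem h h'
  simp only [Prod.mk_sub_mk, sub_self] at this
  exact sub_eq_zero.mp (G.fn i _ this)

section

variable [HasProductsOfShape ℕ T] {E : T} (R : RedPower.{w} E)

/-- a finite stage of the solution of the system -/
structure Stage {i : ι} (G : PGraph c (c i) R.Q) where
  d : ι
  g : c i ⟶ c d
  y : c i ⟶ R.Q
  prop : ∀ (j : ι) (x : c j ⟶ c i), x ≫ g = 0 → (x, x ≫ y) ∈ G.G j

variable {R}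

/-- one more equation -/
lemma Stage.next (hc : IsCountableGen.{w} c) {i : ι} {G : PGraph c (c i) R.Q} (s : Stage R G)
    {j : ι} (k : c j ⟶ c i) (hk : ∃ v, (k, v) ∈ G.G j) :
    ∃ s' : Stage R G, k ≫ s'.g = 0 ∧ ∀ (l : ι) (x : c l ⟶ c i), x ≫ s.g = 0 → x ≫ s'.g = 0 := by
  obtain ⟨v, hv⟩ := hk
  obtain ⟨d', g', hg', -, hcok⟩ := hc.exists_cokernel j s.d (k ≫ s.g)
  obtain ⟨l, a, ha, hker, -⟩ := hc.exists_kernel j s.d (k ≫ s.g)
  have hu : a ≫ (v - k ≫ s.y) = 0 := by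
    have h1 : (a ≫ k, (a ≫ k) ≫ s.y) ∈ G.G l := s.prop l (a ≫ k) (by rw [Category.assoc]; exact ha)
    have h2 : (a ≫ k, a ≫ v) ∈ G.G l := G.pre l j a k v hv
    have h3 := G.unique h1 h2
    rw [Preadditive.comp_sub, ← h3, Category.assoc, sub_self]
  obtain ⟨z, hz⟩ := hker _ _ hu
  refine ⟨⟨d', s.g ≫ g', s.y + s.g ≫ z, ?_⟩, ?_, ?_⟩
  · intro m x hx
    obtain ⟨b, hb⟩ := hcok _ (x ≫ s.g) (by rw [Category.assoc]; exact hx)
    have h1 : (x - b ≫ k, (x - b ≫ k) ≫ s.y) ∈ G.G m := s.prop m _ (by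
      rw [Preadditive.sub_comp, hb, Category.assoc, sub_self])
    have h2 : (b ≫ k, b ≫ v) ∈ G.G m := G.pre m j b k v hv
    have h3 := (G.G m).add_mem h1 h2
    simp only [Prod.mk_add_mk, sub_add_cancel] at h3
    convert h3 using 2
    rw [Preadditive.comp_add, ← Category.assoc x, hb, Category.assoc b, ← hz, Preadditive.comp_sub,
      Preadditive.sub_comp, Category.assoc]
    abel
  · change k ≫ s.g ≫ g' = 0
    rw [← Category.assoc]; exact hg'
  · intro m x hx
    change x ≫ s.g ≫ g' = 0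
    rw [← Category.assoc, hx, zero_comp]

/-- Baer property of the reduced power: every partially defined natural transformation on a compact object is
given by an element. -/
theorem baer (hc : IsCountableGen.{w} c) {i : ι} (G : PGraph c (c i) R.Q) :
    ∃ y : c i ⟶ R.Q, ∀ (j : ι) (k : c j ⟶ c i) (v : c j ⟶ R.Q), (k, v) ∈ G.G j → v = k ≫ y := by
  classical
  haveI := hc.countable
  haveI : ∀ j : ι, Countable (c j ⟶ c i) := fun j => hc.countable_hom j i
  let Dom : Type _ := {p : Σ j : ι, (c j ⟶ c i) // ∃ v, (p.2, v) ∈ G.G p.1}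
  haveI : Nonempty Dom := ⟨⟨⟨i, 0⟩, 0, (G.G i).zero_mem⟩⟩
  obtain ⟨e, he⟩ := exists_surjective_nat Dom
  -- the stages
  have hstep : ∀ (s : Stage R G) (n : ℕ), ∃ s' : Stage R G, (e n).1.2 ≫ s'.g = 0 ∧
      ∀ (l : ι) (x : c l ⟶ c i), x ≫ s.g = 0 → x ≫ s'.g = 0 := fun s n => s.next hc (e n).1.2 (e n).2
  choose nxt hn1 hn2 using hstep
  let s0 : Stage R G := ⟨i, 𝟙 _, 0, fun j x hx => by
    rw [Category.comp_id] at hx
    subst hx
    rw [comp_zero]
    exact (G.G j).zero_mem⟩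
  let seq : ℕ → Stage R G := fun n => Nat.rec s0 (fun n s => nxt s n) n
  have hseq : ∀ n, seq (n + 1) = nxt (seq n) n := fun n => rfl
  have hkill : ∀ n j, j < n → (e j).1.2 ≫ (seq n).g = 0 := by
    intro n
    induction n with
    | zero => intro j hj; omega
    | succ n ih =>
      intro j hj
      rw [hseq]
      rcases Nat.lt_succ_iff_lt_or_eq.mp hj with h | h
      · exact hn2 _ _ _ _ (ih j h)
      · subst h; exact hn1 _ _
  -- lifts
  choose yl hyl using fun n => R.lift hc i (seq n).y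
  choose vv hvv using fun n => (e n).2
  choose vl hvl using fun n => R.lift hc (e n).1.1 (vv n)
  have hN : ∀ j n, ∃ N : ℕ, j < n → ∀ t ≥ N, ((e j).1.2 ≫ yl n - vl j) ≫ Pi.π (fun _ : ℕ => E) t = 0 := by
    intro j n
    by_cases hjn : j < n
    · obtain ⟨N, hN⟩ := R.eventually_zero (hc.compact _) ((e j).1.2 ≫ yl n - vl j) (by
        rw [Preadditive.sub_comp, Category.assoc, ← hyl, ← hvl, sub_eq_zero]
        exact G.unique ((seq n).prop _ _ (hkill n j hjn)) (hvv j))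
      exact ⟨N, fun _ => hN⟩
    · exact ⟨0, fun h => absurd h hjn⟩
  choose N hN using hN
  let B : ℕ → ℕ := fun n => ∑ m ∈ Finset.range (n + 1), ∑ j ∈ Finset.range m, N j m
  have hB : ∀ j n, j < n → N j n ≤ B n := by
    intro j n hjn
    calc N j n ≤ ∑ j ∈ Finset.range n, N j n :=
          Finset.single_le_sum (f := fun j => N j n) (fun _ _ => Nat.zero_le _) (Finset.mem_range.mpr hjn)
      _ ≤ B n := Finset.single_le_sum (f := fun m => ∑ j ∈ Finset.range m, N j m) (fun _ _ => Nat.zero_le _)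
          (Finset.mem_range.mpr (Nat.lt_succ_self n))
  let ν : ℕ → ℕ := fun t => Nat.findGreatest (fun n => B n ≤ t) t
  have hν1 : ∀ t, B (ν t) ≤ t := fun t =>
    Nat.findGreatest_spec (P := fun n => B n ≤ t) (Nat.zero_le t) (by simp [B])
  have hν2 : ∀ t n, n ≤ t → B n ≤ t → n ≤ ν t := fun t n h1 h2 =>
    Nat.le_findGreatest h1 h2
  let yh : c i ⟶ Power E := Pi.lift fun t => yl (ν t) ≫ Pi.π (fun _ : ℕ => E) t
  refine ⟨yh ≫ R.q, fun j k v hv => ?_⟩
  obtain ⟨n, hn⟩ := he ⟨⟨j, k⟩, v, hv⟩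
  have hkn : (e n).1 = ⟨j, k⟩ := by rw [hn]
  have main : (e n).1.2 ≫ yh ≫ R.q = vv n := by
    rw [hvl, ← sub_eq_zero, ← Category.assoc, ← Preadditive.sub_comp]
    apply R.zero_of_eventually _ (max (n + 1) (B (n + 1)))
    intro t ht
    have h1 : n + 1 ≤ ν t := hν2 t (n + 1) (le_trans (le_max_left _ _) ht) (le_trans (le_max_right _ _) ht)
    have h2 := hN n (ν t) (by omega) t (le_trans (hB n (ν t) (by omega)) (hν1 t))
    rw [Preadditive.sub_comp, Category.assoc] at h2 ⊢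
    simp only [yh, limit.lift_π, Fan.mk_π_app]
    exact h2
  have hv' : ∀ (p : Σ j : ι, (c j ⟶ c i)) (v₁ : c p.1 ⟶ R.Q) (hp : p = ⟨j, k⟩), (p.2, v₁) ∈ G.G p.1 →
      p.2 ≫ yh ≫ R.q = v₁ → v = k ≫ yh ≫ R.q := by
    intro p v₁ hp h1 h2
    subst hp
    rw [h2]
    exact G.unique hv h1
  exact hv' _ _ hkn (hvv n) main

end

end Pool.Agent.Helper62.Hovey
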