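import Mathlib

/-!
# Compactly generated triangulated categories with countably many compact objects

Basic definitions and the reduced power `Q = E^ℕ / E^(ℕ)`.
-/

open CategoryTheory CategoryTheory.Limits CategoryTheory.Pretriangulated

universe w v u

namespace Pool.Agent.Helper62.Hovey

variable {T : Type u} [Category.{v} T] [HasZeroObject T] [HasShift T ℤ] [Preadditive T]
  [∀ n : ℤ, (shiftFunctor T n).Additive] [Pretriangulated T] [HasCoproducts.{w} T]

/-- `C` is compact: every morphism from `C` to a coproduct is a finite sum of morphisms to the summands. -/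
def IsCompactObj (C : T) : Prop :=
  ∀ ⦃J : Type w⦄ (X : J → T) (f : C ⟶ ∐ X),
    ∃ (s : Finset J) (g : ∀ j, C ⟶ X j), f = ∑ j ∈ s, g j ≫ Sigma.ι X j

/-- The localizing subcategory generated by a family of objects: the smallest class of objects which contains
the family and is closed under isomorphisms, shifts, cones and coproducts. -/
inductive InLoc {ι : Type} (c : ι → T) : T → Prop
  | base (i : ι) : InLoc c (c i)
  | iso {X Y : T} (e : X ≅ Y) (hX : InLoc c X) : InLoc c Y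
  | shift {X : T} (n : ℤ) (hX : InLoc c X) : InLoc c (X⟦n⟧)
  | cone (Δ : Triangle T) (hΔ : Δ ∈ distTriang T) (h₁ : InLoc c Δ.obj₁) (h₂ : InLoc c Δ.obj₂) : InLoc c Δ.obj₃
  | coprod {J : Type w} (X : J → T) (hX : ∀ j, InLoc c (X j)) : InLoc c (∐ X)

/-- A countable family `c` of compact objects, with countable sets of morphisms, closed under shifts and cones
up to isomorphism, which generates `T`.  For the stable homotopy category: the finite spectra. -/
structure IsCountableGen {ι : Type} (c : ι → T) : Prop where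
  nonempty : Nonempty ι
  countable : Countable ι
  countable_hom : ∀ i j, Countable (c i ⟶ c j)
  compact : ∀ i, IsCompactObj.{w} (c i)
  shift : ∀ (i : ι) (n : ℤ), ∃ j, Nonempty ((c i)⟦n⟧ ≅ c j)
  cone : ∀ (i j : ι) (f : c i ⟶ c j), ∃ (k : ι) (g : c j ⟶ c k) (h : c k ⟶ (c i)⟦(1 : ℤ)⟧),
    Triangle.mk f g h ∈ distTriang T
  generate : ∀ X : T, InLoc.{w} c X

variable {ι : Type} {c : ι → T}

/-- replacing the third object of a distinguished triangle, rotated backwards -/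
lemma exists_fib {X Y Z K : T} (f : X ⟶ Y) (g : Y ⟶ Z) (h : Z ⟶ X⟦(1 : ℤ)⟧)
    (hT : Triangle.mk f g h ∈ distTriang T) (e : Z⟦(-1 : ℤ)⟧ ≅ K) :
    ∃ (a : K ⟶ X) (b : Y ⟶ K⟦(1 : ℤ)⟧), Triangle.mk a f b ∈ distTriang T := by
  have hT' := inv_rot_of_distTriang _ hT
  generalize hD : (Triangle.mk f g h).invRotate = D at hT'
  have key : ∀ (A : T) (u : A ⟶ X) (r : Y ⟶ A⟦(1 : ℤ)⟧), Triangle.mk u f r ∈ distTriang T →
      ∀ e : A ≅ K, ∃ (a : K ⟶ X) (b : Y ⟶ K⟦(1 : ℤ)⟧), Triangle.mk a f b ∈ distTriang T := by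
    intro A u r hA e
    refine ⟨e.inv ≫ u, r ≫ e.hom⟦(1 : ℤ)⟧', ?_⟩
    refine isomorphic_distinguished _ hA _ ?_
    refine Triangle.isoMk _ _ e.symm (Iso.refl _) (Iso.refl _) ?_ ?_ ?_
    · simp only [Triangle.mk_mor₁, Iso.refl_hom, Iso.symm_hom]
      exact Category.comp_id _
    · simp only [Triangle.mk_mor₂, Iso.refl_hom]
      exact (Category.comp_id _).trans (Category.id_comp _).symm
    · simp only [Triangle.mk_mor₃, Iso.refl_hom, Iso.symm_hom]
      refine Eq.trans ?_ (Category.id_comp _).symm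
      change (r ≫ e.hom⟦(1 : ℤ)⟧') ≫ e.inv⟦(1 : ℤ)⟧' = r
      rw [Category.assoc, ← Functor.map_comp, e.hom_inv_id, CategoryTheory.Functor.map_id, Category.comp_id]
  subst hD
  exact key (Z⟦(-1 : ℤ)⟧) _ _ hT' e

/-- fibres -/
lemma IsCountableGen.fib (hc : IsCountableGen.{w} c) (i j : ι) (f : c i ⟶ c j) :
    ∃ (k : ι) (g : c k ⟶ c i) (h : c j ⟶ (c k)⟦(1 : ℤ)⟧), Triangle.mk g f h ∈ distTriang T := by
  obtain ⟨k, g, h, hT⟩ := hc.cone i j f
  obtain ⟨l, ⟨e⟩⟩ := hc.shift k (-1)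
  obtain ⟨a, b, hab⟩ := exists_fib f g h hT e
  exact ⟨l, a, b, hab⟩

/-- weak cokernels: a morphism killed by `f` factors through the cone -/
lemma IsCountableGen.exists_cokernel (hc : IsCountableGen.{w} c) (i j : ι) (f : c i ⟶ c j) :
    ∃ (k : ι) (g : c j ⟶ c k), f ≫ g = 0 ∧
      (∀ (Z : T) (y : c j ⟶ Z), f ≫ y = 0 → ∃ z : c k ⟶ Z, y = g ≫ z) ∧
      (∀ (Z : T) (x : Z ⟶ c j), x ≫ g = 0 → ∃ z : Z ⟶ c i, x = z ≫ f) := by
  obtain ⟨k, g, h, hT⟩ := hc.cone i j f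
  refine ⟨k, g, comp_distTriang_mor_zero₁₂ _ hT, ?_, ?_⟩
  · intro Z y hy
    exact Triangle.yoneda_exact₂ _ hT y hy
  · intro Z x hx
    exact Triangle.coyoneda_exact₂ _ hT x hx

lemma IsCountableGen.exists_kernel (hc : IsCountableGen.{w} c) (i j : ι) (f : c i ⟶ c j) :
    ∃ (k : ι) (g : c k ⟶ c i), g ≫ f = 0 ∧
      (∀ (Z : T) (y : c i ⟶ Z), g ≫ y = 0 → ∃ z : c j ⟶ Z, y = f ≫ z) ∧
      (∀ (Z : T) (x : Z ⟶ c i), x ≫ f = 0 → ∃ z : Z ⟶ c k, x = z ≫ g) := by
  obtain ⟨k, g, h, hT⟩ := hc.fib i j f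
  refine ⟨k, g, comp_distTriang_mor_zero₁₂ _ hT, ?_, ?_⟩
  · intro Z y hy
    exact Triangle.yoneda_exact₂ _ hT y hy
  · intro Z x hx
    exact Triangle.coyoneda_exact₂ _ hT x hx

section Power

variable [HasProductsOfShape ℕ T] (E : T)

/-- the countable wedge -/
noncomputable abbrev Wedge : T := ∐ (fun _ : ULift.{w} ℕ => E)

/-- the countable power -/
noncomputable abbrev Power : T := ∏ᶜ (fun _ : ℕ => E)

/-- the canonical map from the wedge to the power -/
noncomputable def wedgeToPower : Wedge.{w} E ⟶ Power E :=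
  Sigma.desc fun j => Pi.lift fun t => if t = j.down then 𝟙 E else 0

@[reassoc]
lemma ι_wedgeToPower_π (j : ULift.{w} ℕ) (t : ℕ) :
    Sigma.ι (fun _ : ULift.{w} ℕ => E) j ≫ wedgeToPower.{w} E ≫ Pi.π (fun _ : ℕ => E) t = if t = j.down then 𝟙 E else 0 := by
  simp [wedgeToPower]

variable {E}

lemma wedge_coord {C : T} (s : Finset (ULift.{w} ℕ)) (g : ULift.{w} ℕ → (C ⟶ E)) (t : ℕ) :
    (∑ j ∈ s, g j ≫ Sigma.ι (fun _ : ULift.{w} ℕ => E) j) ≫ wedgeToPower.{w} E ≫ Pi.π (fun _ : ℕ => E) t =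
      if ULift.up t ∈ s then g ⟨t⟩ else 0 := by
  rw [Preadditive.sum_comp]
  simp only [Category.assoc, ι_wedgeToPower_π]
  rw [Finset.sum_congr rfl (g := fun j => if ULift.up t = j then g j else 0)]
  · rw [Finset.sum_ite_eq]
  · intro j _
    rcases j with ⟨j⟩
    by_cases h : t = j
    · subst h; simp
    · simp [h]

lemma wedge_inj {C : T} (hC : IsCompactObj.{w} C) (z : C ⟶ Wedge.{w} E) (hz : z ≫ wedgeToPower.{w} E = 0) : z = 0 := by
  obtain ⟨s, g, rfl⟩ := hC _ z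
  refine Finset.sum_eq_zero fun j hj => ?_
  have := congrArg (fun x => x ≫ Pi.π (fun _ : ℕ => E) j.down) hz
  simp only [Category.assoc, wedge_coord, zero_comp] at this
  rcases j with ⟨j⟩
  simp only [hj, if_true] at this
  simp [this]

lemma wedge_fin {C : T} (hC : IsCompactObj.{w} C) (z : C ⟶ Wedge.{w} E) :
    ∃ N : ℕ, ∀ t ≥ N, z ≫ wedgeToPower.{w} E ≫ Pi.π (fun _ : ℕ => E) t = 0 := by
  obtain ⟨s, g, rfl⟩ := hC _ z
  refine ⟨(s.image ULift.down).sup id + 1, fun t ht => ?_⟩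
  rw [wedge_coord, if_neg]
  intro hmem
  have : t ≤ (s.image ULift.down).sup id := by
    have := Finset.le_sup (f := id) (Finset.mem_image_of_mem ULift.down hmem)
    simpa using this
  omega

/-- a reduced power of `E`: the cone of the map from the wedge to the power -/
structure RedPower (E : T) where
  Q : T
  q : Power E ⟶ Q
  δ : Q ⟶ (Wedge.{w} E)⟦(1 : ℤ)⟧
  dist : Triangle.mk (wedgeToPower.{w} E) q δ ∈ distTriang T

lemma exists_redPower (E : T) : Nonempty (RedPower.{w} E) := by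
  obtain ⟨Q, q, δ, h⟩ := distinguished_cocone_triangle (wedgeToPower.{w} E)
  exact ⟨⟨Q, q, δ, h⟩⟩

variable (R : RedPower.{w} E)

lemma RedPower.lift (hc : IsCountableGen.{w} c) (i : ι) (x : c i ⟶ R.Q) : ∃ y : c i ⟶ Power E, x = y ≫ R.q := by
  apply Triangle.coyoneda_exact₃ _ R.dist x
  change x ≫ R.δ = 0
  have h1 : (x ≫ R.δ) ≫ (wedgeToPower.{w} E)⟦(1 : ℤ)⟧' = 0 := by
    rw [Category.assoc]
    exact (congrArg (fun y => x ≫ y) (comp_distTriang_mor_zero₃₁ _ R.dist)).trans comp_zero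
  obtain ⟨k, ⟨e⟩⟩ := hc.shift i (-1)
  -- `c i ≅ (c k)⟦1⟧`
  let e' : (c k)⟦(1 : ℤ)⟧ ≅ c i := (shiftFunctor T (1 : ℤ)).mapIso e.symm ≪≫ (shiftFunctorCompIsoId T (-1 : ℤ) 1 (by norm_num)).app (c i)
  obtain ⟨z, hz⟩ := (shiftFunctor T (1 : ℤ)).map_surjective (e'.hom ≫ x ≫ R.δ)
  have h2 : z ≫ wedgeToPower.{w} E = 0 := by
    apply (shiftFunctor T (1 : ℤ)).map_injective
    rw [Functor.map_comp, hz, Functor.map_zero, Category.assoc, h1, comp_zero]
  have h3 := wedge_inj (hc.compact k) z h2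
  rw [h3, Functor.map_zero] at hz
  have : e'.inv ≫ e'.hom ≫ x ≫ R.δ = 0 := by rw [← hz, comp_zero]
  simpa using this

lemma RedPower.eventually_zero {C : T} (hC : IsCompactObj.{w} C) (z : C ⟶ Power E) (hz : z ≫ R.q = 0) :
    ∃ N : ℕ, ∀ t ≥ N, z ≫ Pi.π (fun _ : ℕ => E) t = 0 := by
  obtain ⟨s, hs⟩ := Triangle.coyoneda_exact₂ _ R.dist z hz
  obtain ⟨N, hN⟩ := wedge_fin hC s
  refine ⟨N, fun t ht => ?_⟩
  have := hN t ht
  rw [hs]
  exact (Category.assoc _ _ _).trans this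

lemma RedPower.zero_of_eventually {C : T} (z : C ⟶ Power E) (N : ℕ)
    (hN : ∀ t ≥ N, z ≫ Pi.π (fun _ : ℕ => E) t = 0) : z ≫ R.q = 0 := by
  have h : z = (∑ t ∈ Finset.range N, (z ≫ Pi.π (fun _ : ℕ => E) t) ≫ Sigma.ι (fun _ : ULift.{w} ℕ => E) ⟨t⟩) ≫ wedgeToPower.{w} E := by
    apply Pi.hom_ext
    intro t
    rw [Category.assoc, Preadditive.sum_comp]
    simp only [Category.assoc, ι_wedgeToPower_π]
    rw [Finset.sum_congr rfl (g := fun t' => if t = t' then z ≫ Pi.π (fun _ : ℕ => E) t' else 0)]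
    · rw [Finset.sum_ite_eq]
      split_ifs with h
      · rfl
      · exact hN t (by simpa using h)
    · intro t' _
      by_cases h : t = t'
      · subst h; simp
      · simp [h]
  rw [h, Category.assoc]
  exact (congrArg (fun y => (∑ t ∈ Finset.range N, (z ≫ Pi.π (fun _ : ℕ => E) t) ≫
    Sigma.ι (fun _ : ULift.{w} ℕ => E) ⟨t⟩) ≫ y) (comp_distTriang_mor_zero₁₂ _ R.dist)).trans comp_zero

end Power

end Pool.Agent.Helper62.Hovey
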