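import Pool.Agent.Helper62.Hovey.Homology

/-!
# The dual homology theory preserves coproducts
-/

open CategoryTheory CategoryTheory.Limits CategoryTheory.Pretriangulated

universe v u

namespace Pool.Agent.Helper62.Hovey

variable {T : Type u} [Category.{v} T] [HasZeroObject T] [HasShift T ℤ] [Preadditive T]
  [∀ n : ℤ, (shiftFunctor T n).Additive] [Pretriangulated T] [HasCoproducts.{v} T]

variable {ι : Type} {c : ι → T}

/-- an element of a coproduct of abelian groups is a finite sum of elements of the summands -/
lemma exists_sum {J : Type v} (A : J → AddCommGrpCat.{v}) (z : (∐ A : AddCommGrpCat.{v})) :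
    ∃ (s : Finset J) (y : ∀ j, A j), z = ∑ j ∈ s, Sigma.ι A j (y j) := by
  classical
  -- the subgroup generated by the images is everything
  let H : AddSubgroup (∐ A : AddCommGrpCat.{v}) := ⨆ j, (Sigma.ι A j).hom.range
  have hH : H = ⊤ := by
    have h1 : AddCommGrpCat.ofHom (QuotientAddGroup.mk' H) = (0 : (∐ A) ⟶ AddCommGrpCat.of ((∐ A : AddCommGrpCat.{v}) ⧸ H)) := by
      apply Sigma.hom_ext
      intro j
      ext y
      change (QuotientAddGroup.mk' H) ((Sigma.ι A j) y) = 0
      rw [QuotientAddGroup.mk'_apply, QuotientAddGroup.eq_zero_iff]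
      exact AddSubgroup.mem_iSup_of_mem j ⟨y, rfl⟩
    rw [AddSubgroup.eq_top_iff']
    intro x
    have h2 := ConcreteCategory.congr_hom h1 x
    change (QuotientAddGroup.mk' H) x = 0 at h2
    rwa [QuotientAddGroup.mk'_apply, QuotientAddGroup.eq_zero_iff] at h2
  have hz : z ∈ H := by rw [hH]; trivial
  induction hz using AddSubgroup.iSup_induction' with
  | hp j x hx =>
    obtain ⟨y, rfl⟩ := hx
    refine ⟨{j}, fun j' => if h : j' = j then h ▸ y else 0, ?_⟩
    simp
  | h1 => exact ⟨∅, fun _ => 0, by simp⟩
  | hadd x x' _ _ hx hx' =>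
    obtain ⟨s, y, rfl⟩ := hx
    obtain ⟨s', y', rfl⟩ := hx'
    refine ⟨s ∪ s', fun j => (if j ∈ s then y j else 0) + (if j ∈ s' then y' j else 0), ?_⟩
    simp only [map_add, Finset.sum_add_distrib]
    congr 1
    · rw [← Finset.sum_subset Finset.subset_union_left]
      · refine Finset.sum_congr rfl fun j hj => ?_
        rw [if_pos hj]
      · intro j _ hj
        rw [if_neg hj, map_zero]
    · rw [← Finset.sum_subset Finset.subset_union_right]
      · refine Finset.sum_congr rfl fun j hj => ?_
        rw [if_pos hj]
      · intro j _ hj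
        rw [if_neg hj, map_zero]

lemma F_comparison (hc : IsCountableGen.{v} c) (E : T) {J : Type v} (X : J → T) :
    IsIso (sigmaComparison (F c E) X) := by
  classical
  have hhom := F_homological c E hc
  have hadd : (F c E).Additive := inferInstance
  rw [ConcreteCategory.isIso_iff_bijective]
  constructor
  · rw [injective_iff_map_eq_zero]
    intro z hz
    obtain ⟨s, y, rfl⟩ := exists_sum (fun j => (F c E).obj (X j)) z
    refine Finset.sum_eq_zero fun j hj => ?_
    rw [map_sum] at hz
    have h1 : ∀ k, sigmaComparison (F c E) X (Sigma.ι (fun j => (F c E).obj (X j)) k (y k)) =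
        (F c E).map (Sigma.ι X k) (y k) := fun k =>
      ConcreteCategory.congr_hom (ι_comp_sigmaComparison (F c E) X k) (y k)
    simp only [h1] at hz
    -- the projection
    let p : (∐ X) ⟶ X j := Sigma.desc fun k => if h : k = j then eqToHom (by rw [h]) else 0
    have h2 := congrArg ((F c E).map p) hz
    rw [map_sum, map_zero] at h2
    have h3 : ∀ k ∈ s, k ≠ j → (F c E).map p ((F c E).map (Sigma.ι X k) (y k)) = 0 := by
      intro k _ hk
      rw [← ConcreteCategory.comp_apply, ← Functor.map_comp]
      have : Sigma.ι X k ≫ p = 0 := by simp [p, hk]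
      rw [this, Functor.map_zero]
      rfl
    rw [Finset.sum_eq_single j h3 (fun h => absurd hj h)] at h2
    rw [← ConcreteCategory.comp_apply, ← Functor.map_comp] at h2
    have h4 : Sigma.ι X j ≫ p = 𝟙 _ := by simp [p]
    rw [h4, CategoryTheory.Functor.map_id, ConcreteCategory.id_apply] at h2
    rw [h2, map_zero]
  · intro z
    obtain ⟨i, f, φ, rfl⟩ := exists_rep hc z
    obtain ⟨s, g, rfl⟩ := hc.compact i _ f
    refine ⟨∑ j ∈ s, Sigma.ι (fun j => (F c E).obj (X j)) j (cls c i (g j) φ), ?_⟩
    rw [map_sum, cls_sum_left hc]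
    refine Finset.sum_congr rfl fun j _ => ?_
    rw [← map_cls]
    exact ConcreteCategory.congr_hom (ι_comp_sigmaComparison (F c E) X j) _

theorem F_isHomologyTheory (hc : IsCountableGen.{v} c) (E : T) : IsHomologyTheory.{v} (F c E) where
  homological := F_homological c E hc
  coproducts J := by
    have : ∀ X : J → T, PreservesColimit (Discrete.functor X) (F c E) := fun X => by
      have := F_comparison hc E X
      exact PreservesCoproduct.of_iso_comparison (F c E) X
    exact preservesColimitsOfShape_of_discrete _

end Pool.Agent.Helper62.Hovey
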