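import Pool.Agent.Helper62.Hovey.Rep

/-!
# Acyclic objects of an infinite wedge are the pro-zero objects
-/

open CategoryTheory CategoryTheory.Limits CategoryTheory.Pretriangulated

universe w v u

namespace Pool.Agent.Helper62.Hovey

variable {T : Type u} [Category.{v} T] [HasZeroObject T] [HasShift T ℤ] [Preadditive T]
  [∀ n : ℤ, (shiftFunctor T n).Additive] [Pretriangulated T] [HasCoproducts.{w} T]

variable {ι : Type} {c : ι → T}

/-- every morphism from a compact object to `X` factors through a compact object in such a way that the first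
factor is killed by all morphisms to `E` -/
def ProZero (c : ι → T) (E X : T) : Prop :=
  ∀ (i : ι) (f : c i ⟶ X), ∃ (j : ι) (g : c i ⟶ c j) (h : c j ⟶ X), f = g ≫ h ∧ ∀ e : c j ⟶ E, g ≫ e = 0

section

variable [HasProductsOfShape ℕ T] {E : T} {R : RedPower.{w} E}

lemma eq_zero_of_proZero (hc : IsCountableGen.{w} c) {X : T} (hX : ProZero c E X) (y : X ⟶ R.Q) : y = 0 := by
  apply (rep hc X).2
  intro i f
  obtain ⟨j, g, h, rfl, he⟩ := hX i f
  obtain ⟨p, hp⟩ := R.lift hc j (h ≫ y)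
  rw [Category.assoc, hp, ← Category.assoc]
  have : g ≫ p = 0 := by
    apply Pi.hom_ext
    intro t
    rw [Category.assoc, he, zero_comp]
  rw [this, zero_comp]

lemma proZero_of_eq_zero (hc : IsCountableGen.{w} c) {X : T} (hX : ∀ y : X ⟶ R.Q, y = 0) : ProZero c E X := by
  classical
  by_contra hcon
  unfold ProZero at hcon
  push Not at hcon
  obtain ⟨i, f, hf⟩ := hcon
  have := hc.countable
  have : ∀ j : ι, Countable (c j ⟶ c i) := fun j => hc.countable_hom j i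
  -- enumeration of the morphisms killed by `f`
  let Dom : Type _ := {p : Σ j : ι, (c j ⟶ c i) // p.2 ≫ f = 0}
  have : Nonempty Dom := ⟨⟨⟨i, 0⟩, zero_comp⟩⟩
  obtain ⟨e, he⟩ := exists_surjective_nat Dom
  let St : Type _ := {p : Σ j : ι, (c i ⟶ c j) // ∃ h, f = p.2 ≫ h}
  have hstep : ∀ (s : St) (n : ℕ), ∃ s' : St, (e n).1.2 ≫ s'.1.2 = 0 ∧
      ∀ (l : ι) (x : c l ⟶ c i), x ≫ s.1.2 = 0 → x ≫ s'.1.2 = 0 := by
    rintro ⟨⟨d, g⟩, h, hh⟩ n
    obtain ⟨d', g', hg', hcok, -⟩ := hc.exists_cokernel _ _ ((e n).1.2 ≫ g)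
    obtain ⟨h', hh'⟩ := hcok _ h (by rw [Category.assoc]; change (e n).1.2 ≫ g ≫ h = 0; rw [← hh]; exact (e n).2)
    refine ⟨⟨⟨d', g ≫ g'⟩, h', ?_⟩, ?_, ?_⟩
    · change f = (g ≫ g') ≫ h'
      rw [Category.assoc, ← hh']; exact hh
    · change (e n).1.2 ≫ g ≫ g' = 0
      rw [← Category.assoc]; exact hg'
    · intro l x hx
      change x ≫ g ≫ g' = 0
      change x ≫ g = 0 at hx
      rw [← Category.assoc, hx, zero_comp]
  choose nxt hn1 hn2 using hstep
  let s0 : St := ⟨⟨i, 𝟙 _⟩, f, by simp⟩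
  let seq : ℕ → St := fun n => Nat.rec s0 (fun n s => nxt s n) n
  have hseq : ∀ n, seq (n + 1) = nxt (seq n) n := fun n => rfl
  have hkill : ∀ n j, j < n → (e j).1.2 ≫ (seq n).1.2 = 0 := by
    intro n
    induction n with
    | zero => intro j hj; omega
    | succ n ih =>
      intro j hj
      rw [hseq]
      rcases Nat.lt_succ_iff_lt_or_eq.mp hj with h | h
      · exact hn2 _ _ _ _ (ih j h)
      · subst h; exact hn1 _ _
  have hx : ∀ n, ∃ x : c i ⟶ E, x ≠ 0 ∧ ∀ j, j < n → (e j).1.2 ≫ x = 0 := by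
    intro n
    obtain ⟨h, hh⟩ := (seq n).2
    obtain ⟨x, hx⟩ := hf _ (seq n).1.2 h hh
    refine ⟨(seq n).1.2 ≫ x, hx, fun j hj => ?_⟩
    rw [← Category.assoc, hkill n j hj, zero_comp]
  choose x hx0 hxk using hx
  let xh : c i ⟶ Power E := Pi.lift fun t => x t
  have hxh : xh ≫ R.q ≠ 0 := by
    intro h0
    obtain ⟨N, hN⟩ := R.eventually_zero (hc.compact i) xh h0
    have := hN N le_rfl
    simp only [xh, limit.lift_π, Fan.mk_π_app] at this
    exact hx0 N this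
  have hkx : ∀ (j : ι) (k : c j ⟶ c i), k ≫ f = 0 → k ≫ xh ≫ R.q = 0 := by
    intro j k hk
    obtain ⟨n, hn⟩ := he ⟨⟨j, k⟩, hk⟩
    have hkn : (e n).1 = ⟨j, k⟩ := by rw [hn]
    have key : ∀ p : Σ j : ι, (c j ⟶ c i), p = ⟨j, k⟩ → (∀ m, n < m → p.2 ≫ x m = 0) → k ≫ xh ≫ R.q = 0 := by
      rintro p rfl hp
      rw [← Category.assoc]
      apply R.zero_of_eventually _ (n + 1)
      intro t ht
      rw [Category.assoc]
      simp only [xh, limit.lift_π, Fan.mk_π_app]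
      exact hp t ht
    exact key _ hkn (fun m hm => hxk m n hm)
  -- the natural transformation on the image of `f`
  let G : PGraph c X R.Q :=
    { G := fun j =>
        { carrier := {p | ∃ k : c j ⟶ c i, p.1 = k ≫ f ∧ p.2 = k ≫ xh ≫ R.q}
          add_mem' := by
            rintro p q ⟨g, h1, h2⟩ ⟨g', h1', h2'⟩
            refine ⟨g + g', ?_, ?_⟩
            · rw [Prod.fst_add, h1, h1', Preadditive.add_comp]
            · rw [Prod.snd_add, h2, h2', Preadditive.add_comp]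
          zero_mem' := ⟨0, by simp, by simp⟩
          neg_mem' := by
            rintro p ⟨g, h1, h2⟩
            refine ⟨-g, ?_, ?_⟩
            · rw [Prod.fst_neg, h1, Preadditive.neg_comp]
            · rw [Prod.snd_neg, h2, Preadditive.neg_comp] }
      pre := by
        rintro l j k a b ⟨g, h1, h2⟩
        refine ⟨k ≫ g, ?_, ?_⟩
        · change k ≫ a = _
          rw [Category.assoc]; exact congrArg (k ≫ ·) h1
        · change k ≫ b = _
          rw [Category.assoc]; exact congrArg (k ≫ ·) h2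
      fn := by
        rintro j b ⟨g, h1, h2⟩
        change b = _ at h2
        rw [h2]
        exact hkx j g h1.symm }
  obtain ⟨γ, hγ⟩ := extend hc G
  obtain ⟨y, hy⟩ := (rep hc X).1 γ
  have h1 := hγ i f (xh ≫ R.q) ⟨𝟙 _, by simp, by simp⟩
  rw [hy, hX y, comp_zero] at h1
  exact hxh h1.symm

variable (R)

/-- the wedge is detected by the power if there are no morphisms to `Q` -/
lemma wedge_inj' {X : T} (h1 : ∀ y : X⟦(1 : ℤ)⟧ ⟶ R.Q, y = 0) (s : X ⟶ Wedge.{w} E)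
    (hs : s ≫ wedgeToPower.{w} E = 0) : s = 0 := by
  have h2 : s⟦(1 : ℤ)⟧' ≫ (wedgeToPower.{w} E)⟦(1 : ℤ)⟧' = 0 := by
    rw [← Functor.map_comp, hs, Functor.map_zero]
  obtain ⟨g, hg⟩ := Triangle.coyoneda_exact₁ _ R.dist _ h2
  have h3 : g = 0 := h1 g
  rw [h3] at hg
  apply (shiftFunctor T (1 : ℤ)).map_injective
  rw [Functor.map_zero, hg]
  exact zero_comp

/-- the Eilenberg swindle -/
theorem swindle {X : T} (h0 : ∀ y : X ⟶ R.Q, y = 0) (h1 : ∀ y : X⟦(1 : ℤ)⟧ ⟶ R.Q, y = 0) :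
    (∀ x : X ⟶ E, x = 0) ∧ ∀ x : X ⟶ Wedge.{w} E, x = 0 := by
  have hE : ∀ x : X ⟶ E, x = 0 := by
    intro x
    let p : X ⟶ Power E := Pi.lift fun _ => x
    obtain ⟨ξ, hξ⟩ : ∃ ξ : X ⟶ Wedge.{w} E, p = ξ ≫ wedgeToPower.{w} E :=
      Triangle.coyoneda_exact₂ _ R.dist p (h0 _)
    let sh : Wedge.{w} E ⟶ Wedge.{w} E := Sigma.desc fun j => Sigma.ι (fun _ : ULift.{w} ℕ => E) ⟨j.down + 1⟩
    let i0 : E ⟶ Wedge.{w} E := Sigma.ι (fun _ : ULift.{w} ℕ => E) ⟨0⟩
    let nab : Wedge.{w} E ⟶ E := Sigma.desc fun _ => 𝟙 E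
    have hsh0 : sh ≫ wedgeToPower.{w} E ≫ Pi.π (fun _ : ℕ => E) 0 = 0 := by
      apply Sigma.hom_ext
      intro j
      simp only [sh, colimit.ι_desc_assoc, Cofan.mk_ι_app, comp_zero]
      exact (ι_wedgeToPower_π E ⟨j.down + 1⟩ 0).trans (if_neg (Nat.succ_ne_zero _).symm)
    have hsh : ∀ t, sh ≫ wedgeToPower.{w} E ≫ Pi.π (fun _ : ℕ => E) (t + 1) =
        wedgeToPower.{w} E ≫ Pi.π (fun _ : ℕ => E) t := by
      intro t
      apply Sigma.hom_ext
      intro j
      simp only [sh, colimit.ι_desc_assoc, Cofan.mk_ι_app]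
      refine (ι_wedgeToPower_π E ⟨j.down + 1⟩ (t + 1)).trans ?_
      refine Eq.trans ?_ (ι_wedgeToPower_π E j t).symm
      simp
    have hπ : ∀ t, ξ ≫ wedgeToPower.{w} E ≫ Pi.π (fun _ : ℕ => E) t = x := by
      intro t
      rw [← Category.assoc, ← hξ]
      simp [p]
    have key : ξ - (x ≫ i0 + ξ ≫ sh) = 0 := by
      apply wedge_inj' R h1
      apply Pi.hom_ext
      intro t
      rw [zero_comp, Category.assoc, Preadditive.sub_comp, Preadditive.add_comp, hπ, Category.assoc, Category.assoc]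
      cases t with
      | zero =>
        rw [hsh0, comp_zero]
        have : i0 ≫ wedgeToPower.{w} E ≫ Pi.π (fun _ : ℕ => E) 0 = 𝟙 E := by
          rw [ι_wedgeToPower_π]; simp
        rw [this, Category.comp_id, add_zero, sub_self]
      | succ t =>
        rw [hsh, hπ]
        have : i0 ≫ wedgeToPower.{w} E ≫ Pi.π (fun _ : ℕ => E) (t + 1) = 0 := by
          rw [ι_wedgeToPower_π]; simp
        rw [this, comp_zero, zero_add, sub_self]
    have hnab : sh ≫ nab = nab := by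
      apply Sigma.hom_ext
      intro j
      simp [sh, nab]
    have hi0 : i0 ≫ nab = 𝟙 E := by simp [i0, nab]
    have h3 := congrArg (fun y => y ≫ nab) key
    simp only [Preadditive.sub_comp, Preadditive.add_comp, Category.assoc, hnab, hi0, Category.comp_id,
      zero_comp] at h3
    have h4 : -x = 0 := by
      rw [← h3]; abel
    exact neg_eq_zero.mp h4
  refine ⟨hE, fun x => ?_⟩
  apply wedge_inj' R h1
  apply Pi.hom_ext
  intro t
  rw [hE ((x ≫ wedgeToPower.{w} E) ≫ Pi.π (fun _ : ℕ => E) t), hE (0 ≫ _)]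

/-- the cohomological part: no morphisms to the wedge in all degrees iff pro-zero in all degrees -/
theorem wedge_acyclic_iff (hc : IsCountableGen.{w} c) (E X : T) :
    (∀ (n : ℤ) (f : X⟦n⟧ ⟶ Wedge.{w} E), f = 0) ↔ ∀ n : ℤ, ProZero c E (X⟦n⟧) := by
  obtain ⟨R⟩ := exists_redPower.{w} E
  constructor
  · intro h n
    apply proZero_of_eq_zero (R := R) hc
    intro y
    -- `y ≫ δ = 0`
    have h1 : y ≫ R.δ = 0 := by
      obtain ⟨z, hz⟩ : ∃ z : (X⟦n⟧)⟦(-1 : ℤ)⟧ ⟶ Wedge.{w} E,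
          z⟦(1 : ℤ)⟧' = ((shiftFunctorCompIsoId T (-1 : ℤ) 1 (by norm_num)).app (X⟦n⟧)).hom ≫ y ≫ R.δ :=
        (shiftFunctor T (1 : ℤ)).map_surjective _
      have hz0 : z = 0 := by
        have := h (n + -1) ((shiftFunctorAdd T n (-1)).hom.app X ≫ z)
        rw [← cancel_epi ((shiftFunctorAdd T n (-1)).hom.app X), this, comp_zero]
      rw [hz0, Functor.map_zero] at hz
      rw [← cancel_epi ((shiftFunctorCompIsoId T (-1 : ℤ) 1 (by norm_num)).app (X⟦n⟧)).hom, comp_zero]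
      exact hz.symm
    obtain ⟨p, hp⟩ : ∃ p : X⟦n⟧ ⟶ Power E, y = p ≫ R.q := Triangle.coyoneda_exact₃ _ R.dist y h1
    have hp0 : p = 0 := by
      apply Pi.hom_ext
      intro t
      rw [zero_comp]
      have h3 := h n ((p ≫ Pi.π (fun _ : ℕ => E) t) ≫ Sigma.ι (fun _ : ULift.{w} ℕ => E) ⟨0⟩)
      have h4 := congrArg (fun x => x ≫ (Sigma.desc fun _ => 𝟙 E : Wedge.{w} E ⟶ E)) h3
      simpa using h4
    rw [hp, hp0, zero_comp]
  · intro h n
    have h0 : ∀ y : X⟦n⟧ ⟶ R.Q, y = 0 := eq_zero_of_proZero hc (h n)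
    have h1 : ∀ y : (X⟦n⟧)⟦(1 : ℤ)⟧ ⟶ R.Q, y = 0 := by
      intro y
      have := eq_zero_of_proZero (R := R) hc (h (n + 1)) ((shiftFunctorAdd T n 1).hom.app X ≫ y)
      rw [← cancel_epi ((shiftFunctorAdd T n 1).hom.app X), this, comp_zero]
    exact (swindle R h0 h1).2

/-- any infinite wedge -/
theorem infinite_wedge_acyclic_iff (hc : IsCountableGen.{w} c) (E X : T) (J : Type w) [Infinite J] :
    (∀ (n : ℤ) (f : X⟦n⟧ ⟶ ∐ (fun _ : J => E)), f = 0) ↔ ∀ n : ℤ, ProZero c E (X⟦n⟧) := by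
  classical
  constructor
  · intro h
    rw [← wedge_acyclic_iff hc]
    intro n f
    let e : ℕ ↪ J := Infinite.natEmbedding J
    let a : Wedge.{w} E ⟶ ∐ (fun _ : J => E) := Sigma.desc fun j => Sigma.ι (fun _ : J => E) (e j.down)
    let b : ∐ (fun _ : J => E) ⟶ Wedge.{w} E := Sigma.desc fun j =>
      if hj : ∃ t, e t = j then Sigma.ι (fun _ : ULift.{w} ℕ => E) ⟨hj.choose⟩ else 0
    have hab : a ≫ b = 𝟙 _ := by
      apply Sigma.hom_ext
      rintro ⟨t⟩
      simp only [a, b, colimit.ι_desc_assoc, Cofan.mk_ι_app, colimit.ι_desc, Category.comp_id]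
      have ht : ∃ t', e t' = e t := ⟨t, rfl⟩
      rw [dif_pos ht]
      have : ht.choose = t := e.injective ht.choose_spec
      rw [this]
    have h1 := h n (f ≫ a)
    rw [← Category.comp_id f, ← hab, ← Category.assoc, h1, zero_comp]
  · intro h
    have h' : ∀ n : ℤ, ProZero c (∐ (fun _ : J => E)) (X⟦n⟧) := by
      intro n i f
      obtain ⟨j, g, k, hf, he⟩ := h n i f
      refine ⟨j, g, k, hf, fun e => ?_⟩
      obtain ⟨s, u, rfl⟩ := hc.compact j _ e
      rw [Preadditive.comp_sum]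
      refine Finset.sum_eq_zero fun l _ => ?_
      rw [← Category.assoc, he, zero_comp]
    intro n f
    have h1 := (wedge_acyclic_iff hc (∐ (fun _ : J => E)) X).mpr h' n
      (f ≫ Sigma.ι (fun _ : ULift.{w} ℕ => ∐ (fun _ : J => E)) ⟨0⟩)
    have h4 := congrArg (fun x => x ≫ (Sigma.desc fun _ => 𝟙 _ :
      Wedge.{w} (∐ (fun _ : J => E)) ⟶ ∐ (fun _ : J => E))) h1
    simpa using h4

/-- pro-zero objects are acyclic for `E` itself -/
theorem acyclic_of_proZero (hc : IsCountableGen.{w} c) (E X : T) (h : ∀ n : ℤ, ProZero c E (X⟦n⟧)) (n : ℤ)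
    (f : X⟦n⟧ ⟶ E) : f = 0 := by
  have h1 := (wedge_acyclic_iff hc E X).mpr h n (f ≫ Sigma.ι (fun _ : ULift.{w} ℕ => E) ⟨0⟩)
  have h4 := congrArg (fun x => x ≫ (Sigma.desc fun _ => 𝟙 _ : Wedge.{w} E ⟶ E)) h1
  simpa using h4

end

end Pool.Agent.Helper62.Hovey
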