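import Pool.Agent.Helper62.Hovey.Telescope
import Pool.Agent.Helper62.Hovey.ProZero

/-!
# Countable cohomology theories on countable objects
-/

open CategoryTheory CategoryTheory.Limits CategoryTheory.Pretriangulated

universe w v u

namespace Pool.Agent.Helper62.Hovey

variable {T : Type u} [Category.{v} T] [HasZeroObject T] [HasShift T ℤ] [Preadditive T]
  [∀ n : ℤ, (shiftFunctor T n).Additive] [Pretriangulated T] [HasCoproducts.{w} T]

variable {ι : Type} {c : ι → T}

section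

variable {D : ℕ ⥤ T} {E : T}

/-- the images stabilize if the groups are countable and the telescope equations are solvable -/
lemma stable_of_countable (hE : ∀ n, Countable (D.obj n ⟶ E))
    (hsol : ∀ g : ∀ n, D.obj n ⟶ E, ∃ k : ∀ n, D.obj n ⟶ E, ∀ n, k n - tr D (Nat.le_succ n) ≫ k (n + 1) = g n) (n : ℕ) :
    ∃ (N : ℕ) (hN : n ≤ N), ∀ (m : ℕ) (hm : N ≤ m) (e : D.obj N ⟶ E), ∃ e' : D.obj m ⟶ E,
      tr D hN ≫ e = tr D (hN.trans hm) ≫ e' := by
  classical
  by_contra hcon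
  push Not at hcon
  -- the choices
  have hch : ∀ N : ℕ, ∃ (m : ℕ) (_ : N < m) (e : D.obj N ⟶ E), ∀ (hN : n ≤ N) (e' : D.obj m ⟶ E) (hm : n ≤ m),
      tr D hN ≫ e ≠ tr D hm ≫ e' := by
    intro N
    by_cases hN : n ≤ N
    · obtain ⟨m, hm, e, he⟩ := hcon N hN
      have hlt : N < m := by
        rcases Nat.lt_or_eq_of_le hm with h | h
        · exact h
        · subst h
          exact absurd rfl (he e)
      exact ⟨m, hlt, e, fun _ e' _ => he e'⟩
    · exact ⟨N + 1, Nat.lt_succ_self N, 0, fun h => absurd h hN⟩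
  choose s hs e he using hch
  let a : ℕ → ℕ := fun r => Nat.rec (motive := fun _ => ℕ) n (fun _ x => s x) r
  have ha : ∀ r, a (r + 1) = s (a r) := fun r => rfl
  have ha0 : a 0 = n := rfl
  have hmono : StrictMono a := strictMono_nat_of_lt_succ fun r => hs (a r)
  have hge : ∀ r, n ≤ a r := fun r => by
    rw [← ha0]; exact hmono.monotone (Nat.zero_le r)
  -- families indexed by sets of natural numbers
  let g : (ε : Set ℕ) → (m : ℕ) → (D.obj m ⟶ E) := fun ε m =>
    @ite (D.obj m ⟶ E) (∃ r : ℕ, r ∈ ε ∧ a r = m) (Classical.propDecidable _) (e m) 0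
  choose y hy using fun ε => hsol (g ε)
  have hstep : ∀ (δ w : ∀ m, D.obj m ⟶ E), (∀ m, w m - tr D (Nat.le_succ m) ≫ w (m + 1) = δ m) →
      ∀ (p q : ℕ) (h : p ≤ q), (∀ m, p ≤ m → m < q → δ m = 0) → w p = tr D h ≫ w q := by
    intro δ w hw p q h
    induction q, h using Nat.le_induction with
    | base => intro _; rw [tr_self, Category.id_comp]
    | succ q h ih =>
      intro hδ
      rw [ih (fun m h1 h2 => hδ m h1 (Nat.lt_succ_of_lt h2))]
      have h1 := hw q
      rw [hδ q h (Nat.lt_succ_self q), sub_eq_zero] at h1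
      rw [h1, ← Category.assoc, tr_tr]
  have hinj : Function.Injective (fun ε : Set ℕ => y ε n) := by
    intro ε ε' hεε'
    by_contra hne
    -- the first difference
    have hex : ∃ r, ¬ (r ∈ ε ↔ r ∈ ε') := by
      by_contra hall
      push Not at hall
      exact hne (Set.ext hall)
    let r := Nat.find hex
    have hr : ¬ (r ∈ ε ↔ r ∈ ε') := Nat.find_spec hex
    have hlt : ∀ q, q < r → (q ∈ ε ↔ q ∈ ε') := fun q hq => not_not.mp (Nat.find_min hex hq)
    let w : ∀ m, D.obj m ⟶ E := fun m => y ε m - y ε' m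
    let δ : ∀ m, D.obj m ⟶ E := fun m => g ε m - g ε' m
    have hw : ∀ m, w m - tr D (Nat.le_succ m) ≫ w (m + 1) = δ m := by
      intro m
      simp only [w, δ, ← hy]
      rw [Preadditive.comp_sub]
      abel
    have hwn : w n = 0 := sub_eq_zero.mpr hεε'
    have hg0 : ∀ (ε : Set ℕ) (m : ℕ), (∀ q : ℕ, a q ≠ m) → g ε m = 0 := by
      intro ε m hm
      simp only [g]
      rw [if_neg]
      rintro ⟨q, _, hq⟩
      exact hm q hq
    have hga : ∀ (ε : Set ℕ) (q : ℕ), g ε (a q) = if q ∈ ε then e (a q) else 0 := by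
      intro ε q
      simp only [g]
      by_cases hq : q ∈ ε
      · rw [if_pos hq, if_pos ⟨q, hq, rfl⟩]
      · rw [if_neg hq, if_neg]
        rintro ⟨q', hq', hqq⟩
        rw [hmono.injective hqq] at hq'
        exact hq hq'
    have hδ1 : ∀ m, m < a r → δ m = 0 := by
      intro m hm
      simp only [δ]
      rcases Classical.em (∃ q : ℕ, a q = m) with h | h
      · obtain ⟨q, rfl⟩ := h
        have hq := hlt q (hmono.lt_iff_lt.mp hm)
        rw [hga, hga]
        by_cases h1 : q ∈ ε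
        · rw [if_pos h1, if_pos (hq.mp h1), sub_self]
        · rw [if_neg h1, if_neg (fun h2 => h1 (hq.mpr h2)), sub_self]
      · push Not at h
        rw [hg0 ε m h, hg0 ε' m h, sub_self]
    have hδ2 : ∀ m, a r < m → m < a (r + 1) → δ m = 0 := by
      intro m hm hm'
      simp only [δ]
      have h : ∀ q : ℕ, a q ≠ m := by
        rintro q rfl
        have h1 : r < q := (StrictMono.lt_iff_lt hmono (a := r) (b := q)).mp hm
        have h2 : q < r + 1 := (StrictMono.lt_iff_lt hmono (a := q) (b := r + 1)).mp hm'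
        omega
      rw [hg0 ε m h, hg0 ε' m h, sub_self]
    have h1 : w n = tr D (hge r) ≫ w (a r) := hstep δ w hw n (a r) (hge r) (fun m _ h => hδ1 m h)
    have h2 : w (a r + 1) = tr D (hs (a r)) ≫ w (a (r + 1)) :=
      hstep δ w hw (a r + 1) (a (r + 1)) (hs (a r)) (fun m h h' => hδ2 m h h')
    have h3 : w (a r) = δ (a r) + tr D (Nat.le_succ (a r)) ≫ w (a r + 1) := by
      rw [← hw (a r)]; abel
    have h4 : tr D (hge r) ≫ δ (a r) + tr D (hge (r + 1)) ≫ w (a (r + 1)) = 0 := by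
      rw [← hwn, h1, h3, Preadditive.comp_add, h2, ← Category.assoc, ← Category.assoc, tr_tr, tr_tr]
    have h5 : δ (a r) = e (a r) ∨ δ (a r) = - e (a r) := by
      simp only [δ]
      rw [hga, hga]
      by_cases h1 : r ∈ ε
      · have h2 : r ∉ ε' := fun h => hr ⟨fun _ => h, fun _ => h1⟩
        left
        rw [if_pos h1, if_neg h2, sub_zero]
      · have h2 : r ∈ ε' := by
          by_contra h
          exact hr ⟨fun h' => absurd h' h1, fun h' => absurd h' h⟩
        right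
        rw [if_neg h1, if_pos h2, zero_sub]
    rcases h5 with h5 | h5
    · rw [h5] at h4
      apply he (a r) (hge r) (- w (a (r + 1))) (hge (r + 1))
      rw [Preadditive.comp_neg, eq_neg_iff_add_eq_zero]
      exact h4
    · rw [h5] at h4
      apply he (a r) (hge r) (w (a (r + 1))) (hge (r + 1))
      rw [Preadditive.comp_neg, neg_add_eq_zero] at h4
      exact h4
  have := hE n
  obtain ⟨φ, hφ⟩ := exists_injective_nat (D.obj n ⟶ E)
  exact Function.cantor_injective (fun ε => φ (y ε n)) (hφ.comp hinj)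

/-- if the images stabilize and there are no morphisms from the telescope then the images are eventually zero -/
lemma zero_of_stable {X : T} (t : Telescope.{w} D X) (h0 : ∀ f : X ⟶ E, f = 0)
    (hst : ∀ n, ∃ (N : ℕ) (hN : n ≤ N), ∀ (m : ℕ) (hm : N ≤ m) (e : D.obj N ⟶ E), ∃ e' : D.obj m ⟶ E,
      tr D hN ≫ e = tr D (hN.trans hm) ≫ e') (n : ℕ) :
    ∃ (N : ℕ) (hN : n ≤ N), ∀ e : D.obj N ⟶ E, tr D hN ≫ e = 0 := by
  classical
  let S : ∀ m, (D.obj m ⟶ E) → Prop := fun m x => ∀ (k : ℕ) (hk : m ≤ k), ∃ e' : D.obj k ⟶ E, x = tr D hk ≫ e'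
  have hS : ∀ (m N : ℕ) (hN : m ≤ N), (∀ (k : ℕ) (hk : N ≤ k) (e : D.obj N ⟶ E), ∃ e' : D.obj k ⟶ E,
      tr D hN ≫ e = tr D (hN.trans hk) ≫ e') → ∀ e : D.obj N ⟶ E, S m (tr D hN ≫ e) := by
    intro m N hN h e k hk
    rcases le_total N k with h1 | h1
    · exact h k h1 e
    · exact ⟨tr D h1 ≫ e, by rw [← Category.assoc, tr_tr]⟩
  have hlift : ∀ (m : ℕ) (x : D.obj m ⟶ E), S m x → ∃ x' : D.obj (m + 1) ⟶ E, S (m + 1) x' ∧
      x = tr D (Nat.le_succ m) ≫ x' := by
    intro m x hx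
    obtain ⟨N, hN, h⟩ := hst (m + 1)
    obtain ⟨e, he⟩ := hx N ((Nat.le_succ m).trans hN)
    exact ⟨tr D hN ≫ e, hS _ _ hN h e, by rw [he, ← Category.assoc, tr_tr]⟩
  obtain ⟨N, hN, h⟩ := hst n
  refine ⟨N, hN, fun e => ?_⟩
  by_contra hne
  -- a compatible family
  let Y : ∀ r : ℕ, {x : D.obj (n + r) ⟶ E // S (n + r) x} := fun r =>
    Nat.rec ⟨tr D hN ≫ e, hS n N hN h e⟩
      (fun r x => ⟨(hlift (n + r) x.1 x.2).choose, (hlift (n + r) x.1 x.2).choose_spec.1⟩) r
  have hY : ∀ r, (Y r).1 = tr D (Nat.le_succ (n + r)) ≫ (Y (r + 1)).1 := fun r =>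
    (hlift (n + r) (Y r).1 (Y r).2).choose_spec.2
  have hY0 : ∀ r, tr D (Nat.le_add_right n r) ≫ (Y r).1 = tr D hN ≫ e := by
    intro r
    induction r with
    | zero =>
      have : tr D (Nat.le_add_right n 0) = 𝟙 (D.obj n) := tr_self D n
      rw [this, Category.id_comp]
      rfl
    | succ r ih =>
      rw [← ih, hY r, ← Category.assoc, tr_tr]
  obtain ⟨f, hf⟩ := t.exists_desc (G := E) (fun m => tr D (Nat.le_add_left m n) ≫ (Y m).1) (by
    intro m
    rw [hY m, ← Category.assoc, ← Category.assoc, tr_tr, tr_tr])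
  have h1 := hf n
  rw [h0 f, comp_zero, hY0 n] at h1
  exact hne h1.symm

end

/-- `X` is a countable object: a telescope of a sequence of the compact objects -/
def IsCountableObj (c : ι → T) (X : T) : Prop :=
  ∃ D : ℕ ⥤ T, (∀ n, ∃ i, Nonempty (D.obj n ≅ c i)) ∧ Nonempty (Telescope.{w} D X)

lemma telMap_injective_shift (hc : IsCountableGen.{w} c) {D : ℕ ⥤ T} (i : ι) (x : c i ⟶ (telObj.{w} D)⟦(1 : ℤ)⟧)
    (hx : x ≫ (telMap.{w} D)⟦(1 : ℤ)⟧' = 0) : x = 0 := by
  obtain ⟨k, ⟨e⟩⟩ := hc.shift i (-1)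
  let e' : (c k)⟦(1 : ℤ)⟧ ≅ c i := (shiftFunctor T (1 : ℤ)).mapIso e.symm ≪≫
    (shiftFunctorCompIsoId T (-1 : ℤ) 1 (by norm_num)).app (c i)
  obtain ⟨z, hz⟩ := (shiftFunctor T (1 : ℤ)).map_surjective (e'.hom ≫ x)
  have h2 : z ≫ telMap.{w} D = 0 := by
    apply (shiftFunctor T (1 : ℤ)).map_injective
    rw [Functor.map_comp, hz, Functor.map_zero, Category.assoc, hx, comp_zero]
  have h3 := telMap_injective (hc.compact k) z h2
  rw [h3, Functor.map_zero] at hz
  rw [← cancel_epi e'.hom, ← hz, comp_zero]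

lemma proZero_of_countable (hc : IsCountableGen.{w} c) {X E : T} (hX : IsCountableObj.{w} c X)
    (hE : ∀ i, Countable (c i ⟶ E)) (h0 : ∀ f : X ⟶ E, f = 0) (h1 : ∀ f : X ⟶ E⟦(1 : ℤ)⟧, f = 0) :
    ProZero c E X := by
  obtain ⟨D, hD, ⟨t⟩⟩ := hX
  have hcount : ∀ n, Countable (D.obj n ⟶ E) := by
    intro n
    obtain ⟨i, ⟨e⟩⟩ := hD n
    have := hE i
    have hinj : Function.Injective (fun f : D.obj n ⟶ E => e.inv ≫ f) := by
      intro f g hfg
      exact (cancel_epi e.inv).mp hfg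
    exact hinj.countable
  have hst := fun n => stable_of_countable (D := D) (E := E) hcount (fun g => t.exists_solution h1 g) n
  intro i f
  obtain ⟨n, g, rfl⟩ := t.exists_factor (hc.compact i) (telMap_injective_shift hc i) f
  obtain ⟨N, hN, hz⟩ := zero_of_stable t h0 hst n
  obtain ⟨j, ⟨e⟩⟩ := hD N
  refine ⟨j, g ≫ tr D hN ≫ e.hom, e.inv ≫ t.inj N, ?_, fun x => ?_⟩
  · simp only [Category.assoc, e.hom_inv_id_assoc, t.inj_le]
  · rw [Category.assoc, Category.assoc, hz, comp_zero]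

lemma ProZero.shift (hc : IsCountableGen.{w} c) {X E : T} (m : ℤ) (h : ProZero c (E⟦-m⟧) X) :
    ProZero c E (X⟦m⟧) := by
  intro i f
  obtain ⟨i', ⟨a⟩⟩ := hc.shift i (-m)
  let η := shiftFunctorCompIsoId T (-m) m (neg_add_cancel m)
  -- `c i ≅ (c i')⟦m⟧`
  let a' : c i ≅ (c i')⟦m⟧ := (η.symm.app (c i)) ≪≫ (shiftFunctor T m).mapIso a
  obtain ⟨φ, hφ⟩ := (shiftFunctor T m).map_surjective (a'.inv ≫ f)
  obtain ⟨j, g, k, hgk, hk⟩ := h i' φ
  obtain ⟨j', ⟨b⟩⟩ := hc.shift j m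
  refine ⟨j', a'.hom ≫ g⟦m⟧' ≫ b.hom, b.inv ≫ k⟦m⟧', ?_, fun e => ?_⟩
  · simp only [Category.assoc, b.hom_inv_id_assoc]
    rw [← Functor.map_comp, ← hgk, hφ, a'.hom_inv_id_assoc]
  · obtain ⟨ψ, hψ⟩ := (shiftFunctor T m).map_surjective (b.hom ≫ e ≫ η.inv.app E)
    have h1 : g⟦m⟧' ≫ b.hom ≫ e = 0 := by
      rw [← cancel_mono (η.inv.app E), zero_comp, Category.assoc, Category.assoc]
      have h2 : g⟦m⟧' ≫ ψ⟦m⟧' = 0 := by
        rw [← Functor.map_comp, hk, Functor.map_zero]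
      rw [hψ] at h2
      exact h2
    rw [Category.assoc, Category.assoc, h1, comp_zero]

/-- for a countable cohomology theory the countable acyclic objects are pro-zero -/
theorem proZero_of_countable_acyclic (hc : IsCountableGen.{w} c) {X E : T} (hX : IsCountableObj.{w} c X)
    (hE : ∀ i, Countable (c i ⟶ E)) (h0 : ∀ (n : ℤ) (f : X ⟶ E⟦n⟧), f = 0) (n : ℤ) : ProZero c E (X⟦n⟧) := by
  apply ProZero.shift hc
  apply proZero_of_countable hc hX
  · intro i
    obtain ⟨j, ⟨e⟩⟩ := hc.shift i n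
    have := hE j
    let η := shiftFunctorCompIsoId T (-n) n (neg_add_cancel n)
    have hinj : Function.Injective (fun f : c i ⟶ E⟦-n⟧ => e.inv ≫ f⟦n⟧' ≫ η.hom.app E) := by
      intro f g hfg
      have h1 := (cancel_epi e.inv).mp hfg
      have h2 := (cancel_mono (η.hom.app E)).mp h1
      exact (shiftFunctor T n).map_injective h2
    exact Function.Injective.countable (β := (c j ⟶ E)) hinj
  · exact h0 (-n)
  · intro f
    have := h0 (-n + 1) (f ≫ (shiftFunctorAdd T (-n) 1).inv.app E)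
    rw [← cancel_mono ((shiftFunctorAdd T (-n) 1).inv.app E), this, zero_comp]

end Pool.Agent.Helper62.Hovey
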