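import Pool.Agent.Helper62.Hovey.ProZero

/-!
# Sequences of classes of a compact object which extend to the reduced power
-/

open CategoryTheory CategoryTheory.Limits CategoryTheory.Pretriangulated

universe w v u

namespace Pool.Agent.Helper62.Hovey

variable {T : Type u} [Category.{v} T] [HasZeroObject T] [HasShift T ℤ] [Preadditive T]
  [∀ n : ℤ, (shiftFunctor T n).Additive] [Pretriangulated T] [HasCoproducts.{w} T]

variable {ι : Type} {c : ι → T}

/-- If every factorisation `f = g ≫ h` admits a class `g ≫ e` with the property `P` then there is a sequence of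
classes with the property `P` whose germ at infinity extends along `f`. -/
lemma exists_detect [HasProductsOfShape ℕ T] {E : T} (R : RedPower.{w} E) (hc : IsCountableGen.{w} c) {X : T}
    {i : ι} (f : c i ⟶ X) (P : (c i ⟶ E) → Prop)
    (hP : ∀ (j : ι) (g : c i ⟶ c j) (h : c j ⟶ X), f = g ≫ h → ∃ e : c j ⟶ E, P (g ≫ e)) :
    ∃ (x : ℕ → (c i ⟶ E)) (y : X ⟶ R.Q), (∀ n, P (x n)) ∧ f ≫ y = Pi.lift (fun n => x n) ≫ R.q := by
  classical
  have := hc.countable
  have : ∀ j : ι, Countable (c j ⟶ c i) := fun j => hc.countable_hom j i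
  -- enumeration of the morphisms killed by `f`
  let Dom : Type _ := {p : Σ j : ι, (c j ⟶ c i) // p.2 ≫ f = 0}
  have : Nonempty Dom := ⟨⟨⟨i, 0⟩, zero_comp⟩⟩
  obtain ⟨e, he⟩ := exists_surjective_nat Dom
  let St : Type _ := {p : Σ j : ι, (c i ⟶ c j) // ∃ h, f = p.2 ≫ h}
  have hstep : ∀ (s : St) (n : ℕ), ∃ s' : St, (e n).1.2 ≫ s'.1.2 = 0 ∧
      ∀ (l : ι) (x : c l ⟶ c i), x ≫ s.1.2 = 0 → x ≫ s'.1.2 = 0 := by
    rintro ⟨⟨d, g⟩, h, hh⟩ n
    obtain ⟨d', g', hg', hcok, -⟩ := hc.exists_cokernel _ _ ((e n).1.2 ≫ g)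
    obtain ⟨h', hh'⟩ := hcok _ h (by rw [Category.assoc]; change (e n).1.2 ≫ g ≫ h = 0; rw [← hh]; exact (e n).2)
    refine ⟨⟨⟨d', g ≫ g'⟩, h', ?_⟩, ?_, ?_⟩
    · change f = (g ≫ g') ≫ h'
      rw [Category.assoc, ← hh']; exact hh
    · change (e n).1.2 ≫ g ≫ g' = 0
      rw [← Category.assoc]; exact hg'
    · intro l x hx
      change x ≫ g ≫ g' = 0
      change x ≫ g = 0 at hx
      rw [← Category.assoc, hx, zero_comp]
  choose nxt hn1 hn2 using hstep
  let s0 : St := ⟨⟨i, 𝟙 _⟩, f, by simp⟩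
  let seq : ℕ → St := fun n => Nat.rec s0 (fun n s => nxt s n) n
  have hseq : ∀ n, seq (n + 1) = nxt (seq n) n := fun n => rfl
  have hkill : ∀ n j, j < n → (e j).1.2 ≫ (seq n).1.2 = 0 := by
    intro n
    induction n with
    | zero => intro j hj; omega
    | succ n ih =>
      intro j hj
      rw [hseq]
      rcases Nat.lt_succ_iff_lt_or_eq.mp hj with h | h
      · exact hn2 _ _ _ _ (ih j h)
      · subst h; exact hn1 _ _
  have hx : ∀ n, ∃ x : c i ⟶ E, P x ∧ ∀ j, j < n → (e j).1.2 ≫ x = 0 := by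
    intro n
    obtain ⟨h, hh⟩ := (seq n).2
    obtain ⟨x, hx⟩ := hP _ (seq n).1.2 h hh
    refine ⟨(seq n).1.2 ≫ x, hx, fun j hj => ?_⟩
    rw [← Category.assoc, hkill n j hj, zero_comp]
  choose x hx0 hxk using hx
  let xh : c i ⟶ Power E := Pi.lift fun t => x t
  have hkx : ∀ (j : ι) (k : c j ⟶ c i), k ≫ f = 0 → k ≫ xh ≫ R.q = 0 := by
    intro j k hk
    obtain ⟨n, hn⟩ := he ⟨⟨j, k⟩, hk⟩
    have hkn : (e n).1 = ⟨j, k⟩ := by rw [hn]
    have key : ∀ p : Σ j : ι, (c j ⟶ c i), p = ⟨j, k⟩ → (∀ m, n < m → p.2 ≫ x m = 0) → k ≫ xh ≫ R.q = 0 := by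
      rintro p rfl hp
      rw [← Category.assoc]
      apply R.zero_of_eventually _ (n + 1)
      intro t ht
      rw [Category.assoc]
      simp only [xh, limit.lift_π, Fan.mk_π_app]
      exact hp t ht
    exact key _ hkn (fun m hm => hxk m n hm)
  -- the natural transformation on the image of `f`
  let G : PGraph c X R.Q :=
    { G := fun j =>
        { carrier := {p | ∃ k : c j ⟶ c i, p.1 = k ≫ f ∧ p.2 = k ≫ xh ≫ R.q}
          add_mem' := by
            rintro p q ⟨g, h1, h2⟩ ⟨g', h1', h2'⟩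
            refine ⟨g + g', ?_, ?_⟩
            · rw [Prod.fst_add, h1, h1', Preadditive.add_comp]
            · rw [Prod.snd_add, h2, h2', Preadditive.add_comp]
          zero_mem' := ⟨0, by simp, by simp⟩
          neg_mem' := by
            rintro p ⟨g, h1, h2⟩
            refine ⟨-g, ?_, ?_⟩
            · rw [Prod.fst_neg, h1, Preadditive.neg_comp]
            · rw [Prod.snd_neg, h2, Preadditive.neg_comp] }
      pre := by
        rintro l j k a b ⟨g, h1, h2⟩
        refine ⟨k ≫ g, ?_, ?_⟩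
        · change k ≫ a = _
          rw [Category.assoc]; exact congrArg (k ≫ ·) h1
        · change k ≫ b = _
          rw [Category.assoc]; exact congrArg (k ≫ ·) h2
      fn := by
        rintro j b ⟨g, h1, h2⟩
        change b = _ at h2
        rw [h2]
        exact hkx j g h1.symm }
  obtain ⟨γ, hγ⟩ := extend hc G
  obtain ⟨y, hy⟩ := (rep hc X).1 γ
  have h1 := hγ i f (xh ≫ R.q) ⟨𝟙 _, by simp, by simp⟩
  rw [hy] at h1
  exact ⟨x, y, hx0, h1⟩

end Pool.Agent.Helper62.Hovey
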