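import Pool.Agent.Helper62.Hovey.Basic

/-!
# Equivalences in cohomology and in homology
-/

open CategoryTheory CategoryTheory.Limits CategoryTheory.Pretriangulated

universe w v u

namespace Pool.Agent.Helper62.Hovey

variable {T : Type u} [Category.{v} T] [HasZeroObject T] [HasShift T ℤ] [Preadditive T]
  [∀ n : ℤ, (shiftFunctor T n).Additive] [Pretriangulated T]

omit [HasZeroObject T] [Preadditive T] [∀ n : ℤ, (shiftFunctor T n).Additive] [Pretriangulated T] in
/-- `u` is a `G^*`-equivalence: it induces bijections `Hom(Y, G[n]) → Hom(X, G[n])` for all integers `n` -/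
def IsCohomologyEquivalence (G : T) {X Y : T} (u : X ⟶ Y) : Prop :=
  ∀ n : ℤ, Function.Bijective (fun f : Y ⟶ G⟦n⟧ => u ≫ f)

/-- `u` is an `F_*`-equivalence: it induces isomorphisms `F(X[n]) → F(Y[n])` for all integers `n` -/
def IsHomologyEquivalence (F : T ⥤ AddCommGrpCat.{v}) {X Y : T} (u : X ⟶ Y) : Prop :=
  ∀ n : ℤ, IsIso (F.map (u⟦n⟧'))

end Pool.Agent.Helper62.Hovey
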