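import Pool.Agent.Helper62.Hovey.Telescope
import Pool.Agent.Helper62.Hovey.Homology

/-!
# Binary trees of objects

Nodes are lists of booleans; the children of the node `s` are `false :: s` and `true :: s`, so that the nodes above
`s` are the lists `l ++ s`.
-/

open CategoryTheory CategoryTheory.Limits CategoryTheory.Pretriangulated

universe w v u

namespace Pool.Agent.Helper62.Hovey

/-- the node of length `n` on the branch `p` -/
def pre (p : ℕ → Bool) : ℕ → List Bool
  | 0 => []
  | n + 1 => p n :: pre p n

section

variable {T : Type u} [Category.{v} T]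

/-- the sequence of the objects on the branch `p` -/
def branchFun (M : List Bool → T) (θ : ∀ (b : Bool) (s : List Bool), M s ⟶ M (b :: s)) (p : ℕ → Bool) : ℕ ⥤ T :=
  Functor.ofSequence (X := fun n => M (pre p n)) (fun n => θ (p n) (pre p n))

/-- the composite morphism from `M s` to `M (l ++ s)` -/
def toNode (M : List Bool → T) (θ : ∀ (b : Bool) (s : List Bool), M s ⟶ M (b :: s)) (s : List Bool) :
    ∀ l : List Bool, M s ⟶ M (l ++ s)
  | [] => 𝟙 (M s)
  | b :: l => toNode M θ s l ≫ θ b (l ++ s)

end

section

variable {T : Type u} [Category.{v} T] [HasZeroObject T] [HasShift T ℤ] [Preadditive T]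
  [∀ n : ℤ, (shiftFunctor T n).Additive] [Pretriangulated T]

/-- the sum of the objects at the nodes above `s` at distance `d` -/
noncomputable def levelObj (M : List Bool → T) : ℕ → List Bool → T
  | 0, s => M s
  | d + 1, s => levelObj M d (false :: s) ⊞ levelObj M d (true :: s)

/-- the transition morphisms -/
noncomputable def levelMap (M : List Bool → T) (θ : ∀ (b : Bool) (s : List Bool), M s ⟶ M (b :: s)) :
    ∀ (d : ℕ) (s : List Bool), levelObj M d s ⟶ levelObj M (d + 1) s
  | 0, s => biprod.lift (θ false s) (θ true s)
  | d + 1, s => biprod.map (levelMap M θ d (false :: s)) (levelMap M θ d (true :: s))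

/-- the sequence of the levels above `s` -/
noncomputable def levelFun (M : List Bool → T) (θ : ∀ (b : Bool) (s : List Bool), M s ⟶ M (b :: s)) (s : List Bool) :
    ℕ ⥤ T :=
  Functor.ofSequence (X := fun d => levelObj M d s) (fun d => levelMap M θ d s)

/-- Condition for trees: for every branch `p` and every `m`, infinitely many of the transition morphisms
`M (p|n) ⟶ M (p|(n+1))` are annihilated by all morphisms from `M (p|(n+1))` to the shifts of the objects `M s`, where
`s` is a node of length `> n` which does not extend `p|m`. -/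
def Separated (M : List Bool → T) (θ : ∀ (b : Bool) (s : List Bool), M s ⟶ M (b :: s)) : Prop :=
  ∀ (p : ℕ → Bool) (m n₀ : ℕ), ∃ n, n₀ ≤ n ∧ ∀ s : List Bool, n < s.length → ¬ (pre p m <:+ s) →
    ∀ (k : ℤ) (x : M (pre p (n + 1)) ⟶ (M s)⟦k⟧), θ (p n) (pre p n) ≫ x = 0

end

section Monoidal

open MonoidalCategory

variable {T : Type u} [Category.{v} T] [MonoidalCategory T]

/-- the tensor product of the objects `C n (w n)` along a word -/
def wordObj (C : ℕ → Bool → T) : List Bool → T
  | [] => 𝟙_ T
  | b :: w => C w.length b ⊗ wordObj C w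

/-- the transition morphisms of the words -/
def wordMap (C : ℕ → Bool → T) (γ : ∀ n b, 𝟙_ T ⟶ C n b) (b : Bool) (w : List Bool) :
    wordObj C w ⟶ wordObj C (b :: w) :=
  (λ_ (wordObj C w)).inv ≫ γ w.length b ▷ wordObj C w

end Monoidal

end Pool.Agent.Helper62.Hovey
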