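import Pool.Agent.Helper62.Hovey.AdamsRep
import Pool.Agent.Helper62.Hovey.Tree

/-!
# Germs of compatible families on a binary tree
-/

open CategoryTheory CategoryTheory.Limits CategoryTheory.Pretriangulated

noncomputable section

universe w v u

namespace Pool.Agent.Helper62.Hovey

/-- `P` holds on a dense open set of nodes -/
def Ev (P : List Bool → Prop) : Prop := ∀ t, ∃ l, ∀ l', P (l' ++ (l ++ t))

lemma Ev.mono {P Q : List Bool → Prop} (hP : Ev P) (h : ∀ s, P s → Q s) : Ev Q := by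
  intro t
  obtain ⟨l, hl⟩ := hP t
  exact ⟨l, fun l' => h _ (hl l')⟩

lemma Ev.and {P Q : List Bool → Prop} (hP : Ev P) (hQ : Ev Q) : Ev (fun s => P s ∧ Q s) := by
  intro t
  obtain ⟨l, hl⟩ := hP t
  obtain ⟨m, hm⟩ := hQ (l ++ t)
  refine ⟨m ++ l, fun l' => ?_⟩
  rw [List.append_assoc]
  refine ⟨?_, hm l'⟩
  have h := hl (l' ++ m)
  rwa [List.append_assoc] at h

lemma Ev.of_forall {P : List Bool → Prop} (h : ∀ s, P s) : Ev P := fun _ => ⟨[], fun _ => h _⟩

lemma Ev.forall_lt {P : ℕ → List Bool → Prop} (hP : ∀ n, Ev (P n)) (N : ℕ) : Ev (fun s => ∀ n, n < N → P n s) := by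
  induction N with
  | zero => exact Ev.of_forall fun s n hn => absurd hn (Nat.not_lt_zero n)
  | succ N ih =>
    refine (ih.and (hP N)).mono ?_
    rintro s ⟨h1, h2⟩ n hn
    rcases Nat.lt_succ_iff_lt_or_eq.mp hn with h | rfl
    · exact h1 n h
    · exact h2

lemma Ev.length (N : ℕ) : Ev (fun s => N < s.length) := by
  intro t
  refine ⟨List.replicate (N + 1) true, fun l' => ?_⟩
  simp only [List.length_append, List.length_replicate]
  omega

variable {T : Type u} [Category.{v} T] [HasZeroObject T] [HasShift T ℤ] [Preadditive T]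
  [∀ n : ℤ, (shiftFunctor T n).Additive] [Pretriangulated T]

variable {ι : Type} {c : ι → T}

variable (M : List Bool → T) (θ : ∀ (b : Bool) (s : List Bool), M s ⟶ M (b :: s))

/-- compatibility on a dense open set -/
def IsCompat {X : T} (x : ∀ s, X ⟶ M s) : Prop := Ev (fun s => ∀ b, x (b :: s) = x s ≫ θ b s)

/-- families which are compatible on a dense open set -/
def compatSub (X : T) : AddSubgroup (∀ s, X ⟶ M s) where
  carrier := {x | IsCompat M θ x}
  zero_mem' := by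
    change IsCompat M θ (0 : ∀ s, X ⟶ M s)
    exact Ev.of_forall fun s b => zero_comp.symm
  add_mem' := by
    intro x y (hx : IsCompat M θ x) (hy : IsCompat M θ y)
    change IsCompat M θ (x + y)
    exact Ev.mono (Ev.and hx hy) fun s h b => by
      rw [Pi.add_apply, Pi.add_apply, h.1 b, h.2 b, Preadditive.add_comp]
  neg_mem' := by
    intro x (hx : IsCompat M θ x)
    change IsCompat M θ (-x)
    exact Ev.mono hx fun s h b => by
      rw [Pi.neg_apply, Pi.neg_apply, h b, Preadditive.neg_comp]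

/-- vanishing on a dense open set -/
def IsNull {X : T} (x : ∀ s, X ⟶ M s) : Prop := Ev (fun s => x s = 0)

/-- families which vanish on a dense open set -/
def nullSub (X : T) : AddSubgroup (∀ s, X ⟶ M s) where
  carrier := {x | IsNull M x}
  zero_mem' := by
    change IsNull M (0 : ∀ s, X ⟶ M s)
    exact Ev.of_forall fun s => rfl
  add_mem' := by
    intro x y (hx : IsNull M x) (hy : IsNull M y)
    change IsNull M (x + y)
    exact Ev.mono (Ev.and hx hy) fun s h => by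
      rw [Pi.add_apply, h.1, h.2, add_zero]
  neg_mem' := by
    intro x (hx : IsNull M x)
    change IsNull M (-x)
    exact Ev.mono hx fun s h => by
      rw [Pi.neg_apply, h, neg_zero]

/-- germs of compatible families -/
abbrev GermGroup (X : T) : Type v := compatSub M θ X ⧸ (nullSub M X).addSubgroupOf (compatSub M θ X)

/-- precomposition of families -/
def preFam {X Y : T} (f : X ⟶ Y) : (∀ s, Y ⟶ M s) →+ (∀ s, X ⟶ M s) where
  toFun x s := f ≫ x s
  map_zero' := by
    funext s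
    exact comp_zero
  map_add' x y := by
    funext s
    exact Preadditive.comp_add _ _ _ _ _ _

/-- precomposition of compatible families -/
def preCompat {X Y : T} (f : X ⟶ Y) : compatSub M θ Y →+ compatSub M θ X where
  toFun x := ⟨preFam M f x.1, by
    have hx : IsCompat M θ x.1 := x.2
    change IsCompat M θ (fun s => f ≫ x.1 s)
    exact Ev.mono hx fun s h b => by
      change f ≫ x.1 (b :: s) = (f ≫ x.1 s) ≫ θ b s
      rw [h b, Category.assoc]⟩
  map_zero' := Subtype.ext (map_zero (preFam M f))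
  map_add' x y := Subtype.ext (map_add (preFam M f) x.1 y.1)

/-- precomposition of germs -/
def preGerm {X Y : T} (f : X ⟶ Y) : GermGroup M θ Y →+ GermGroup M θ X :=
  QuotientAddGroup.map _ _ (preCompat M θ f) (by
    intro x hx
    have h : Ev (fun s => x.1 s = 0) := hx
    change Ev (fun s => f ≫ x.1 s = 0)
    exact h.mono fun s h => by rw [h, comp_zero])

lemma preGerm_mk {X Y : T} (f : X ⟶ Y) (x : compatSub M θ Y) :
    preGerm M θ f (QuotientAddGroup.mk x) = QuotientAddGroup.mk (preCompat M θ f x) := rfl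

lemma germ_eq_iff {X : T} (x y : compatSub M θ X) :
    (QuotientAddGroup.mk x : GermGroup M θ X) = QuotientAddGroup.mk y ↔ Ev (fun s => x.1 s = y.1 s) := by
  rw [QuotientAddGroup.eq]
  change Ev (fun s => - x.1 s + y.1 s = 0) ↔ _
  constructor
  · intro h
    exact h.mono fun s h => (neg_add_eq_zero.mp h)
  · intro h
    exact h.mono fun s h => (neg_add_eq_zero.mpr h)

section Extend

open scoped Classical

/-- extension of a choice on the minimal elements of `S` -/
def extendFam (S : Set (List Bool)) {X : T} (w : ∀ s, X ⟶ M s) : ∀ s, X ⟶ M s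
  | [] => if ([] : List Bool) ∈ S then w [] else 0
  | b :: s => if s ∈ S then extendFam S w s ≫ θ b s else if (b :: s) ∈ S then w (b :: s) else 0

lemma extendFam_spec (S : Set (List Bool)) {X Y : T} (g : Y ⟶ X) (w : ∀ s, X ⟶ M s) (x : ∀ s, Y ⟶ M s)
    (h1 : ∀ s ∈ S, g ≫ w s = x s) (h2 : ∀ s ∈ S, ∀ b, x (b :: s) = x s ≫ θ b s) :
    ∀ s ∈ S, g ≫ extendFam M θ S w s = x s := by
  intro s
  induction s with
  | nil =>
    intro hs
    rw [extendFam, if_pos hs]
    exact h1 _ hs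
  | cons b s ih =>
    intro hs
    rw [extendFam]
    by_cases hs' : s ∈ S
    · rw [if_pos hs', ← Category.assoc, ih hs', h2 s hs' b]
    · rw [if_neg hs', if_pos hs]
      exact h1 _ hs

lemma extendFam_compat (S : Set (List Bool)) {X : T} (w : ∀ s, X ⟶ M s) (s : List Bool) (hs : s ∈ S) (b : Bool) :
    extendFam M θ S w (b :: s) = extendFam M θ S w s ≫ θ b s := by
  rw [extendFam, if_pos hs]

end Extend

/-- the functor of germs on the compact objects -/
def germFun [HasCoproducts.{w} T] (hc : IsCountableGen.{w} c) : CohFun c where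
  obj i := GermGroup M θ (c i)
  map f := preGerm M θ f
  map_id i x := by
    obtain ⟨x, rfl⟩ := QuotientAddGroup.mk_surjective x
    rw [preGerm_mk, germ_eq_iff]
    exact Ev.of_forall fun s => Category.id_comp _
  map_comp f g x := by
    obtain ⟨x, rfl⟩ := QuotientAddGroup.mk_surjective x
    rw [preGerm_mk, preGerm_mk, preGerm_mk, germ_eq_iff]
    exact Ev.of_forall fun s => Category.assoc _ _ _
  map_add f g x := by
    obtain ⟨x, rfl⟩ := QuotientAddGroup.mk_surjective x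
    rw [preGerm_mk, preGerm_mk, preGerm_mk, ← QuotientAddGroup.mk_add, germ_eq_iff]
    exact Ev.of_forall fun s => Preadditive.add_comp _ _ _ _ _ _
  exact {i j} f x hx := by
    obtain ⟨x, rfl⟩ := QuotientAddGroup.mk_surjective x
    rw [preGerm_mk] at hx
    have h0 : Ev (fun s => f ≫ x.1 s = 0) := (germ_eq_iff M θ _ (0 : compatSub M θ (c i))).mp hx
    have h1 : Ev (fun s => ∀ b, x.1 (b :: s) = x.1 s ≫ θ b s) := x.2
    obtain ⟨k, g, hfg, hg, -⟩ := hc.exists_cokernel i j f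
    have hw : ∀ s, ∃ w : c k ⟶ M s, f ≫ x.1 s = 0 → g ≫ w = x.1 s := by
      intro s
      by_cases h : f ≫ x.1 s = 0
      · obtain ⟨w, hw⟩ := hg _ _ h
        exact ⟨w, fun _ => hw.symm⟩
      · exact ⟨0, fun h' => absurd h' h⟩
    choose w hw using hw
    let S : Set (List Bool) := {s | (∀ b, x.1 (b :: s) = x.1 s ≫ θ b s) ∧ f ≫ x.1 s = 0 }
    have hS : Ev (fun s => s ∈ S) := h1.and h0
    have hy1 := extendFam_spec M θ S g w x.1 (fun s hs => hw s hs.2) (fun s hs => hs.1)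
    have hy2 := extendFam_compat M θ S w
    refine ⟨k, g, QuotientAddGroup.mk ⟨extendFam M θ S w, hS.mono hy2⟩, hfg, ?_⟩
    rw [preGerm_mk, germ_eq_iff]
    exact hS.mono hy1

section Shift

/-- the bijection between `Hom(C, X[k])` and `Hom(C[-k], X)` -/
def alpha (k : ℤ) (C X : T) : (C ⟶ X⟦k⟧) →+ (C⟦-k⟧ ⟶ X) where
  toFun e := e⟦-k⟧' ≫ (shiftFunctorCompIsoId T k (-k) (add_neg_cancel k)).hom.app X
  map_zero' := by rw [Functor.map_zero, zero_comp]
  map_add' e e' := by rw [Functor.map_add, Preadditive.add_comp]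

lemma alpha_apply (k : ℤ) {C X : T} (e : C ⟶ X⟦k⟧) :
    alpha k C X e = e⟦-k⟧' ≫ (shiftFunctorCompIsoId T k (-k) (add_neg_cancel k)).hom.app X := rfl

lemma alpha_injective (k : ℤ) (C X : T) : Function.Injective (alpha k C X) := by
  intro e e' h
  rw [alpha_apply, alpha_apply] at h
  exact (shiftFunctor T (-k)).map_injective ((cancel_mono _).mp h)

lemma alpha_surjective (k : ℤ) (C X : T) : Function.Surjective (alpha k C X) := by
  intro e
  obtain ⟨f, hf⟩ := (shiftFunctor T (-k)).map_surjective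
    (e ≫ (shiftFunctorCompIsoId T k (-k) (add_neg_cancel k)).inv.app X)
  refine ⟨f, ?_⟩
  rw [alpha_apply, hf, Category.assoc, Iso.inv_hom_id_app]
  exact Category.comp_id _

lemma alpha_left (k : ℤ) {C C' X : T} (g : C' ⟶ C) (e : C ⟶ X⟦k⟧) :
    alpha k C' X (g ≫ e) = g⟦-k⟧' ≫ alpha k C X e := by
  rw [alpha_apply, alpha_apply, Functor.map_comp, Category.assoc]

lemma alpha_right (k : ℤ) {C X Y : T} (e : C ⟶ X⟦k⟧) (h : X ⟶ Y) :
    alpha k C Y (e ≫ h⟦k⟧') = alpha k C X e ≫ h := by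
  rw [alpha_apply, alpha_apply, Functor.map_comp, Category.assoc, Category.assoc]
  congr 1
  exact (shiftFunctorCompIsoId T k (-k) (add_neg_cancel k)).hom.naturality h

end Shift

/-- `E` represents germs: the relation `R` between morphisms to `E[k]` and families of morphisms to `(M s)[k]` -/
structure GermRep (c : ι → T) (E : T) where
  R : ∀ (k : ℤ) (C : T), (C ⟶ E⟦k⟧) → (∀ s, C ⟶ (M s)⟦k⟧) → Prop
  nat : ∀ {k : ℤ} {C C' : T} (g : C' ⟶ C) {e : C ⟶ E⟦k⟧} {x : ∀ s, C ⟶ (M s)⟦k⟧}, R k C e x →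
    R k C' (g ≫ e) (fun s => g ≫ x s)
  sub : ∀ {k : ℤ} {C : T} {e e' : C ⟶ E⟦k⟧} {x x' : ∀ s, C ⟶ (M s)⟦k⟧}, R k C e x → R k C e' x' →
    R k C (e - e') (fun s => x s - x' s)
  compat : ∀ {k : ℤ} {C : T} {e : C ⟶ E⟦k⟧} {x : ∀ s, C ⟶ (M s)⟦k⟧}, R k C e x →
    Ev (fun s => ∀ b, x (b :: s) = x s ≫ (θ b s)⟦k⟧')
  exists_fam : ∀ {k : ℤ} {C : T} (_ : ∃ i, Nonempty (c i ≅ C)) (e : C ⟶ E⟦k⟧), ∃ x, R k C e x
  exists_hom : ∀ {k : ℤ} {C : T} (_ : ∃ i, Nonempty (c i ≅ C)) (x : ∀ s, C ⟶ (M s)⟦k⟧),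
    Ev (fun s => ∀ b, x (b :: s) = x s ≫ (θ b s)⟦k⟧') → ∃ e, R k C e x
  eq_zero_iff : ∀ {k : ℤ} {C : T} (_ : ∃ i, Nonempty (c i ≅ C)) {e : C ⟶ E⟦k⟧} {x : ∀ s, C ⟶ (M s)⟦k⟧},
    R k C e x → (e = 0 ↔ Ev (fun s => x s = 0))

variable [HasCoproducts.{v} T]

/-- germs are represented -/
theorem exists_germRep (hc : IsCountableGen.{v} c) : ∃ E : T, Nonempty (GermRep M θ c E) := by
  obtain ⟨E, ρ, hnat, hadd, hbij⟩ := adams_representability hc (germFun M θ hc)
  -- the relation for the compact objects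
  let R₀ : ∀ i, (c i ⟶ E) → (∀ s, c i ⟶ M s) → Prop := fun i e x =>
    ∃ h : x ∈ compatSub M θ (c i), ρ i e = QuotientAddGroup.mk ⟨x, h⟩
  have hzero : ∀ i, ρ i 0 = 0 := by
    intro i
    have h := hadd i 0 0
    rw [add_zero] at h
    exact left_eq_add.mp h
  have hsub : ∀ i (e e' : c i ⟶ E), ρ i (e - e') = ρ i e - ρ i e' := by
    intro i e e'
    rw [eq_sub_iff_add_eq, ← hadd, sub_add_cancel]
  have hR₀nat : ∀ (i j : ι) (f : c i ⟶ c j) e x, R₀ j e x → R₀ i (f ≫ e) (fun s => f ≫ x s) := by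
    rintro i j f e x ⟨h, hx⟩
    refine ⟨(preCompat M θ f ⟨x, h⟩).2, ?_⟩
    rw [hnat, hx]
    rfl
  have hR₀sub : ∀ i e e' x x', R₀ i e x → R₀ i e' x' → R₀ i (e - e') (fun s => x s - x' s) := by
    rintro i e e' x x' ⟨h, hx⟩ ⟨h', hx'⟩
    refine ⟨sub_mem h h', ?_⟩
    rw [hsub, hx, hx']
    rfl
  have hR₀ex : ∀ i e, ∃ x, R₀ i e x := by
    intro i e
    obtain ⟨x, hx⟩ := QuotientAddGroup.mk_surjective (ρ i e)
    exact ⟨x.1, x.2, hx.symm⟩
  have hR₀hom : ∀ i x, x ∈ compatSub M θ (c i) → ∃ e, R₀ i e x := by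
    intro i x h
    obtain ⟨e, he⟩ := (hbij i).2 (QuotientAddGroup.mk ⟨x, h⟩ : GermGroup M θ (c i))
    exact ⟨e, h, he⟩
  have hR₀zero : ∀ i e x, R₀ i e x → (e = 0 ↔ Ev (fun s => x s = 0)) := by
    rintro i e x ⟨h, hx⟩
    have h1 : e = 0 ↔ ρ i e = 0 := by
      constructor
      · rintro rfl
        exact hzero i
      · intro h
        exact (hbij i).1 (h.trans (hzero i).symm)
    rw [h1, hx]
    exact germ_eq_iff M θ ⟨x, h⟩ 0
  -- shifts of the objects
  have hshift : ∀ (k : ℤ) (C : T), (∃ i, Nonempty (c i ≅ C)) → ∃ i, Nonempty (c i ≅ C⟦-k⟧) := by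
    rintro k C ⟨i, ⟨φ⟩⟩
    obtain ⟨j, ⟨ψ⟩⟩ := hc.shift i (-k)
    exact ⟨j, ⟨ψ.symm ≪≫ (shiftFunctor T (-k)).mapIso φ⟩⟩
  have hcompat : ∀ (k : ℤ) (C : T) (X : T) (φ : X ⟶ C⟦-k⟧) (x : ∀ s, C ⟶ (M s)⟦k⟧),
      Ev (fun s => ∀ b, x (b :: s) = x s ≫ (θ b s)⟦k⟧') → (fun s => φ ≫ alpha k C (M s) (x s)) ∈ compatSub M θ X := by
    intro k C X φ x hx
    change IsCompat M θ (fun s => φ ≫ alpha k C (M s) (x s))
    exact Ev.mono hx fun s h b => by
      change φ ≫ alpha k C (M (b :: s)) (x (b :: s)) = (φ ≫ alpha k C (M s) (x s)) ≫ θ b s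
      rw [h b, alpha_right, Category.assoc]
  refine ⟨E, ⟨{
    R := fun k C e x => Ev (fun s => ∀ b, x (b :: s) = x s ≫ (θ b s)⟦k⟧') ∧
      ∀ (i : ι) (f : c i ⟶ C⟦-k⟧), R₀ i (f ≫ alpha k C E e) (fun s => f ≫ alpha k C (M s) (x s))
    nat := ?_
    sub := ?_
    compat := fun h => h.1
    exists_fam := ?_
    exists_hom := ?_
    eq_zero_iff := ?_ }⟩⟩
  · rintro k C C' g e x ⟨h1, h2⟩
    refine ⟨h1.mono fun s h b => by
      change g ≫ x (b :: s) = (g ≫ x s) ≫ (θ b s)⟦k⟧'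
      rw [h b, Category.assoc], fun i f => ?_⟩
    have h3 := h2 i (f ≫ g⟦-k⟧')
    simp only [alpha_left]
    simp only [Category.assoc] at h3
    exact h3
  · rintro k C e e' x x' ⟨h1, h2⟩ ⟨h1', h2'⟩
    refine ⟨(h1.and h1').mono fun s h b => by
      change x (b :: s) - x' (b :: s) = (x s - x' s) ≫ (θ b s)⟦k⟧'
      rw [h.1 b, h.2 b, Preadditive.sub_comp], fun i f => ?_⟩
    have h3 := hR₀sub i _ _ _ _ (h2 i f) (h2' i f)
    simp only [map_sub, Preadditive.comp_sub]
    exact h3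
  · intro k C hC e
    obtain ⟨i, ⟨φ⟩⟩ := hshift k C hC
    obtain ⟨y, hy⟩ := hR₀ex i (φ.hom ≫ alpha k C E e)
    choose x hx using fun s => alpha_surjective k C (M s) (φ.inv ≫ y s)
    refine ⟨x, ?_, fun j f => ?_⟩
    · refine Ev.mono (P := fun s => ∀ b, y (b :: s) = y s ≫ θ b s) hy.1 fun s h b => ?_
      apply alpha_injective k C (M (b :: s))
      rw [alpha_right, hx, hx, h b, Category.assoc]
    · have h3 := hR₀nat j i (f ≫ φ.inv) _ _ hy
      simp only [Category.assoc, Iso.inv_hom_id_assoc] at h3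
      simp only [hx]
      exact h3
  · intro k C hC x hx
    obtain ⟨i, ⟨φ⟩⟩ := hshift k C hC
    obtain ⟨e₀, he₀⟩ := hR₀hom i _ (hcompat k C (c i) φ.hom x hx)
    obtain ⟨e, he⟩ := alpha_surjective k C E (φ.inv ≫ e₀)
    refine ⟨e, hx, fun j f => ?_⟩
    have h3 := hR₀nat j i (f ≫ φ.inv) _ _ he₀
    simp only [Category.assoc, Iso.inv_hom_id_assoc] at h3
    rw [he]
    exact h3
  · rintro k C hC e x ⟨h1, h2⟩
    obtain ⟨i, ⟨φ⟩⟩ := hshift k C hC
    have h3 := hR₀zero i _ _ (h2 i φ.hom)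
    have h4 : φ.hom ≫ alpha k C E e = 0 ↔ e = 0 := by
      constructor
      · intro h
        apply alpha_injective k C E
        rw [map_zero, ← cancel_epi φ.hom, h, comp_zero]
      · rintro rfl
        rw [map_zero, comp_zero]
    rw [← h4, h3]
    constructor
    · intro h
      refine h.mono fun s hs => ?_
      apply alpha_injective k C (M s)
      rw [map_zero, ← cancel_epi φ.hom, hs, comp_zero]
    · intro h
      refine h.mono fun s hs => ?_
      rw [hs, map_zero, comp_zero]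

end Pool.Agent.Helper62.Hovey

end
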