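import Pool.Agent.Helper62.Hovey.HomTel

/-!
# Homology of the telescope of the levels
-/

open CategoryTheory CategoryTheory.Limits CategoryTheory.Pretriangulated

noncomputable section

universe v u

namespace Pool.Agent.Helper62.Hovey

section Branch

/-- the branch which starts with `s` and continues with `q` -/
def brOf : List Bool → (ℕ → Bool) → ℕ → Bool
  | [], q => q
  | b :: s, q => brOf s (fun i => Nat.casesOn i b q)

lemma pre_cases (b : Bool) (q : ℕ → Bool) (k : ℕ) :
    pre (fun i => Nat.casesOn i b q) (k + 1) = pre q k ++ [b] := by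
  induction k with
  | zero => rfl
  | succ k ih =>
    rw [pre, ih]
    rfl

lemma pre_brOf (s : List Bool) (q : ℕ → Bool) (k : ℕ) : pre (brOf s q) (s.length + k) = pre q k ++ s := by
  induction s generalizing q k with
  | nil => simp [brOf]
  | cons b s ih =>
    have h1 : (b :: s).length + k = s.length + (k + 1) := by
      rw [List.length_cons]
      omega
    rw [h1, brOf, ih, pre_cases, List.append_assoc]
    rfl

end Branch

variable {T : Type u} [Category.{v} T] [HasZeroObject T] [HasShift T ℤ] [Preadditive T]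
  [∀ n : ℤ, (shiftFunctor T n).Additive] [Pretriangulated T] [HasCoproducts.{v} T]

variable {M : List Bool → T} {θ : ∀ (b : Bool) (s : List Bool), M s ⟶ M (b :: s)}

lemma tr_branch (p : ℕ → Bool) {m n : ℕ} (h : m ≤ n) :
    tr (branchFun M θ p) h = up M θ (pre p m) (pre p n) := by
  induction n, h using Nat.le_induction with
  | base =>
    rw [tr_self, up_self]
    rfl
  | succ n h ih =>
    have h1 : pre p m ≠ p n :: pre p n := by
      intro h'
      have h2 := congrArg List.length h'
      rw [List.length_cons, length_pre, length_pre] at h2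
      omega
    have h3 : up M θ (pre p m) (pre p (n + 1)) = up M θ (pre p m) (pre p n) ≫ θ (p n) (pre p n) := up_cons M θ h1
    have h4 : tr (branchFun M θ p) (Nat.le_succ n) = θ (p n) (pre p n) := Functor.ofSequence_map_homOfLE_succ _ n
    rw [h3, ← tr_tr (branchFun M θ p) h (Nat.le_succ n), ih, h4]
    rfl

lemma up_child (b : Bool) (s t : List Bool) : θ b s ≫ up M θ (b :: s) t = up M θ s t ∨ up M θ (b :: s) t = 0 := by
  induction t with
  | nil =>
    right
    exact up_zero M θ (by simp)
  | cons b' t ih =>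
    by_cases h : (b :: s) = b' :: t
    · left
      obtain ⟨rfl, rfl⟩ := List.cons.inj h
      have h1 : s ≠ b :: s := by
        intro h
        have := congrArg List.length h
        simp at this
      rw [up_self, up_cons M θ h1, up_self, Category.comp_id, Category.id_comp]
    · by_cases h2 : s = b' :: t
      · right
        apply up_zero M θ
        rw [h2]
        simp
      · rcases ih with ih | ih
        · left
          rw [up_cons M θ h, up_cons M θ h2, ← Category.assoc, ih]
        · right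
          rw [up_cons M θ h, ih, zero_comp]

section Koenig

variable (G : T ⥤ AddCommGrpCat.{v}) [G.Additive]

/-- the element `z` at the node `s` vanishes at all nodes of large length -/
def Dies (M : List Bool → T) (θ : ∀ (b : Bool) (s : List Bool), M s ⟶ M (b :: s)) (s : List Bool)
    (z : G.obj (M s)) : Prop :=
  ∃ N : ℕ, ∀ t : List Bool, N ≤ t.length → gm G (up M θ s t) z = 0

lemma dies_of_children (s : List Bool) (z : G.obj (M s))
    (h : ∀ b, Dies G M θ (b :: s) (gm G (θ b s) z)) : Dies G M θ s z := by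
  obtain ⟨N₀, h0⟩ := h false
  obtain ⟨N₁, h1⟩ := h true
  refine ⟨max (max N₀ N₁) (s.length + 1), fun t ht => ?_⟩
  have ht0 : N₀ ≤ t.length := le_trans (le_trans (le_max_left _ _) (le_max_left _ _)) ht
  have ht1 : N₁ ≤ t.length := le_trans (le_trans (le_max_right _ _) (le_max_left _ _)) ht
  have ht2 : s.length + 1 ≤ t.length := le_trans (le_max_right _ _) ht
  rw [← up_children M θ s t ht2, gm_add, gm_comp, gm_comp, h0 t ht0, h1 t ht1, add_zero]

/-- König's lemma -/
lemma koenig (s : List Bool) (z : G.obj (M s)) (hnd : ¬ Dies G M θ s z) :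
    ∃ q : ℕ → Bool, ∀ k, gm G (toNode M θ s (pre q k)) z ≠ 0 := by
  have hnext : ∀ l : List Bool, ∃ b, ¬ Dies G M θ (l ++ s) (gm G (toNode M θ s l) z) →
      ¬ Dies G M θ ((b :: l) ++ s) (gm G (toNode M θ s (b :: l)) z) := by
    intro l
    by_cases h : Dies G M θ (l ++ s) (gm G (toNode M θ s l) z)
    · exact ⟨true, fun h' => absurd h h'⟩
    · have h1 : ∃ b, ¬ Dies G M θ (b :: (l ++ s)) (gm G (θ b (l ++ s)) (gm G (toNode M θ s l) z)) := by
        by_contra hall
        push Not at hall
        exact h (dies_of_children G _ _ hall)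
      obtain ⟨b, hb⟩ := h1
      refine ⟨b, fun _ hd => hb ?_⟩
      rw [← gm_comp]
      exact hd
  choose β hβ using hnext
  let L : ℕ → List Bool := fun k => Nat.rec [] (fun _ l => β l :: l) k
  let q : ℕ → Bool := fun k => β (L k)
  have hL : ∀ k, pre q k = L k := by
    intro k
    induction k with
    | zero => rfl
    | succ k ih =>
      rw [pre, ih]
  have hnd' : ∀ k, ¬ Dies G M θ (L k ++ s) (gm G (toNode M θ s (L k)) z) := by
    intro k
    induction k with
    | zero =>
      intro hd
      apply hnd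
      have h1 : gm G (toNode M θ s (L 0)) z = z := gm_id G z
      rw [h1] at hd
      exact hd
    | succ k ih => exact hβ (L k) ih
  refine ⟨q, fun k h0 => hnd' k ?_⟩
  rw [← hL k, h0]
  exact ⟨0, fun t _ => map_zero _⟩

end Koenig

section Levels

omit [HasShift T ℤ] [∀ n : ℤ, (shiftFunctor T n).Additive] [HasZeroObject T] [Pretriangulated T]
  [HasCoproducts.{v} T] in
lemma biprodMap_id [HasBinaryBiproducts T] (X Y : T) : biprod.map (𝟙 X) (𝟙 Y) = 𝟙 (X ⊞ Y) := by
  apply biprod.hom_ext <;> simp

omit [HasShift T ℤ] [∀ n : ℤ, (shiftFunctor T n).Additive] [HasZeroObject T] [Pretriangulated T]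
  [HasCoproducts.{v} T] in
lemma biprodMap_comp [HasBinaryBiproducts T] {X Y X' Y' X'' Y'' : T} (f : X ⟶ X') (g : Y ⟶ Y') (f' : X' ⟶ X'')
    (g' : Y' ⟶ Y'') : biprod.map f g ≫ biprod.map f' g' = biprod.map (f ≫ f') (g ≫ g') := by
  apply biprod.hom_ext <;> simp

lemma tr_level_succ (s : List Bool) {m n : ℕ} (h : m ≤ n) :
    tr (levelFun M θ s) (Nat.succ_le_succ h) =
      biprod.map (tr (levelFun M θ (false :: s)) h) (tr (levelFun M θ (true :: s)) h) := by
  induction n, h using Nat.le_induction with
  | base =>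
    rw [tr_self, tr_self, tr_self]
    exact (biprodMap_id _ _).symm
  | succ n h ih =>
    have h1 : ∀ s, tr (levelFun M θ s) (Nat.le_succ n) = levelMap M θ n s := fun s =>
      Functor.ofSequence_map_homOfLE_succ _ n
    have h2 : tr (levelFun M θ s) (Nat.le_succ (n + 1)) = levelMap M θ (n + 1) s :=
      Functor.ofSequence_map_homOfLE_succ _ (n + 1)
    have h3 := (tr_tr (levelFun M θ s) (Nat.succ_le_succ h) (Nat.le_succ (n + 1))).symm
    refine h3.trans ?_
    rw [ih, h2, ← tr_tr (levelFun M θ (false :: s)) h (Nat.le_succ n),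
      ← tr_tr (levelFun M θ (true :: s)) h (Nat.le_succ n), h1, h1]
    exact biprodMap_comp _ _ _ _

variable (G : T ⥤ AddCommGrpCat.{v}) [G.Additive]

lemma gm_map_zero {X Y X' Y' : T} (f : X ⟶ X') (g : Y ⟶ Y') (z : G.obj (X ⊞ Y))
    (h1 : gm G f (gm G biprod.fst z) = 0) (h2 : gm G g (gm G biprod.snd z) = 0) : gm G (biprod.map f g) z = 0 := by
  apply gm_biprod
  · rw [← gm_comp, biprod.map_fst, gm_comp, h1]
  · rw [← gm_comp, biprod.map_snd, gm_comp, h2]

lemma gm_lift_map_zero {W X Y X' Y' : T} (a : W ⟶ X) (b : W ⟶ Y) (f : X ⟶ X') (g : Y ⟶ Y') (z : G.obj W)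
    (h1 : gm G f (gm G a z) = 0) (h2 : gm G g (gm G b z) = 0) :
    gm G (biprod.lift a b ≫ biprod.map f g) z = 0 := by
  rw [gm_comp]
  apply gm_map_zero
  · rw [← gm_comp G (biprod.lift a b), biprod.lift_fst, h1]
  · rw [← gm_comp G (biprod.lift a b), biprod.lift_snd, h2]

/-- elements which die at all nodes of length at least `N` die in the level sequence -/
lemma level_dies_zero (n : ℕ) (s : List Bool) (z : G.obj (M s)) (N : ℕ)
    (hz : ∀ t : List Bool, N ≤ t.length → gm G (up M θ s t) z = 0) (hn : N ≤ s.length + n) :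
    gm G (tr (levelFun M θ s) (Nat.zero_le n)) z = 0 := by
  induction n generalizing s with
  | zero =>
    have h1 := hz s (by omega)
    rw [up_self, gm_id] at h1
    subst h1
    exact map_zero (gm G (tr (levelFun M θ s) (Nat.zero_le 0)))
  | succ n ih =>
    have h2 : tr (levelFun M θ s) (Nat.zero_le 1) = levelMap M θ 0 s :=
      Functor.ofSequence_map_homOfLE_succ _ 0
    have h3 : tr (levelFun M θ s) (Nat.zero_le (n + 1)) = tr (levelFun M θ s) (Nat.zero_le 1) ≫
        tr (levelFun M θ s) (Nat.succ_le_succ (Nat.zero_le n)) := (tr_tr _ _ _).symm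
    rw [h3, h2, tr_level_succ s (Nat.zero_le n)]
    have hchild : ∀ b, gm G (tr (levelFun M θ (b :: s)) (Nat.zero_le n)) (gm G (θ b s) z) = 0 := by
      intro b
      apply ih (b :: s) (gm G (θ b s) z)
      · intro t ht
        rw [← gm_comp]
        rcases up_child (M := M) (θ := θ) b s t with h | h
        · rw [h]
          exact hz t ht
        · rw [h, comp_zero, gm_zero]
      · rw [List.length_cons]
        omega
    exact gm_lift_map_zero G _ _ _ _ z (hchild false) (hchild true)

lemma gm_tr_later (D : ℕ ⥤ T) {d m n : ℕ} (h : d ≤ m) (h' : m ≤ n) (z : G.obj (D.obj d))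
    (hz : gm G (tr D h) z = 0) : gm G (tr D (h.trans h')) z = 0 := by
  rw [← tr_tr D h h', gm_comp, hz, map_zero]

/-- every element dies in the level sequence -/
lemma level_dies (hd : ∀ (s : List Bool) (z : G.obj (M s)), Dies G M θ s z) (d : ℕ) (s : List Bool)
    (z : G.obj ((levelFun M θ s).obj d)) :
    ∃ (n : ℕ) (h : d ≤ n), gm G (tr (levelFun M θ s) h) z = 0 := by
  induction d generalizing s with
  | zero =>
    obtain ⟨N, hN⟩ := hd s z
    exact ⟨N, Nat.zero_le N, level_dies_zero G N s z N hN (Nat.le_add_left _ _)⟩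
  | succ d ih =>
    obtain ⟨n₁, h₁, hz₁⟩ := ih (false :: s) (gm G (biprod.fst : levelObj M d (false :: s) ⊞
      levelObj M d (true :: s) ⟶ levelObj M d (false :: s)) z)
    obtain ⟨n₂, h₂, hz₂⟩ := ih (true :: s) (gm G (biprod.snd : levelObj M d (false :: s) ⊞
      levelObj M d (true :: s) ⟶ levelObj M d (true :: s)) z)
    have hd1 : d ≤ max n₁ n₂ := h₁.trans (le_max_left _ _)
    refine ⟨max n₁ n₂ + 1, Nat.succ_le_succ hd1, ?_⟩
    rw [tr_level_succ s hd1]
    exact gm_map_zero G _ _ z (gm_tr_later G _ h₁ (le_max_left n₁ n₂) _ hz₁)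
      (gm_tr_later G _ h₂ (le_max_right n₁ n₂) _ hz₂)

end Levels

/-- if the homology of the branch telescopes vanishes then so does the homology of the telescope of the levels -/
theorem homology_levels (F : T ⥤ AddCommGrpCat.{v}) (hF : IsHomologyTheory.{v} F)
    (Y : (ℕ → Bool) → T) (hY : ∀ p, Telescope.{v} (branchFun M θ p) (Y p))
    (Z : T) (hZ : Telescope.{v} (levelFun M θ []) Z)
    (h0 : ∀ p (n : ℤ), IsZero (F.obj ((Y p)⟦n⟧))) (n : ℤ) : IsZero (F.obj (Z⟦n⟧)) := by
  haveI := additive_shift F hF n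
  have hzero : ∀ {A : AddCommGrpCat.{v}}, IsZero A → ∀ z : A, z = 0 := by
    intro A h z
    have h1 : 𝟙 A = 0 := h.eq_of_src _ _
    exact ConcreteCategory.congr_hom h1 z
  -- elements at a node of a branch vanish at a later node of the branch
  have hK : ∀ (p : ℕ → Bool) (m : ℕ) (s : List Bool), pre p m = s → ∀ z : (shiftFunctor T n ⋙ F).obj (M s),
      ∃ m', m ≤ m' ∧ gm (shiftFunctor T n ⋙ F) (up M θ s (pre p m')) z = 0 := by
    rintro p m s rfl z
    have h1 : gm (shiftFunctor T n ⋙ F) ((hY p).inj m) z = 0 := hzero (h0 p n) _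
    obtain ⟨m', hm', h2⟩ := hom_tel_inj (hY p) F hF n (m := m) z h1
    refine ⟨m', hm', ?_⟩
    rw [tr_branch] at h2
    exact h2
  have hd : ∀ (s : List Bool) (z : (shiftFunctor T n ⋙ F).obj (M s)), Dies (shiftFunctor T n ⋙ F) M θ s z := by
    intro s z
    by_contra hnd
    obtain ⟨q, hq⟩ := koenig (shiftFunctor T n ⋙ F) s z hnd
    obtain ⟨m', hm', h1⟩ := hK (brOf s q) s.length s (by
      have h2 := pre_brOf s q 0
      rw [Nat.add_zero] at h2
      rw [h2]
      rfl) z
    obtain ⟨k, rfl⟩ := Nat.exists_eq_add_of_le hm'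
    rw [pre_brOf, up_append] at h1
    exact hq k h1
  have hall : ∀ z : (shiftFunctor T n ⋙ F).obj Z, z = 0 := by
    intro z
    obtain ⟨m, y, rfl⟩ := hom_tel_surj hZ F hF n z
    obtain ⟨m', h, h1⟩ := level_dies (shiftFunctor T n ⋙ F) hd m [] y
    rw [← hZ.inj_le h, gm_comp, h1, map_zero]
  haveI : Subsingleton (F.obj (Z⟦n⟧)) := ⟨fun a b => (hall a).trans (hall b).symm⟩
  exact AddCommGrpCat.isZero_of_subsingleton _

end Pool.Agent.Helper62.Hovey

end
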