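import Pool.Agent.Helper62.Hovey.NonVanish
import Pool.Agent.Helper62.Hovey.Coprod

/-!
# Homology of telescopes
-/

open CategoryTheory CategoryTheory.Limits CategoryTheory.Pretriangulated

noncomputable section

universe v u

namespace Pool.Agent.Helper62.Hovey

section Gm

variable {T : Type u} [Category.{v} T]

/-- the homomorphism of groups -/
def gm (G : T ⥤ AddCommGrpCat.{v}) {X Y : T} (f : X ⟶ Y) : G.obj X →+ G.obj Y := (G.map f).hom

variable (G : T ⥤ AddCommGrpCat.{v})

lemma gm_id {X : T} (x : G.obj X) : gm G (𝟙 X) x = x := by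
  simp [gm]

lemma gm_comp {X Y Z : T} (f : X ⟶ Y) (g : Y ⟶ Z) (x : G.obj X) : gm G (f ≫ g) x = gm G g (gm G f x) := by
  simp [gm]

variable [Preadditive T] [G.Additive]

lemma gm_add {X Y : T} (f g : X ⟶ Y) (x : G.obj X) : gm G (f + g) x = gm G f x + gm G g x := by
  simp [gm, Functor.map_add]

lemma gm_sub {X Y : T} (f g : X ⟶ Y) (x : G.obj X) : gm G (f - g) x = gm G f x - gm G g x := by
  simp [gm, Functor.map_sub]

lemma gm_zero {X Y : T} (x : G.obj X) : gm G (0 : X ⟶ Y) x = 0 := by
  simp [gm, Functor.map_zero]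

/-- an element of a biproduct is determined by its components -/
lemma gm_biprod [HasBinaryBiproducts T] {X Y : T} (w : G.obj (X ⊞ Y)) (h1 : gm G biprod.fst w = 0)
    (h2 : gm G biprod.snd w = 0) : w = 0 := by
  have h3 : (𝟙 (X ⊞ Y)) = biprod.fst ≫ biprod.inl + biprod.snd ≫ biprod.inr := biprod.total.symm
  rw [← gm_id G w, h3, gm_add, gm_comp, gm_comp, h1, h2, map_zero, map_zero, add_zero]

end Gm

section Sum

variable {T : Type u} [Category.{v} T] [HasCoproducts.{v} T] (G : T ⥤ AddCommGrpCat.{v})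

lemma gm_exists_sum (J : Type v) [PreservesColimitsOfShape (Discrete J) G] (X : J → T) (w : G.obj (∐ X)) :
    ∃ (s : Finset J) (y : ∀ j, G.obj (X j)), w = ∑ j ∈ s, gm G (Sigma.ι X j) (y j) := by
  obtain ⟨s, y, hy⟩ := exists_sum (fun j => G.obj (X j)) ((inv (sigmaComparison G X)) w)
  refine ⟨s, y, ?_⟩
  have h1 := congrArg (fun x => (sigmaComparison G X) x) hy
  simp only [map_sum] at h1
  have h2 : (sigmaComparison G X) ((inv (sigmaComparison G X)) w) = w := by
    rw [← ConcreteCategory.comp_apply, IsIso.inv_hom_id]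
    rfl
  rw [h2] at h1
  rw [h1]
  refine Finset.sum_congr rfl fun j _ => ?_
  rw [← ConcreteCategory.comp_apply, ι_comp_sigmaComparison]
  rfl

end Sum

variable {T : Type u} [Category.{v} T] [HasZeroObject T] [HasShift T ℤ] [Preadditive T]
  [∀ n : ℤ, (shiftFunctor T n).Additive] [Pretriangulated T] [HasCoproducts.{v} T]

section Tel

variable (D : ℕ ⥤ T)

/-- projections from the coproduct -/
def telπ (n : ℕ) : telObj.{v} D ⟶ D.obj n := Sigma.π (fun n : ULift.{v} ℕ => D.obj n.down) ⟨n⟩

lemma telι_telπ (n : ℕ) : telι.{v} D n ≫ telπ D n = 𝟙 (D.obj n) :=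
  Sigma.ι_π_eq_id (fun n : ULift.{v} ℕ => D.obj n.down) ⟨n⟩

lemma telι_telπ_of_ne {m n : ℕ} (h : m ≠ n) : telι.{v} D m ≫ telπ D n = 0 := by
  apply Sigma.ι_π_of_ne (fun n : ULift.{v} ℕ => D.obj n.down)
  intro h'
  exact h (congrArg ULift.down h')

lemma telMap_telπ_zero : telMap.{v} D ≫ telπ D 0 = telπ D 0 := by
  apply Sigma.hom_ext
  rintro ⟨n⟩
  change telι.{v} D n ≫ telMap.{v} D ≫ telπ D 0 = telι.{v} D n ≫ telπ D 0
  rw [← Category.assoc, telι_telMap, Preadditive.sub_comp, Category.assoc,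
    telι_telπ_of_ne D (Nat.succ_ne_zero n), comp_zero, sub_zero]

lemma telMap_telπ_succ (k : ℕ) :
    telMap.{v} D ≫ telπ D (k + 1) = telπ D (k + 1) - telπ D k ≫ tr D (Nat.le_succ k) := by
  apply Sigma.hom_ext
  rintro ⟨n⟩
  change telι.{v} D n ≫ telMap.{v} D ≫ telπ D (k + 1) =
    telι.{v} D n ≫ (telπ D (k + 1) - telπ D k ≫ tr D (Nat.le_succ k))
  rw [← Category.assoc, telι_telMap, Preadditive.sub_comp, Preadditive.comp_sub, Category.assoc]
  congr 1
  by_cases h : n = k
  · subst h
    rw [telι_telπ, ← Category.assoc, telι_telπ, Category.id_comp, Category.comp_id]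
  · rw [telι_telπ_of_ne D (fun h' => h (Nat.succ.inj h')), ← Category.assoc, telι_telπ_of_ne D h, zero_comp,
      comp_zero]

variable (G : T ⥤ AddCommGrpCat.{v}) [G.Additive] [PreservesColimitsOfShape (Discrete (ULift.{v} ℕ)) G]

lemma gm_tel_ext (w : G.obj (telObj.{v} D)) (h : ∀ k, gm G (telπ D k) w = 0) : w = 0 := by
  classical
  obtain ⟨s, y, rfl⟩ := gm_exists_sum G (ULift.{v} ℕ) (fun n : ULift.{v} ℕ => D.obj n.down) w
  refine Finset.sum_eq_zero fun j hj => ?_
  have h1 := h j.down
  rw [map_sum, Finset.sum_eq_single j] at h1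
  · rw [← gm_comp] at h1
    have h2 : Sigma.ι (fun n : ULift.{v} ℕ => D.obj n.down) j ≫ telπ D j.down = 𝟙 _ := telι_telπ D j.down
    rw [h2, gm_id] at h1
    rw [h1, map_zero]
  · intro i _ hij
    rw [← gm_comp]
    have h2 : Sigma.ι (fun n : ULift.{v} ℕ => D.obj n.down) i ≫ telπ D j.down = 0 :=
      telι_telπ_of_ne D (m := i.down) (fun h => hij (ULift.ext _ _ h))
    rw [h2, gm_zero]
  · intro h'
    exact absurd hj h'

lemma gm_tel_bound (w : G.obj (telObj.{v} D)) : ∃ K, ∀ k, K ≤ k → gm G (telπ D k) w = 0 := by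
  classical
  obtain ⟨s, y, rfl⟩ := gm_exists_sum G (ULift.{v} ℕ) (fun n : ULift.{v} ℕ => D.obj n.down) w
  refine ⟨(s.image ULift.down).sup id + 1, fun k hk => ?_⟩
  rw [map_sum]
  refine Finset.sum_eq_zero fun i hi => ?_
  have hik : i.down ≠ k := by
    intro h
    have : i.down ≤ (s.image ULift.down).sup id := Finset.le_sup (f := id) (Finset.mem_image_of_mem _ hi)
    omega
  rw [← gm_comp]
  have h2 : Sigma.ι (fun n : ULift.{v} ℕ => D.obj n.down) i ≫ telπ D k = 0 :=
    telι_telπ_of_ne D (m := i.down) hik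
  rw [h2, gm_zero]

lemma gm_telMap_inj (w : G.obj (telObj.{v} D)) (h : gm G (telMap.{v} D) w = 0) : w = 0 := by
  apply gm_tel_ext D G
  intro k
  induction k with
  | zero =>
    have h1 : gm G (telπ D 0) (gm G (telMap.{v} D) w) = 0 := by rw [h, map_zero]
    rwa [← gm_comp, telMap_telπ_zero] at h1
  | succ k ih =>
    have h1 : gm G (telπ D (k + 1)) (gm G (telMap.{v} D) w) = 0 := by rw [h, map_zero]
    rw [← gm_comp, telMap_telπ_succ, gm_sub, gm_comp, ih, map_zero, sub_zero] at h1
    exact h1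

lemma gm_telι_dies {m : ℕ} (y : G.obj (D.obj m)) (w : G.obj (telObj.{v} D))
    (h : gm G (telι.{v} D m) y = gm G (telMap.{v} D) w) : ∃ (n : ℕ) (hn : m ≤ n), gm G (tr D hn) y = 0 := by
  have hlt : ∀ k, k < m → gm G (telπ D k) w = 0 := by
    intro k
    induction k with
    | zero =>
      intro hk
      have h1 := congrArg (fun x => gm G (telπ D 0) x) h
      simp only [← gm_comp] at h1
      rw [telMap_telπ_zero, telι_telπ_of_ne D (by omega), gm_zero] at h1
      exact h1.symm
    | succ k ih =>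
      intro hk
      have h1 := congrArg (fun x => gm G (telπ D (k + 1)) x) h
      simp only [← gm_comp] at h1
      rw [telMap_telπ_succ, telι_telπ_of_ne D (by omega), gm_zero, gm_sub, gm_comp, ih (by omega), map_zero,
        sub_zero] at h1
      exact h1.symm
  have hm : gm G (telπ D m) w = y := by
    cases m with
    | zero =>
      have h1 := congrArg (fun x => gm G (telπ D 0) x) h
      simp only [← gm_comp] at h1
      rw [telMap_telπ_zero, telι_telπ D, gm_id] at h1
      exact h1.symm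
    | succ m =>
      have h1 := congrArg (fun x => gm G (telπ D (m + 1)) x) h
      simp only [← gm_comp] at h1
      rw [telMap_telπ_succ, telι_telπ D, gm_id, gm_sub, gm_comp, hlt m (Nat.lt_succ_self m), map_zero,
        sub_zero] at h1
      exact h1.symm
  have hge : ∀ n (hn : m ≤ n), gm G (telπ D n) w = gm G (tr D hn) y := by
    intro n hn
    induction n, hn using Nat.le_induction with
    | base => rw [hm, tr_self, gm_id]
    | succ n hn ih =>
      have h1 := congrArg (fun x => gm G (telπ D (n + 1)) x) h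
      simp only [← gm_comp] at h1
      rw [telMap_telπ_succ, telι_telπ_of_ne D (by omega), gm_zero, gm_sub, gm_comp, ih, eq_comm, sub_eq_zero] at h1
      rw [h1, ← gm_comp, tr_tr]
  obtain ⟨K, hK⟩ := gm_tel_bound D G w
  refine ⟨max m K, le_max_left _ _, ?_⟩
  rw [← hge _ (le_max_left _ _)]
  exact hK _ (le_max_right _ _)

end Tel

section Hom

variable {D : ℕ ⥤ T} {X : T} (t : Telescope.{v} D X) (F : T ⥤ AddCommGrpCat.{v}) (hF : IsHomologyTheory.{v} F)

include hF in
lemma additive_shift (n : ℤ) : (shiftFunctor T n ⋙ F).Additive := by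
  haveI := hF.homological
  infer_instance

include hF in
lemma preserves_shift (n : ℤ) (J : Type v) : PreservesColimitsOfShape (Discrete J) (shiftFunctor T n ⋙ F) := by
  haveI := hF.coproducts J
  infer_instance

include t hF in
/-- elements of the homology of a telescope come from the terms -/
lemma hom_tel_surj (n : ℤ) (z : (shiftFunctor T n ⋙ F).obj X) :
    ∃ (m : ℕ) (y : (shiftFunctor T n ⋙ F).obj (D.obj m)), gm (shiftFunctor T n ⋙ F) (t.inj m) y = z := by
  classical
  haveI := hF.homological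
  letI : F.ShiftSequence ℤ := Functor.ShiftSequence.tautological F ℤ
  haveI := additive_shift F hF n
  haveI := additive_shift F hF (n + 1)
  haveI := preserves_shift F hF n (ULift.{v} ℕ)
  haveI := preserves_shift F hF (n + 1) (ULift.{v} ℕ)
  -- the connecting homomorphism vanishes
  have h1 : (F.homologySequenceδ (Triangle.mk (telMap.{v} D) t.j t.h) n (n + 1) rfl) z = 0 := by
    have h2 := F.homologySequenceδ_comp _ t.dist n (n + 1) rfl
    have h3 := ConcreteCategory.congr_hom h2 z
    exact gm_telMap_inj D (shiftFunctor T (n + 1) ⋙ F) _ h3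
  have h4 := F.homologySequence_exact₃ _ t.dist n (n + 1) rfl
  rw [ShortComplex.ab_exact_iff] at h4
  obtain ⟨w, hw⟩ := h4 z h1
  have hw' : gm (shiftFunctor T n ⋙ F) t.j w = z := hw
  obtain ⟨s, y, hy⟩ := gm_exists_sum (shiftFunctor T n ⋙ F) (ULift.{v} ℕ) (fun n : ULift.{v} ℕ => D.obj n.down) w
  let K := (s.image ULift.down).sup id
  have hK : ∀ i ∈ s, i.down ≤ K := fun i hi => Finset.le_sup (f := id) (Finset.mem_image_of_mem _ hi)
  refine ⟨K, ∑ i ∈ s, if h : i.down ≤ K then gm (shiftFunctor T n ⋙ F) (tr D h) (y i) else 0, ?_⟩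
  rw [← hw', hy, map_sum, map_sum]
  refine Finset.sum_congr rfl fun i hi => ?_
  rw [dif_pos (hK i hi), ← gm_comp, ← gm_comp, t.inj_le]
  rfl

include t hF in
/-- elements which vanish in the homology of the telescope vanish at a later term -/
lemma hom_tel_inj (n : ℤ) {m : ℕ} (y : (shiftFunctor T n ⋙ F).obj (D.obj m))
    (hy : gm (shiftFunctor T n ⋙ F) (t.inj m) y = 0) :
    ∃ (m' : ℕ) (h : m ≤ m'), gm (shiftFunctor T n ⋙ F) (tr D h) y = 0 := by
  haveI := hF.homological
  letI : F.ShiftSequence ℤ := Functor.ShiftSequence.tautological F ℤ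
  haveI := additive_shift F hF n
  haveI := preserves_shift F hF n (ULift.{v} ℕ)
  have h4 := F.homologySequence_exact₂ _ t.dist n
  rw [ShortComplex.ab_exact_iff] at h4
  obtain ⟨w, hw⟩ := h4 (gm (shiftFunctor T n ⋙ F) (telι.{v} D m) y) (by
    have h5 : gm (shiftFunctor T n ⋙ F) t.j (gm (shiftFunctor T n ⋙ F) (telι.{v} D m) y) = 0 := by
      rw [← gm_comp]
      exact hy
    exact h5)
  exact gm_telι_dies D (shiftFunctor T n ⋙ F) y w hw.symm

end Hom

end Pool.Agent.Helper62.Hovey

end
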