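import Pool.Agent.Helper62.Hovey.Detect

/-!
# Linear maps from the product of copies of the ring
-/

open CategoryTheory CategoryTheory.Limits CategoryTheory.Pretriangulated

universe v u

namespace Pool.Agent.Helper62.Hovey

variable {T : Type u} [Category.{v} T] [HasZeroObject T] [HasShift T ℤ] [Preadditive T]
  [∀ n : ℤ, (shiftFunctor T n).Additive] [Pretriangulated T] [HasCoproducts.{v} T]

variable {ι : Type} {c : ι → T}

/-- morphisms extend uniquely along the fibre of a morphism to an acyclic object -/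
lemma exists_extension {P₁ P₀ X E : T} (d : P₁ ⟶ P₀) (p : P₀ ⟶ X) (q : X ⟶ P₁⟦(1 : ℤ)⟧)
    (hT : Triangle.mk d p q ∈ distTriang T) (h1 : ∀ g : X ⟶ E⟦(1 : ℤ)⟧, g = 0) (e : P₁ ⟶ E) :
    ∃ F : P₀ ⟶ E, d ≫ F = e := by
  have h2 : q ≫ e⟦(1 : ℤ)⟧' = 0 := h1 _
  obtain ⟨F, hF⟩ : ∃ F : P₀⟦(1 : ℤ)⟧ ⟶ E⟦(1 : ℤ)⟧, e⟦(1 : ℤ)⟧' = (-(d⟦(1 : ℤ)⟧')) ≫ F :=
    Triangle.yoneda_exact₃ _ (rot_of_distTriang _ hT) (e⟦(1 : ℤ)⟧') h2
  obtain ⟨F', hF'⟩ : ∃ F' : P₀ ⟶ E, F'⟦(1 : ℤ)⟧' = F := (shiftFunctor T (1 : ℤ)).map_surjective F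
  refine ⟨-F', ?_⟩
  apply (shiftFunctor T (1 : ℤ)).map_injective
  rw [hF, ← hF', Functor.map_comp, Functor.map_neg, Preadditive.comp_neg, Preadditive.neg_comp]

lemma eq_of_extension {P₁ P₀ X E : T} (d : P₁ ⟶ P₀) (p : P₀ ⟶ X) (q : X ⟶ P₁⟦(1 : ℤ)⟧)
    (hT : Triangle.mk d p q ∈ distTriang T) (h0 : ∀ g : X ⟶ E, g = 0) (F F' : P₀ ⟶ E) (h : d ≫ F = d ≫ F') :
    F = F' := by
  rw [← sub_eq_zero]
  have h1 : d ≫ (F - F') = 0 := by rw [Preadditive.comp_sub, h, sub_self]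
  obtain ⟨z, hz⟩ := Triangle.yoneda_exact₂ _ hT (F - F') h1
  have h2 : z = 0 := h0 z
  rw [hz, h2]
  exact comp_zero

/-- the main construction -/
lemma exists_linear [HasProductsOfShape ℕ T] {E : T} {A : Type*} [Ring A] (ρ : A →+* End E) (R : RedPower.{v} E)
    (hc : IsCountableGen.{v} c) {X : T} (h0 : ∀ g : X ⟶ E, g = 0) (h1 : ∀ g : X ⟶ E⟦(1 : ℤ)⟧, g = 0)
    {i : ι} (f : c i ⟶ X) (x : ℕ → (c i ⟶ E)) (y : X ⟶ R.Q)
    (hxy : f ≫ y = Pi.lift (fun n => x n) ≫ R.q) :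
    ∃ φ : (ℕ → A) → (c i ⟶ E), (∀ a b, φ (a + b) = φ a + φ b) ∧ (∀ s a, φ (s • a) = φ a ≫ ρ s) ∧
      ∃ N : ℕ, ∀ m ≥ N, φ (Pi.single m 1) = x m := by
  classical
  let J : Type v := Σ j : ι, (c j ⟶ X)
  let P₀ : T := ∐ (fun k : J => c k.1)
  let p : P₀ ⟶ X := Sigma.desc (fun k : J => k.2)
  obtain ⟨P₁, d, q, hT⟩ := distinguished_cocone_triangle₁ p
  have hdp : d ≫ p = 0 := comp_distTriang_mor_zero₁₂ _ hT
  -- the lift
  choose l hl using fun k : J => R.lift hc k.1 (k.2 ≫ y)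
  let t : P₀ ⟶ Power E := Sigma.desc l
  have ht : t ≫ R.q = p ≫ y := by
    apply Sigma.hom_ext
    intro k
    simp only [t, p, Sigma.ι_desc_assoc]
    exact (hl k).symm
  obtain ⟨r, hr⟩ : ∃ r : P₁ ⟶ Wedge.{v} E, d ≫ t = r ≫ wedgeToPower.{v} E := by
    apply Triangle.coyoneda_exact₂ _ R.dist
    change (d ≫ t) ≫ R.q = 0
    rw [Category.assoc, ht, ← Category.assoc, hdp, zero_comp]
  let hat : (ℕ → A) → (Wedge.{v} E ⟶ E) := fun a => Sigma.desc fun j => (ρ (a j.down) : E ⟶ E)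
  have hat_ι : ∀ (a : ℕ → A) (j : ULift.{v} ℕ), Sigma.ι (fun _ : ULift.{v} ℕ => E) j ≫ hat a = (ρ (a j.down) : E ⟶ E) := by
    intro a j
    simp only [hat, Sigma.ι_desc]
  choose F hF using fun a : ℕ → A => exists_extension d p q hT h1 (r ≫ hat a)
  have huniq := eq_of_extension d p q hT h0
  have hadd : ∀ a b, F (a + b) = F a + F b := by
    intro a b
    apply huniq
    rw [Preadditive.comp_add, hF, hF, hF, ← Preadditive.comp_add]
    congr 1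
    apply Sigma.hom_ext
    intro j
    rw [Preadditive.comp_add, hat_ι, hat_ι, hat_ι, Pi.add_apply, map_add]
  have hsmul : ∀ s a, F (s • a) = F a ≫ (ρ s : E ⟶ E) := by
    intro s a
    apply huniq
    rw [← Category.assoc, hF, hF, Category.assoc]
    congr 1
    apply Sigma.hom_ext
    intro j
    rw [← Category.assoc, hat_ι, hat_ι, Pi.smul_apply, smul_eq_mul, map_mul]
    rfl
  have hδ : ∀ m, F (Pi.single m 1) = t ≫ Pi.π (fun _ : ℕ => E) m := by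
    intro m
    apply huniq
    rw [hF, ← Category.assoc, hr, Category.assoc]
    congr 1
    apply Sigma.hom_ext
    intro j
    rw [hat_ι, ι_wedgeToPower_π]
    by_cases h : m = j.down
    · rw [if_pos h, ← h, Pi.single_eq_same, map_one]
      rfl
    · rw [if_neg h, Pi.single_eq_of_ne (fun h' => h h'.symm), map_zero]
  refine ⟨fun a => Sigma.ι (fun k : J => c k.1) ⟨i, f⟩ ≫ F a, ?_, ?_, ?_⟩
  · intro a b
    change _ ≫ F (a + b) = _
    rw [hadd, Preadditive.comp_add]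
  · intro s a
    change _ ≫ F (s • a) = _
    rw [hsmul]
    exact (Category.assoc _ _ _).symm
  · have h2 : (l ⟨i, f⟩ - Pi.lift (fun n => x n)) ≫ R.q = 0 := by
      rw [Preadditive.sub_comp, ← hl, ← hxy, sub_self]
    obtain ⟨N, hN⟩ := R.eventually_zero (hc.compact i) _ h2
    refine ⟨N, fun m hm => ?_⟩
    have h3 := hN m hm
    rw [Preadditive.sub_comp, sub_eq_zero] at h3
    change Sigma.ι (fun k : J => c k.1) ⟨i, f⟩ ≫ F (Pi.single m 1) = x m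
    rw [hδ, ← Category.assoc]
    simp only [t, Sigma.ι_desc]
    rw [h3]
    simp

end Pool.Agent.Helper62.Hovey
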