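import Pool.Agent.Helper62.Hovey.ProZero
import Pool.Agent.Helper62.Hovey.Coprod

/-!
# Infinite wedges satisfy Hovey's statement
-/

open CategoryTheory CategoryTheory.Limits CategoryTheory.Pretriangulated

universe v u

namespace Pool.Agent.Helper62.Hovey

variable {T : Type u} [Category.{v} T] [HasZeroObject T] [HasShift T ℤ] [Preadditive T]
  [∀ n : ℤ, (shiftFunctor T n).Additive] [Pretriangulated T] [HasCoproducts.{v} T]

variable {ι : Type} {c : ι → T}

omit [HasZeroObject T] [∀ n : ℤ, (shiftFunctor T n).Additive] [Pretriangulated T] [HasCoproducts.{v} T] in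
/-- shifts of the target or of the source -/
lemma acyclic_shift_iff (E X : T) :
    (∀ (n : ℤ) (f : X ⟶ E⟦n⟧), f = 0) ↔ ∀ (n : ℤ) (f : X⟦n⟧ ⟶ E), f = 0 := by
  constructor
  · intro h n f
    let e := shiftFunctorCompIsoId T n (-n) (add_neg_cancel n)
    have h1 := h (-n) (e.inv.app X ≫ f⟦-n⟧')
    have h2 : f⟦-n⟧' = 0 := by
      rw [← cancel_epi (e.inv.app X), h1, comp_zero]
    have h3 : (shiftFunctor T (-n)).map f = (shiftFunctor T (-n)).map 0 := by
      rw [h2]
      have : (shiftFunctor T (-n)).PreservesZeroMorphisms := inferInstance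
      exact (Functor.map_zero _ _ _).symm
    exact (shiftFunctor T (-n)).map_injective h3
  · intro h n f
    let e := shiftFunctorCompIsoId T n (-n) (add_neg_cancel n)
    have h1 := h (-n) (f⟦-n⟧' ≫ e.hom.app E)
    have h2 : f⟦-n⟧' = 0 := by
      rw [← cancel_mono (e.hom.app E), h1, zero_comp]
    have h3 : (shiftFunctor T (-n)).map f = (shiftFunctor T (-n)).map 0 := by
      rw [h2]
      have : (shiftFunctor T (-n)).PreservesZeroMorphisms := inferInstance
      exact (Functor.map_zero _ _ _).symm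
    exact (shiftFunctor T (-n)).map_injective h3

omit [HasCoproducts.{v} T] in
/-- isomorphisms in cohomology and acyclicity of the cone -/
lemma cohomology_iso_iff (G : T) (Δ : Triangle T) (hΔ : Δ ∈ distTriang T) :
    (∀ n : ℤ, Function.Bijective (fun f : Δ.obj₂ ⟶ G⟦n⟧ => Δ.mor₁ ≫ f)) ↔ ∀ (n : ℤ) (f : Δ.obj₃ ⟶ G⟦n⟧), f = 0 := by
  constructor
  · intro h n f
    have h1 : Δ.mor₂ ≫ f = 0 := by
      apply (h n).1
      change Δ.mor₁ ≫ Δ.mor₂ ≫ f = Δ.mor₁ ≫ 0
      rw [← Category.assoc, comp_distTriang_mor_zero₁₂ _ hΔ, zero_comp, comp_zero]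
    obtain ⟨g, hg⟩ := Triangle.yoneda_exact₃ _ hΔ f h1
    let e : G⟦n⟧ ≅ (G⟦n - 1⟧)⟦(1 : ℤ)⟧ := (shiftFunctorAdd' T (n - 1) 1 n (by abel)).app G
    obtain ⟨k, hk⟩ := (shiftFunctor T (1 : ℤ)).map_surjective (g ≫ e.hom)
    obtain ⟨k', hk'⟩ := (h (n - 1)).2 k
    have h2 : g = Δ.mor₁⟦(1 : ℤ)⟧' ≫ k'⟦(1 : ℤ)⟧' ≫ e.inv := by
      rw [← Category.assoc, ← Functor.map_comp]
      change g = (Δ.mor₁ ≫ k')⟦(1 : ℤ)⟧' ≫ e.inv
      have h3 : (Δ.mor₁ ≫ k')⟦(1 : ℤ)⟧' = g ≫ e.hom := by rw [← hk]; exact congrArg _ hk'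
      rw [h3, Category.assoc, e.hom_inv_id, Category.comp_id]
    rw [hg, h2, ← Category.assoc, comp_distTriang_mor_zero₃₁ _ hΔ, zero_comp]
  · intro h n
    constructor
    · intro f g hfg
      rw [← sub_eq_zero]
      obtain ⟨k, hk⟩ := Triangle.yoneda_exact₂ _ hΔ (f - g) (by
        change Δ.mor₁ ≫ f = Δ.mor₁ ≫ g at hfg
        rw [Preadditive.comp_sub, hfg, sub_self])
      rw [hk, h n k, comp_zero]
    · intro f
      have h1 : ∀ (m : ℤ) (k : Δ.obj₃⟦m⟧ ⟶ G⟦n⟧), k = 0 := by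
        rw [← acyclic_shift_iff]
        intro m k
        have := h (n + m) (k ≫ (shiftFunctorAdd T n m).inv.app G)
        rw [← cancel_mono ((shiftFunctorAdd T n m).inv.app G), this, zero_comp]
      obtain ⟨k, hk⟩ := Triangle.yoneda_exact₂ _ (inv_rot_of_distTriang _ hΔ) f (h1 (-1) _)
      exact ⟨k, hk.symm⟩

lemma isZero_iff_forall (A : AddCommGrpCat.{v}) : IsZero A ↔ ∀ z : A, z = 0 := by
  constructor
  · intro h z
    have h1 : 𝟙 A = 0 := h.eq_of_src _ _
    have := ConcreteCategory.congr_hom h1 z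
    exact this
  · intro h
    rw [IsZero.iff_id_eq_zero]
    ext z
    rw [h z]
    simp

variable [HasProductsOfShape ℕ T]

/-- the acyclic objects agree -/
theorem acyclic_iff (hc : IsCountableGen.{v} c) (E X : T) (J : Type v) [Infinite J] :
    (∀ (n : ℤ) (f : X ⟶ (∐ (fun _ : J => E))⟦n⟧), f = 0) ↔ (F c E).homologicalKernel X := by
  rw [acyclic_shift_iff, infinite_wedge_acyclic_iff hc]
  refine forall_congr' fun n => ?_
  rw [isZero_iff_forall, F_zero_iff hc]
  rfl

/-- the equivalences agree -/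
theorem equivalence_iff (hc : IsCountableGen.{v} c) (E : T) (J : Type v) [Infinite J] {X Y : T} (u : X ⟶ Y) :
    (∀ n : ℤ, Function.Bijective (fun f : Y ⟶ (∐ (fun _ : J => E))⟦n⟧ => u ≫ f)) ↔
      ∀ n : ℤ, IsIso ((F c E).map (u⟦n⟧')) := by
  have hhom := F_homological c E hc
  letI : (F c E).ShiftSequence ℤ := Functor.ShiftSequence.tautological (F c E) ℤ
  have h1 := (F c E).mem_homologicalKernel_trW_iff u
  obtain ⟨Z, g, h, hT⟩ := distinguished_cocone_triangle u
  have h2 := (F c E).homologicalKernel.trW_iff_of_distinguished _ hT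
  have h3 := cohomology_iso_iff (∐ (fun _ : J => E)) _ hT
  exact h3.trans ((acyclic_iff hc E Z J).trans (h2.symm.trans h1))

end Pool.Agent.Helper62.Hovey
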