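import Pool.Agent.Helper62.Hovey.MainB0
import Pool.Agent.Helper62.Hovey.HomLevels

/-!
# A cohomology theory whose equivalences are not the equivalences of a homology theory
-/

open CategoryTheory CategoryTheory.Limits CategoryTheory.Pretriangulated
open scoped ZeroObject

universe v u

namespace Pool.Agent.Helper62.Hovey

variable {T : Type u} [Category.{v} T] [HasZeroObject T] [HasShift T ℤ] [Preadditive T]
  [∀ n : ℤ, (shiftFunctor T n).Additive] [Pretriangulated T] [HasCoproducts.{v} T] {ι : Type} {c : ι → T}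

/-- the theorem for trees of compact objects -/
theorem fails_of_tree (hc : IsCountableGen.{v} c) (M : List Bool → T)
    (θ : ∀ (b : Bool) (s : List Bool), M s ⟶ M (b :: s)) (hM : ∀ s, ∃ i, Nonempty (c i ≅ M s))
    (hsep : Separated M θ) (hne : ∀ l, toNode M θ [] l ≠ 0) :
    ∃ (E X Y : T) (u : X ⟶ Y), ¬ IsCohomologyEquivalence E u ∧
      ∀ F : T ⥤ AddCommGrpCat.{v}, IsHomologyTheory.{v} F →
        (∀ {X' Y' : T} (u' : X' ⟶ Y'), IsCohomologyEquivalence E u' → IsHomologyEquivalence F u') →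
        IsHomologyEquivalence F u := by
  obtain ⟨E, ⟨G⟩⟩ := exists_germRep M θ hc
  choose Y hY using fun p : ℕ → Bool => exists_telescope.{v} (branchFun M θ p)
  obtain ⟨Z, ⟨hZ⟩⟩ := exists_telescope.{v} (levelFun M θ [])
  refine ⟨E, Z, 0, 0, ?_, fun F hF h => ?_⟩
  · rw [cohomologyEquivalence_zero_iff]
    intro h1
    obtain ⟨f, hf⟩ := G.level_ne_zero hc hM hne hZ
    exact hf (h1 0 f)
  · have hhom := hF.homological
    have h0 : ∀ p (n : ℤ), IsZero (F.obj ((Y p)⟦n⟧)) := by
      intro p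
      rw [← homologyEquivalence_zero_iff F hhom]
      apply h
      rw [cohomologyEquivalence_zero_iff]
      exact fun n f => G.branch_zero hM hsep p (hY p).some n f
    rw [homologyEquivalence_zero_iff F hhom]
    exact homology_levels F hF Y (fun p => (hY p).some) Z hZ h0

open MonoidalCategory

/-- the theorem for sequences of orthogonal pairs -/
theorem fails_of_pairs [MonoidalCategory T] [BraidedCategory T] (hc : IsCountableGen.{v} c) (C : ℕ → Bool → T)
    (γ : ∀ n b, 𝟙_ T ⟶ C n b) (hunit : ∃ i, Nonempty (c i ≅ 𝟙_ T))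
    (htensor : ∀ n b i, ∃ j, Nonempty (c j ≅ C n b ⊗ c i))
    (orth : ∀ (n : ℕ) (X Y : T) (k : ℤ) (x : C n true ⊗ X ⟶ (C n false ⊗ Y)⟦k⟧),
      (λ_ X).inv ≫ γ n true ▷ X ≫ x = 0)
    (indep : ∀ w : List Bool, toNode (wordObj C) (wordMap C γ) [] w ≠ 0) :
    ∃ (E X Y : T) (u : X ⟶ Y), ¬ IsCohomologyEquivalence E u ∧
      ∀ F : T ⥤ AddCommGrpCat.{v}, IsHomologyTheory.{v} F →
        (∀ {X' Y' : T} (u' : X' ⟶ Y'), IsCohomologyEquivalence E u' → IsHomologyEquivalence F u') →
        IsHomologyEquivalence F u := by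
  obtain ⟨t, hsep, hne⟩ := exists_tree C γ orth indep
  have hw : ∀ w : List Bool, ∃ i, Nonempty (c i ≅ wordObj C w) := by
    intro w
    induction w with
    | nil => exact hunit
    | cons b w ih =>
      obtain ⟨i, ⟨e⟩⟩ := ih
      obtain ⟨j, ⟨e'⟩⟩ := htensor w.length b i
      exact ⟨j, ⟨e' ≪≫ whiskerLeftIso (C w.length b) e⟩⟩
  exact fails_of_tree hc _ _ (fun s => hw (code t s)) hsep hne

end Pool.Agent.Helper62.Hovey
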