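import Pool.Agent.Helper62.Hovey.NonVanish
import Pool.Agent.Helper62.Hovey.Equiv
import Pool.Agent.Helper40.HoveyMon

/-!
# Cohomological equivalences which are not homological equivalences: preparations
-/

open CategoryTheory CategoryTheory.Limits CategoryTheory.Pretriangulated

universe v u

namespace Pool.Agent.Helper62.Hovey

variable {T : Type u} [Category.{v} T] [HasZeroObject T] [HasShift T ℤ] [Preadditive T]
  [∀ n : ℤ, (shiftFunctor T n).Additive] [Pretriangulated T]

open scoped ZeroObject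

omit [∀ n : ℤ, (shiftFunctor T n).Additive] [Pretriangulated T] in
lemma cohomologyEquivalence_zero_iff [(∀ n : ℤ, (shiftFunctor T n).Additive)] (E X : T) :
    IsCohomologyEquivalence E (0 : X ⟶ (0 : T)) ↔ ∀ (n : ℤ) (f : X ⟶ E⟦n⟧), f = 0 := by
  constructor
  · intro h n f
    obtain ⟨g, hg⟩ := (h n).2 f
    rw [← hg]
    exact zero_comp
  · intro h n
    constructor
    · intro f g _
      exact (isZero_zero T).eq_of_src f g
    · intro f
      exact ⟨0, by rw [h n f]; exact zero_comp⟩

lemma homologyEquivalence_zero_iff (F : T ⥤ AddCommGrpCat.{v}) (hF : F.IsHomological) (X : T) :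
    IsHomologyEquivalence F (0 : X ⟶ (0 : T)) ↔ ∀ n : ℤ, IsZero (F.obj (X⟦n⟧)) := by
  have hz : ∀ n : ℤ, IsZero (F.obj ((0 : T)⟦n⟧)) := fun n =>
    F.map_isZero ((shiftFunctor T n).map_isZero (isZero_zero T))
  constructor
  · intro h n
    haveI := h n
    exact (hz n).of_iso (asIso (F.map ((0 : X ⟶ (0 : T))⟦n⟧')))
  · intro h n
    exact ⟨0, (h n).eq_of_src _ _, (hz n).eq_of_src _ _⟩

end Pool.Agent.Helper62.Hovey
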