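import Pool.Agent.Helper62.Hovey.Artinian
import Pool.Agent.Helper62.Hovey.MainA
import Pool.Agent.Helper62.Hovey.Equiv

/-!
# Hovey's statement for theories which are almost slender modulo artinian modules
-/

open CategoryTheory CategoryTheory.Limits CategoryTheory.Pretriangulated

universe v u

namespace Pool.Agent.Helper62.Hovey

variable {T : Type u} [Category.{v} T] [HasZeroObject T] [HasShift T ℤ] [Preadditive T]
  [∀ n : ℤ, (shiftFunctor T n).Additive] [Pretriangulated T] [HasCoproducts.{v} T] [HasProductsOfShape ℕ T]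

variable {ι : Type} {c : ι → T} {A : Type*} [Ring A] {E : T} (ρ : A →+* End E)

/-- acyclic objects are pro-zero -/
theorem proZero_of_slender (hc : IsCountableGen.{v} c) (Γ : ∀ i, Submodule A (HomMod ρ (c i)))
    (hΓ : ∀ i, IsArtinian A (Γ i))
    (hsl : ∀ (i : ι) (φ : (ℕ → A) →ₗ[A] HomMod ρ (c i)), ∃ N : ℕ, ∀ n, N ≤ n → φ (Pi.single n 1) ∈ Γ i)
    {X : T} (h : ∀ (n : ℤ) (f : X⟦n⟧ ⟶ E), f = 0) (n : ℤ) : ProZero c E (X⟦n⟧) := by
  have h0 : ∀ y : X⟦n⟧ ⟶ E, y = 0 := h n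
  have h1 : ∀ y : X⟦n⟧ ⟶ E⟦(1 : ℤ)⟧, y = 0 := by
    refine (acyclic_shift_iff E (X⟦n⟧)).mpr (fun m f => ?_) 1
    have := h (n + m) ((shiftFunctorAdd T n m).hom.app X ≫ f)
    rw [← cancel_epi ((shiftFunctorAdd T n m).hom.app X), this, comp_zero]
  exact proZero_of_artinian ρ hc Γ hΓ (exists_fac ρ hc Γ hsl h0 h1) h0

theorem equivalence_iff_of_slender (hc : IsCountableGen.{v} c) (Γ : ∀ i, Submodule A (HomMod ρ (c i)))
    (hΓ : ∀ i, IsArtinian A (Γ i))
    (hsl : ∀ (i : ι) (φ : (ℕ → A) →ₗ[A] HomMod ρ (c i)), ∃ N : ℕ, ∀ n, N ≤ n → φ (Pi.single n 1) ∈ Γ i)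
    {X Y : T} (u : X ⟶ Y) : IsCohomologyEquivalence E u ↔ IsHomologyEquivalence (F c E) u := by
  obtain ⟨Z, p, q, hT⟩ := distinguished_cocone_triangle u
  have key : IsHomologyEquivalence (F c E) u ↔ ∀ n : ℤ, ProZero c E (Z⟦n⟧) := by
    have hhom := F_homological c E hc
    letI : (F c E).ShiftSequence ℤ := Functor.ShiftSequence.tautological (F c E) ℤ
    have h1 := (F c E).mem_homologicalKernel_trW_iff u
    have h2 := (F c E).homologicalKernel.trW_iff_of_distinguished _ hT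
    refine h1.symm.trans (h2.trans ?_)
    change (∀ n : ℤ, IsZero ((F c E).obj (Z⟦n⟧))) ↔ _
    refine forall_congr' fun n => ?_
    rw [isZero_iff_forall, F_zero_iff hc]
    rfl
  refine ((cohomology_iso_iff E _ hT).trans (acyclic_shift_iff E Z)).trans (Iff.trans ?_ key.symm)
  exact ⟨fun h => proZero_of_slender ρ hc Γ hΓ hsl h, fun h => acyclic_of_proZero hc E Z h⟩

end Pool.Agent.Helper62.Hovey
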