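import Pool.Agent.Helper62.Hovey.Vanish

/-!
# The germ theory does not vanish on the telescope of the levels
-/

open CategoryTheory CategoryTheory.Limits CategoryTheory.Pretriangulated

noncomputable section

universe w v u

namespace Pool.Agent.Helper62.Hovey

section Up

variable {T : Type u} [Category.{v} T] [Preadditive T]
variable (M : List Bool → T) (θ : ∀ (b : Bool) (s : List Bool), M s ⟶ M (b :: s))

open scoped Classical in
/-- the composite morphism from `M s` to `M s'` if `s'` is above `s`, and zero otherwise -/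
def up (s : List Bool) : ∀ s' : List Bool, M s ⟶ M s'
  | [] => if h : s = [] then eqToHom (by rw [h]) else 0
  | b :: s' => if h : s = b :: s' then eqToHom (by rw [h]) else up s s' ≫ θ b s'

lemma up_self (s : List Bool) : up M θ s s = 𝟙 (M s) := by
  cases s with
  | nil => rw [up, dif_pos rfl]; rfl
  | cons b s => rw [up, dif_pos rfl]; rfl

lemma up_cons {s s' : List Bool} {b : Bool} (h : s ≠ b :: s') : up M θ s (b :: s') = up M θ s s' ≫ θ b s' := by
  rw [up, dif_neg h]

lemma up_zero {s s' : List Bool} (h : s'.length < s.length) : up M θ s s' = 0 := by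
  induction s' with
  | nil =>
    rw [up, dif_neg]
    rintro rfl
    exact absurd h (lt_irrefl _)
  | cons b s' ih =>
    rw [up_cons M θ, ih, zero_comp]
    · rw [List.length_cons] at h
      omega
    · rintro rfl
      exact absurd h (lt_irrefl _)

lemma up_zero' {s s' : List Bool} (h : s'.length = s.length) (hne : s ≠ s') : up M θ s s' = 0 := by
  cases s' with
  | nil =>
    rw [up, dif_neg hne]
  | cons b s' =>
    rw [up_cons M θ hne, up_zero M θ, zero_comp]
    rw [List.length_cons] at h
    omega

lemma up_append (s l : List Bool) : up M θ s (l ++ s) = toNode M θ s l := by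
  induction l with
  | nil => exact up_self M θ s
  | cons b l ih =>
    have h1 : s ≠ b :: (l ++ s) := by
      intro h
      have := congrArg List.length h
      simp at this
      omega
    have h2 : up M θ s (b :: (l ++ s)) = up M θ s (l ++ s) ≫ θ b (l ++ s) := up_cons M θ h1
    rw [ih] at h2
    exact h2

/-- the two children of `s` -/
lemma up_children (s s' : List Bool) (h : s.length + 1 ≤ s'.length) :
    θ false s ≫ up M θ (false :: s) s' + θ true s ≫ up M θ (true :: s) s' = up M θ s s' := by
  induction s' with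
  | nil => simp at h
  | cons b' s' ih =>
    rw [List.length_cons] at h
    have hs : s ≠ b' :: s' := by
      rintro rfl
      rw [List.length_cons] at h
      omega
    rw [up_cons M θ hs]
    rcases Nat.lt_or_ge s.length s'.length with h1 | h1
    · have h2 : ∀ b : Bool, (b :: s) ≠ b' :: s' := by
        intro b h
        have := congrArg List.length h
        rw [List.length_cons, List.length_cons] at this
        omega
      rw [up_cons M θ (h2 false), up_cons M θ (h2 true), ← ih h1, Preadditive.add_comp, Category.assoc,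
        Category.assoc]
    · have hlen : s'.length = s.length := by omega
      by_cases hss : s = s'
      · subst hss
        have hz : ∀ b : Bool, b ≠ b' → up M θ (b :: s) (b' :: s) = 0 := by
          intro b hb
          apply up_zero' M θ
          · rfl
          · intro h
            exact hb (List.cons.inj h).1
        rw [up_self M θ s, Category.id_comp]
        cases b'
        · rw [up_self, hz true (by decide), comp_zero, add_zero, Category.comp_id]
        · rw [up_self, hz false (by decide), comp_zero, zero_add, Category.comp_id]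
      · have hz : ∀ b : Bool, up M θ (b :: s) (b' :: s') = 0 := by
          intro b
          apply up_zero' M θ
          · rw [List.length_cons, List.length_cons, hlen]
          · intro h
            exact hss (List.cons.inj h).2
        rw [hz, hz, comp_zero, comp_zero, add_zero, up_zero' M θ hlen hss, zero_comp]

end Up

variable {T : Type u} [Category.{v} T] [HasZeroObject T] [HasShift T ℤ] [Preadditive T]
  [∀ n : ℤ, (shiftFunctor T n).Additive] [Pretriangulated T]

section Level

variable (M : List Bool → T) (θ : ∀ (b : Bool) (s : List Bool), M s ⟶ M (b :: s))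

/-- the canonical family on the level `d` above `s` -/
def levelFam : ∀ (d : ℕ) (s s' : List Bool), levelObj M d s ⟶ M s'
  | 0, s, s' => up M θ s s'
  | d + 1, s, s' => biprod.desc (levelFam d (false :: s) s') (levelFam d (true :: s) s')

omit [HasShift T ℤ] [∀ n : ℤ, (shiftFunctor T n).Additive] [HasZeroObject T] [Pretriangulated T] in
lemma desc_comp_eq [HasBinaryBiproducts T] {X Y Z W : T} (f : X ⟶ Z) (g : Y ⟶ Z) (h : Z ⟶ W) (f' : X ⟶ W) (g' : Y ⟶ W)
    (hf : f' = f ≫ h) (hg : g' = g ≫ h) : biprod.desc f' g' = biprod.desc f g ≫ h := by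
  subst hf hg
  apply biprod.hom_ext'
  · simp
  · simp

omit [HasShift T ℤ] [∀ n : ℤ, (shiftFunctor T n).Additive] [HasZeroObject T] [Pretriangulated T] in
lemma map_desc_eq [HasBinaryBiproducts T] {X Y X' Y' Z : T} (a : X ⟶ X') (b : Y ⟶ Y') (f : X' ⟶ Z) (g : Y' ⟶ Z)
    (f' : X ⟶ Z) (g' : Y ⟶ Z) (hf : a ≫ f = f') (hg : b ≫ g = g') :
    biprod.map a b ≫ biprod.desc f g = biprod.desc f' g' := by
  subst hf hg
  apply biprod.hom_ext'
  · simp
  · simp

omit [HasShift T ℤ] [∀ n : ℤ, (shiftFunctor T n).Additive] [HasZeroObject T] [Pretriangulated T] in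
lemma lift_desc_eq [HasBinaryBiproducts T] {W X Y Z : T} (a : W ⟶ X) (b : W ⟶ Y) (f : X ⟶ Z) (g : Y ⟶ Z)
    (h : W ⟶ Z) (hf : a ≫ f + b ≫ g = h) : biprod.lift a b ≫ biprod.desc f g = h := by
  rw [biprod.lift_desc, hf]

lemma levelFam_compat (d : ℕ) (s s' : List Bool) (h : s.length + d ≤ s'.length) (b : Bool) :
    levelFam M θ d s (b :: s') = levelFam M θ d s s' ≫ θ b s' := by
  induction d generalizing s with
  | zero =>
    apply up_cons M θ
    rintro rfl
    rw [List.length_cons] at h
    omega
  | succ d ih =>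
    exact desc_comp_eq _ _ _ _ _ (ih (false :: s) (by rw [List.length_cons]; omega))
      (ih (true :: s) (by rw [List.length_cons]; omega))

lemma levelFam_trans (d : ℕ) (s s' : List Bool) (h : s.length + d + 1 ≤ s'.length) :
    levelMap M θ d s ≫ levelFam M θ (d + 1) s s' = levelFam M θ d s s' := by
  induction d generalizing s with
  | zero => exact lift_desc_eq _ _ _ _ _ (up_children M θ s s' (by omega))
  | succ d ih =>
    exact map_desc_eq _ _ _ _ _ _ (ih (false :: s) (by rw [List.length_cons]; omega))
      (ih (true :: s) (by rw [List.length_cons]; omega))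

end Level

variable {ι : Type} {c : ι → T} {M : List Bool → T} {θ : ∀ (b : Bool) (s : List Bool), M s ⟶ M (b :: s)} {E : T}

lemma level_compact [HasCoproducts.{w} T] (hc : IsCountableGen.{w} c) (hM : ∀ s, ∃ i, Nonempty (c i ≅ M s)) (d : ℕ)
    (s : List Bool) : ∃ i, Nonempty (c i ≅ levelObj M d s) := by
  induction d generalizing s with
  | zero => exact hM s
  | succ d ih =>
    obtain ⟨i, ⟨e⟩⟩ := ih (false :: s)
    obtain ⟨j, ⟨e'⟩⟩ := ih (true :: s)
    obtain ⟨k, ⟨f⟩⟩ := hc.exists_biprod i j
    exact ⟨k, ⟨f ≪≫ biprod.mapIso e e'⟩⟩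

/-- the telescope of the levels is not acyclic -/
theorem GermRep.level_ne_zero [HasCoproducts.{v} T] (hc : IsCountableGen.{v} c) (G : GermRep M θ c E)
    (hM : ∀ s, ∃ i, Nonempty (c i ≅ M s)) (hne : ∀ l, toNode M θ [] l ≠ 0) {Z : T}
    (t : Telescope.{v} (levelFun M θ []) Z) : ∃ f : Z ⟶ E⟦(0 : ℤ)⟧, f ≠ 0 := by
  let ζ := shiftFunctorZero T ℤ
  have hζ : ∀ {X Y : T} (f : X ⟶ Y), f ≫ ζ.inv.app Y = ζ.inv.app X ≫ f⟦(0 : ℤ)⟧' := fun f => ζ.inv.naturality f
  have hD : ∀ n, ∃ i, Nonempty (c i ≅ (levelFun M θ []).obj n) := fun n => level_compact hc hM n []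
  have htr : ∀ n, tr (levelFun M θ []) (Nat.le_succ n) = levelMap M θ n [] := fun n =>
    Functor.ofSequence_map_homOfLE_succ _ n
  let x : ∀ n s, (levelFun M θ []).obj n ⟶ (M s)⟦(0 : ℤ)⟧ := fun n s => levelFam M θ n [] s ≫ ζ.inv.app (M s)
  have hcomp : ∀ n, Ev (fun s => ∀ b, x n (b :: s) = x n s ≫ (θ b s)⟦(0 : ℤ)⟧') := by
    intro n
    refine (Ev.length n).mono fun s hs b => ?_
    change levelFam M θ n [] (b :: s) ≫ ζ.inv.app (M (b :: s)) =
      (levelFam M θ n [] s ≫ ζ.inv.app (M s)) ≫ (θ b s)⟦(0 : ℤ)⟧'
    have h1 := levelFam_compat M θ n [] s (by rw [List.length_nil]; omega) b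
    rw [h1, Category.assoc, Category.assoc, hζ]
  choose e he using fun n => G.exists_hom (hD n) (x n) (hcomp n)
  have hee : ∀ n, tr (levelFun M θ []) (Nat.le_succ n) ≫ e (n + 1) = e n := by
    intro n
    have h1 := G.sub (he n) (G.nat (tr (levelFun M θ []) (Nat.le_succ n)) (he (n + 1)))
    symm
    rw [← sub_eq_zero, G.eq_zero_iff (hD n) h1]
    refine (Ev.length (n + 1)).mono fun s hs => ?_
    rw [sub_eq_zero, htr]
    change levelFam M θ n [] s ≫ ζ.inv.app (M s) =
      levelMap M θ n [] ≫ levelFam M θ (n + 1) [] s ≫ ζ.inv.app (M s)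
    have h2 := levelFam_trans M θ n [] s (by rw [List.length_nil]; omega)
    rw [← h2, Category.assoc]
  obtain ⟨f, hf⟩ := t.exists_desc e hee
  refine ⟨f, ?_⟩
  rintro rfl
  have h0 : e 0 = 0 := by rw [← hf 0, comp_zero]
  obtain ⟨l, hl⟩ := (G.eq_zero_iff (hD 0) (he 0)).mp h0 []
  have h1 : x 0 ([] ++ (l ++ [])) = 0 := hl []
  have h2 : up M θ [] (l ++ []) ≫ ζ.inv.app (M (l ++ [])) = 0 := h1
  have h3 : up M θ [] (l ++ []) = 0 := by
    rw [← cancel_mono (ζ.inv.app (M (l ++ []))), h2, zero_comp]
  rw [up_append] at h3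
  exact hne l h3

end Pool.Agent.Helper62.Hovey

end
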