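import Pool.Agent.Helper62.Hovey.MainB

/-!
# Words in a sequence of pairs of pointed objects
-/

open CategoryTheory CategoryTheory.Limits CategoryTheory.Pretriangulated MonoidalCategory

universe v u

namespace Pool.Agent.Helper62.Hovey

section

variable {T : Type u} [Category.{v} T] [MonoidalCategory T]

/-- the tensor product of the morphisms `γ n (w n)` along a word, as a morphism from the unit -/
def wordPoint (C : ℕ → Bool → T) (γ : ∀ n b, 𝟙_ T ⟶ C n b) : ∀ w : List Bool, 𝟙_ T ⟶ wordObj C w
  | [] => 𝟙 (𝟙_ T)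
  | b :: w => wordPoint C γ w ≫ wordMap C γ b w

lemma wordMap_eqToHom (C : ℕ → Bool → T) (γ : ∀ n b, 𝟙_ T ⟶ C n b) {w w' : List Bool} (h : w' = w) (b : Bool) :
    wordMap C γ b w' ≫ eqToHom (by rw [h]) = eqToHom (by rw [h]) ≫ wordMap C γ b w := by
  subst h
  simp

lemma toNode_wordPoint (C : ℕ → Bool → T) (γ : ∀ n b, 𝟙_ T ⟶ C n b) (w : List Bool) :
    toNode (wordObj C) (wordMap C γ) [] w ≫ eqToHom (by rw [List.append_nil]) = wordPoint C γ w := by
  induction w with
  | nil =>
    rw [toNode, wordPoint]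
    exact Category.id_comp _
  | cons b w ih =>
    have h1 := wordMap_eqToHom C γ (List.append_nil w) b
    have h2 : ∀ (X : T) (f : X ⟶ wordObj C (w ++ [])), (f ≫ wordMap C γ b (w ++ [])) ≫ eqToHom (by rw [List.append_nil]) =
        (f ≫ eqToHom (by rw [List.append_nil])) ≫ wordMap C γ b w := by
      intro X f
      rw [Category.assoc, h1, Category.assoc]
    rw [wordPoint, ← ih]
    exact h2 _ (toNode (wordObj C) (wordMap C γ) [] w)

end

end Pool.Agent.Helper62.Hovey
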