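import Pool.Agent.Helper62.Hovey.Basic

/-!
# Mapping telescopes in triangulated categories
-/

open CategoryTheory CategoryTheory.Limits CategoryTheory.Pretriangulated

universe w v u

namespace Pool.Agent.Helper62.Hovey

variable {T : Type u} [Category.{v} T] [HasZeroObject T] [HasShift T ℤ] [Preadditive T]
  [∀ n : ℤ, (shiftFunctor T n).Additive] [Pretriangulated T] [HasCoproducts.{w} T]

section

variable (D : ℕ ⥤ T)

/-- transition morphisms -/
abbrev tr {m n : ℕ} (h : m ≤ n) : D.obj m ⟶ D.obj n := D.map (homOfLE h)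

omit [HasZeroObject T] [HasShift T ℤ] [Preadditive T]
  [∀ n : ℤ, (shiftFunctor T n).Additive] [Pretriangulated T] [HasCoproducts.{w} T] in
lemma tr_tr {l m n : ℕ} (h : l ≤ m) (h' : m ≤ n) : tr D h ≫ tr D h' = tr D (h.trans h') := by
  rw [← D.map_comp]
  rfl

omit [HasZeroObject T] [HasShift T ℤ] [Preadditive T]
  [∀ n : ℤ, (shiftFunctor T n).Additive] [Pretriangulated T] [HasCoproducts.{w} T] in
lemma tr_self (n : ℕ) : tr D (le_refl n) = 𝟙 _ := D.map_id n

/-- the coproduct of the terms -/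
noncomputable abbrev telObj : T := ∐ (fun n : ULift.{w} ℕ => D.obj n.down)

/-- the inclusions -/
noncomputable abbrev telι (n : ℕ) : D.obj n ⟶ telObj.{w} D := Sigma.ι (fun n : ULift.{w} ℕ => D.obj n.down) ⟨n⟩

/-- the morphism `1 - shift` -/
noncomputable def telMap : telObj.{w} D ⟶ telObj.{w} D :=
  Sigma.desc fun n => telι D n.down - tr D (Nat.le_succ n.down) ≫ telι D (n.down + 1)

/-- `X` is the mapping telescope of `D`, with the structure morphisms `j n` -/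
structure Telescope (X : T) where
  j : telObj.{w} D ⟶ X
  h : X ⟶ (telObj.{w} D)⟦(1 : ℤ)⟧
  dist : Triangle.mk (telMap.{w} D) j h ∈ distTriang T

lemma exists_telescope : ∃ X : T, Nonempty (Telescope.{w} D X) := by
  obtain ⟨X, j, h, hT⟩ := distinguished_cocone_triangle (telMap.{w} D)
  exact ⟨X, ⟨⟨j, h, hT⟩⟩⟩

variable {D}

omit [HasZeroObject T] [HasShift T ℤ]
  [∀ n : ℤ, (shiftFunctor T n).Additive] [Pretriangulated T] in
lemma telι_telMap (n : ℕ) : telι.{w} D n ≫ telMap.{w} D = telι.{w} D n - tr D (Nat.le_succ n) ≫ telι.{w} D (n + 1) := by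
  simp [telMap]

variable {X : T} (t : Telescope.{w} D X)

/-- the structure morphisms of a telescope -/
noncomputable def Telescope.inj (n : ℕ) : D.obj n ⟶ X := telι.{w} D n ≫ t.j

lemma Telescope.inj_succ (n : ℕ) : tr D (Nat.le_succ n) ≫ t.inj (n + 1) = t.inj n := by
  have h1 : telMap.{w} D ≫ t.j = 0 := comp_distTriang_mor_zero₁₂ _ t.dist
  have h2 := congrArg (fun y => telι.{w} D n ≫ y) h1
  simp only [comp_zero] at h2
  rw [← Category.assoc, telι_telMap, Preadditive.sub_comp, Category.assoc, sub_eq_zero] at h2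
  exact h2.symm

lemma Telescope.inj_le {m n : ℕ} (h : m ≤ n) : tr D h ≫ t.inj n = t.inj m := by
  induction n, h using Nat.le_induction with
  | base => rw [tr_self, Category.id_comp]
  | succ n h ih =>
    rw [← ih, ← t.inj_succ n, ← Category.assoc, tr_tr]

/-- morphisms out of a telescope -/
lemma Telescope.exists_desc {G : T} (f : ∀ n, D.obj n ⟶ G) (hf : ∀ n, tr D (Nat.le_succ n) ≫ f (n + 1) = f n) :
    ∃ g : X ⟶ G, ∀ n, t.inj n ≫ g = f n := by
  let f' : telObj.{w} D ⟶ G := Sigma.desc fun n => f n.down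
  obtain ⟨g, hg⟩ : ∃ g : X ⟶ G, f' = t.j ≫ g := by
    apply Triangle.yoneda_exact₂ _ t.dist
    change telMap.{w} D ≫ f' = 0
    apply Sigma.hom_ext
    rintro ⟨n⟩
    rw [comp_zero, ← Category.assoc]
    erw [telι_telMap]
    rw [Preadditive.sub_comp, Category.assoc, sub_eq_zero]
    simp only [f', colimit.ι_desc, Cofan.mk_ι_app]
    exact (hf n).symm
  refine ⟨g, fun n => ?_⟩
  rw [Telescope.inj, Category.assoc, ← hg]
  simp [f']

/-- vanishing of morphisms out of a telescope -/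
lemma Telescope.eq_zero {G : T} (f : X ⟶ G) (hf : ∀ n, t.inj n ≫ f = 0)
    (hs : ∀ g : ∀ n, (D.obj n)⟦(1 : ℤ)⟧ ⟶ G, ∃ k : ∀ n, (D.obj n)⟦(1 : ℤ)⟧ ⟶ G,
      ∀ n, k n - (tr D (Nat.le_succ n))⟦(1 : ℤ)⟧' ≫ k (n + 1) = g n) : f = 0 := by
  have h1 : t.j ≫ f = 0 := by
    apply Sigma.hom_ext
    rintro ⟨n⟩
    rw [comp_zero, ← Category.assoc]
    exact hf n
  obtain ⟨g, hg⟩ : ∃ g : (telObj.{w} D)⟦(1 : ℤ)⟧ ⟶ G, f = t.h ≫ g := Triangle.yoneda_exact₃ _ t.dist f h1
  -- `(∐ D)⟦1⟧` is the coproduct of the `D n⟦1⟧`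
  let e := PreservesCoproduct.iso (shiftFunctor T (1 : ℤ)) (fun n : ULift.{w} ℕ => D.obj n.down)
  have he : ∀ n : ℕ, (telι.{w} D n)⟦(1 : ℤ)⟧' ≫ e.hom = Sigma.ι (fun n : ULift.{w} ℕ => (D.obj n.down)⟦(1 : ℤ)⟧) ⟨n⟩ := by
    intro n
    rw [← Iso.eq_comp_inv, PreservesCoproduct.inv_hom, ι_comp_sigmaComparison]
  obtain ⟨k, hk⟩ := hs (fun n => (telι.{w} D n)⟦(1 : ℤ)⟧' ≫ g)
  obtain ⟨k', hk'⟩ : ∃ k' : (telObj.{w} D)⟦(1 : ℤ)⟧ ⟶ G, ∀ n : ℕ, (telι.{w} D n)⟦(1 : ℤ)⟧' ≫ k' = k n := by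
    refine ⟨e.hom ≫ Sigma.desc fun n => k n.down, fun n => ?_⟩
    rw [← Category.assoc, he]
    simp
  have h2 : (telMap.{w} D)⟦(1 : ℤ)⟧' ≫ k' = g := by
    rw [← cancel_epi e.inv]
    apply Sigma.hom_ext
    rintro ⟨n⟩
    have h3 : Sigma.ι (fun n : ULift.{w} ℕ => (D.obj n.down)⟦(1 : ℤ)⟧) ⟨n⟩ ≫ e.inv = (telι.{w} D n)⟦(1 : ℤ)⟧' := by
      rw [← he n, Category.assoc, e.hom_inv_id, Category.comp_id]
    have h5 : (telι.{w} D n)⟦(1 : ℤ)⟧' ≫ (telMap.{w} D)⟦(1 : ℤ)⟧' ≫ k' = (telι.{w} D n)⟦(1 : ℤ)⟧' ≫ g := by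
      rw [← Category.assoc, ← Functor.map_comp, telι_telMap, Functor.map_sub, Preadditive.sub_comp, Functor.map_comp,
        Category.assoc, hk', hk']
      exact hk n
    refine (Category.assoc _ _ _).symm.trans (Eq.trans ?_ (Category.assoc _ _ _))
    exact (congrArg (fun y => y ≫ ((telMap.{w} D)⟦(1 : ℤ)⟧' ≫ k')) h3).trans
      (h5.trans (congrArg (fun y => y ≫ g) h3).symm)
  rw [hg, ← h2, ← Category.assoc]
  have h4 : t.h ≫ (telMap.{w} D)⟦(1 : ℤ)⟧' = 0 := comp_distTriang_mor_zero₃₁ _ t.dist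
  rw [h4, zero_comp]

include t in
/-- solvability of the telescope equations -/
lemma Telescope.exists_solution {G : T} (hX : ∀ f : X ⟶ G⟦(1 : ℤ)⟧, f = 0) (g : ∀ n, D.obj n ⟶ G) :
    ∃ k : ∀ n, D.obj n ⟶ G, ∀ n, k n - tr D (Nat.le_succ n) ≫ k (n + 1) = g n := by
  let g' : telObj.{w} D ⟶ G := Sigma.desc fun n => g n.down
  -- the morphism `X⟦-1⟧ ⟶ ∐ D ⟶ G` vanishes
  have h0 : t.h ≫ g'⟦(1 : ℤ)⟧' = 0 := hX _
  obtain ⟨k', hk'⟩ : ∃ k' : (telObj.{w} D)⟦(1 : ℤ)⟧ ⟶ G⟦(1 : ℤ)⟧, g'⟦(1 : ℤ)⟧' = (telMap.{w} D)⟦(1 : ℤ)⟧' ≫ k' := by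
    have hT := rot_of_distTriang _ (rot_of_distTriang _ t.dist)
    obtain ⟨k', hk'⟩ : ∃ k' : (telObj.{w} D)⟦(1 : ℤ)⟧ ⟶ G⟦(1 : ℤ)⟧, g'⟦(1 : ℤ)⟧' = (-(telMap.{w} D)⟦(1 : ℤ)⟧') ≫ k' :=
      Triangle.yoneda_exact₂ _ hT (g'⟦(1 : ℤ)⟧') h0
    refine ⟨-k', ?_⟩
    rw [hk', Preadditive.comp_neg, Preadditive.neg_comp]
  obtain ⟨k, rfl⟩ := (shiftFunctor T (1 : ℤ)).map_surjective k'
  rw [← Functor.map_comp] at hk'
  have hk := (shiftFunctor T (1 : ℤ)).map_injective hk'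
  refine ⟨fun n => telι.{w} D n ≫ k, fun n => ?_⟩
  have := congrArg (fun y => telι.{w} D n ≫ y) hk
  simp only [g', colimit.ι_desc, Cofan.mk_ι_app] at this
  rw [this, ← Category.assoc (telι.{w} D n), telι_telMap, Preadditive.sub_comp, Category.assoc]

/-- compact objects see telescopes as colimits -/
lemma Telescope.exists_factor {C : T} (hC : IsCompactObj.{w} C)
    (hC' : ∀ x : C ⟶ (telObj.{w} D)⟦(1 : ℤ)⟧, x ≫ (telMap.{w} D)⟦(1 : ℤ)⟧' = 0 → x = 0) (f : C ⟶ X) :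
    ∃ (n : ℕ) (g : C ⟶ D.obj n), f = g ≫ t.inj n := by
  classical
  obtain ⟨a, ha⟩ : ∃ a : C ⟶ telObj.{w} D, f = a ≫ t.j := by
    apply Triangle.coyoneda_exact₃ _ t.dist
    apply hC'
    have h4 : t.h ≫ (telMap.{w} D)⟦(1 : ℤ)⟧' = 0 := comp_distTriang_mor_zero₃₁ _ t.dist
    change (f ≫ t.h) ≫ (telMap.{w} D)⟦(1 : ℤ)⟧' = 0
    rw [Category.assoc, h4, comp_zero]
  obtain ⟨s, g, rfl⟩ := hC _ a
  let N := (s.image ULift.down).sup id
  have hN : ∀ n ∈ s, n.down ≤ N := fun n hn =>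
    Finset.le_sup (f := id) (Finset.mem_image_of_mem ULift.down hn)
  refine ⟨N, ∑ n ∈ s, if h : n.down ≤ N then g n ≫ tr D h else 0, ?_⟩
  rw [ha, Preadditive.sum_comp, Preadditive.sum_comp]
  refine Finset.sum_congr rfl fun n hn => ?_
  rw [dif_pos (hN n hn), Category.assoc, Category.assoc, t.inj_le]
  rfl

/-- `1 - shift` is injective on compact objects -/
lemma telMap_injective {C : T} (hC : IsCompactObj.{w} C) (x : C ⟶ telObj.{w} D) (hx : x ≫ telMap.{w} D = 0) : x = 0 := by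
  classical
  obtain ⟨s, g, rfl⟩ := hC _ x
  -- projections
  let p : ∀ n : ℕ, telObj.{w} D ⟶ D.obj n := fun n =>
    Sigma.desc fun m => if h : m.down = n then eqToHom (by rw [h]) else 0
  have hp1 : ∀ n : ℕ, telι.{w} D n ≫ p n = 𝟙 _ := by intro n; simp [p]
  have hp2 : ∀ m n : ℕ, m ≠ n → telι.{w} D m ≫ p n = 0 := by intro m n h; simp [p, h]
  let G : ∀ n : ℕ, C ⟶ D.obj n := fun n => if ULift.up n ∈ s then g ⟨n⟩ else 0
  have hG : ∀ n : ℕ, (∑ m ∈ s, g m ≫ Sigma.ι (fun n : ULift.{w} ℕ => D.obj n.down) m) ≫ p n = G n := by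
    intro n
    rw [Preadditive.sum_comp]
    by_cases hn : ULift.up n ∈ s
    · rw [Finset.sum_eq_single (ULift.up n)]
      · simp only [G, if_pos hn, Category.assoc]
        erw [hp1]
        exact Category.comp_id _
      · intro m _ hm
        rw [Category.assoc]
        have : m.down ≠ n := fun h => hm (by rw [← h])
        erw [hp2 m.down n this]
        exact comp_zero
      · intro h; exact absurd hn h
    · simp only [G, if_neg hn]
      refine Finset.sum_eq_zero fun m hm => ?_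
      rw [Category.assoc]
      have : m.down ≠ n := fun h => hn (by rw [← h]; exact hm)
      erw [hp2 m.down n this]
      exact comp_zero
  have hrec : ∀ n : ℕ, (∑ m ∈ s, g m ≫ Sigma.ι (fun n : ULift.{w} ℕ => D.obj n.down) m) ≫ telMap.{w} D ≫ p (n + 1) =
      G (n + 1) - G n ≫ tr D (Nat.le_succ n) := by
    intro n
    have h1 : telMap.{w} D ≫ p (n + 1) = p (n + 1) - p n ≫ tr D (Nat.le_succ n) := by
      apply Sigma.hom_ext
      rintro ⟨m⟩
      rw [← Category.assoc]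
      erw [telι_telMap]
      rw [Preadditive.sub_comp, Category.assoc, Preadditive.comp_sub]
      congr 1
      by_cases hmn : m = n
      · subst hmn
        rw [hp1, Category.comp_id, ← Category.assoc]
        erw [hp1, Category.id_comp]
      · rw [hp2 (m + 1) (n + 1) (by omega), comp_zero, ← Category.assoc]
        erw [hp2 m n hmn, zero_comp]
    rw [h1, Preadditive.comp_sub, hG, ← Category.assoc, hG]
  have h0 : (∑ m ∈ s, g m ≫ Sigma.ι (fun n : ULift.{w} ℕ => D.obj n.down) m) ≫ telMap.{w} D ≫ p 0 = G 0 := by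
    have h1 : telMap.{w} D ≫ p 0 = p 0 := by
      apply Sigma.hom_ext
      rintro ⟨m⟩
      rw [← Category.assoc]
      erw [telι_telMap]
      rw [Preadditive.sub_comp, Category.assoc, hp2 (m + 1) 0 (by omega), comp_zero, sub_zero]
    rw [h1, hG]
  have hGz : ∀ n, G n = 0 := by
    intro n
    induction n with
    | zero => rw [← h0, ← Category.assoc, hx, zero_comp]
    | succ n ih =>
      have := hrec n
      rw [← Category.assoc, hx, zero_comp, ih, zero_comp, sub_zero] at this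
      exact this.symm
  refine Finset.sum_eq_zero fun m hm => ?_
  have := hGz m.down
  simp only [G] at this
  rw [if_pos hm] at this
  rw [show g m = 0 from this, zero_comp]

end

end Pool.Agent.Helper62.Hovey
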