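import Pool.Agent.Helper62.Hovey.Germ

/-!
# Vanishing of the germ theory on the branches
-/

open CategoryTheory CategoryTheory.Limits CategoryTheory.Pretriangulated

noncomputable section

universe w v u

namespace Pool.Agent.Helper62.Hovey

lemma length_pre (p : ℕ → Bool) (n : ℕ) : (pre p n).length = n := by
  induction n with
  | zero => rfl
  | succ n ih => rw [pre, List.length_cons, ih]

/-- one step off the branch -/
lemma exists_off (p : ℕ → Bool) (t : List Bool) :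
    ∀ l' : List Bool, ¬ (pre p (t.length + 1) <:+ l' ++ ((!p t.length) :: t)) := by
  intro l' h
  have h1 : ((!p t.length) :: t) <:+ l' ++ ((!p t.length) :: t) := List.suffix_append _ _
  have hlen : (pre p (t.length + 1)).length = ((!p t.length) :: t).length := by
    rw [length_pre, List.length_cons]
  have h2 := List.suffix_of_suffix_length_le h h1 hlen.le
  have h3 := h2.eq_of_length hlen
  rw [pre] at h3
  have h4 := (List.cons.inj h3).1
  cases h5 : p t.length <;> rw [h5] at h4 <;> exact absurd h4 (by decide)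

variable {T : Type u} [Category.{v} T] [HasZeroObject T] [HasShift T ℤ] [Preadditive T]
  [∀ n : ℤ, (shiftFunctor T n).Additive] [Pretriangulated T]

lemma Telescope.hom_zero [HasCoproducts.{w} T] {D : ℕ ⥤ T} {X : T} (t : Telescope.{w} D X) {G G' : T}
    (φ : G'⟦(1 : ℤ)⟧ ≅ G)
    (hinj : ∀ g : ∀ n, D.obj n ⟶ G, (∀ n, g n = tr D (Nat.le_succ n) ≫ g (n + 1)) → ∀ n, g n = 0)
    (hsurj : ∀ g : ∀ n, D.obj n ⟶ G', ∃ k : ∀ n, D.obj n ⟶ G', ∀ n, k n - tr D (Nat.le_succ n) ≫ k (n + 1) = g n)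
    (f : X ⟶ G) : f = 0 := by
  have h1 : t.j ≫ f = 0 := by
    apply Sigma.hom_ext
    rintro ⟨n⟩
    rw [comp_zero]
    have h2 := hinj (fun n => t.inj n ≫ f) (fun n => by rw [← Category.assoc, t.inj_succ]) n
    rw [← h2, Telescope.inj, Category.assoc]
  obtain ⟨ψ, hψ⟩ : ∃ ψ : (telObj.{w} D)⟦(1 : ℤ)⟧ ⟶ G, f = t.h ≫ ψ := Triangle.yoneda_exact₃ _ t.dist f h1
  obtain ⟨κ, hκ⟩ : ∃ κ : telObj.{w} D ⟶ G', κ⟦(1 : ℤ)⟧' = ψ ≫ φ.inv :=
    (shiftFunctor T (1 : ℤ)).map_surjective (ψ ≫ φ.inv)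
  obtain ⟨k, hk⟩ := hsurj (fun n => telι.{w} D n ≫ κ)
  let κ' : telObj.{w} D ⟶ G' := Sigma.desc fun n => k n.down
  have hκ' : telMap.{w} D ≫ κ' = κ := by
    apply Sigma.hom_ext
    rintro ⟨n⟩
    have h3 : telι.{w} D n ≫ telMap.{w} D ≫ κ' = telι.{w} D n ≫ κ := by
      rw [← Category.assoc, telι_telMap, Preadditive.sub_comp, Category.assoc, ← hk n]
      have h4 : ∀ m, telι.{w} D m ≫ κ' = k m := fun m => Sigma.ι_desc _ _
      rw [h4, h4]
    exact h3
  have h5 : ψ = (telMap.{w} D)⟦(1 : ℤ)⟧' ≫ κ'⟦(1 : ℤ)⟧' ≫ φ.hom := by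
    rw [← Category.assoc, ← Functor.map_comp, hκ', hκ, Category.assoc, Iso.inv_hom_id, Category.comp_id]
  have h6 : t.h ≫ (telMap.{w} D)⟦(1 : ℤ)⟧' = 0 := comp_distTriang_mor_zero₃₁ _ t.dist
  have h7 : f = t.h ≫ ψ := hψ
  rw [h7, h5, ← Category.assoc, h6, zero_comp]

variable {ι : Type} {c : ι → T} {M : List Bool → T} {θ : ∀ (b : Bool) (s : List Bool), M s ⟶ M (b :: s)} {E : T}

/-- the condition on a sequence -/
def SepSeq (M : List Bool → T) (D : ℕ ⥤ T) (p : ℕ → Bool) : Prop :=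
  ∀ m n₀ : ℕ, ∃ n, n₀ ≤ n ∧ ∀ s : List Bool, n < s.length → ¬ (pre p m <:+ s) →
    ∀ (k : ℤ) (x : D.obj (n + 1) ⟶ (M s)⟦k⟧), tr D (Nat.le_succ n) ≫ x = 0

/-- uniqueness -/
lemma GermRep.inj (G : GermRep M θ c E) (D : ℕ ⥤ T) (hD : ∀ n, ∃ i, Nonempty (c i ≅ D.obj n)) (p : ℕ → Bool)
    (hsep : SepSeq M D p) (k : ℤ) (g : ∀ n, D.obj n ⟶ E⟦k⟧)
    (hg : ∀ n, g n = tr D (Nat.le_succ n) ≫ g (n + 1)) (n : ℕ) : g n = 0 := by
  choose x hx using fun n => G.exists_fam (hD n) (g n)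
  have hcomp : ∀ n, Ev (fun s => x n s = tr D (Nat.le_succ n) ≫ x (n + 1) s) := by
    intro n
    have h1 := G.sub (hx n) (G.nat (tr D (Nat.le_succ n)) (hx (n + 1)))
    have h2 := (G.eq_zero_iff (hD n) h1).mp (sub_eq_zero.mpr (hg n))
    exact h2.mono fun s h => sub_eq_zero.mp h
  rw [G.eq_zero_iff (hD n) (hx n)]
  intro t
  obtain ⟨N, hN, hNs⟩ := hsep (t.length + 1) n
  obtain ⟨l₂, hl₂⟩ := ((Ev.length N).and (Ev.forall_lt hcomp (N + 1))) ((!p t.length) :: t)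
  refine ⟨l₂ ++ [!p t.length], fun l' => ?_⟩
  have hrw : l' ++ ((l₂ ++ [!p t.length]) ++ t) = l' ++ (l₂ ++ ((!p t.length) :: t)) := by simp
  rw [hrw]
  obtain ⟨hlen, hcs⟩ := hl₂ l'
  generalize hs : l' ++ (l₂ ++ ((!p t.length) :: t)) = s at hlen hcs
  have hoff : ¬ (pre p (t.length + 1) <:+ s) := by
    rw [← hs, ← List.append_assoc]
    exact exists_off p t _
  have hstep : ∀ j (hj : n ≤ j), j ≤ N + 1 → x n s = tr D hj ≫ x j s := by
    intro j hj
    induction j, hj using Nat.le_induction with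
    | base =>
      intro _
      rw [tr_self, Category.id_comp]
    | succ j hj ih =>
      intro hjN
      rw [ih (by omega), hcs j (by omega), ← Category.assoc, tr_tr]
  change x n s = 0
  rw [hstep (N + 1) (by omega) le_rfl]
  have h1 : tr D (show n ≤ N + 1 by omega) = tr D hN ≫ tr D (Nat.le_succ N) := (tr_tr D _ _).symm
  rw [h1, Category.assoc, hNs s hlen hoff k (x (N + 1) s), comp_zero]

open scoped Classical in
/-- transition morphisms, extended by zero -/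
def tr0 (D : ℕ ⥤ T) (n j : ℕ) : D.obj n ⟶ D.obj j := if h : n ≤ j then tr D h else 0

lemma tr0_of_le (D : ℕ ⥤ T) {n j : ℕ} (h : n ≤ j) : tr0 D n j = tr D h := dif_pos h

/-- existence -/
lemma GermRep.surj (G : GermRep M θ c E) (D : ℕ ⥤ T) (hD : ∀ n, ∃ i, Nonempty (c i ≅ D.obj n)) (p : ℕ → Bool)
    (hsep : SepSeq M D p) (k : ℤ) (g : ∀ n, D.obj n ⟶ E⟦k⟧) :
    ∃ h : ∀ n, D.obj n ⟶ E⟦k⟧, ∀ n, h n - tr D (Nat.le_succ n) ≫ h (n + 1) = g n := by
  choose x hx using fun n => G.exists_fam (hD n) (g n)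
  let y : ∀ n s, D.obj n ⟶ (M s)⟦k⟧ := fun n s => ∑ j ∈ Finset.Ico n s.length, tr0 D n j ≫ x j s
  -- the sums are finite, independently of `s`
  have hy : ∀ (n N m : ℕ) (hN : n ≤ N), (∀ s : List Bool, N < s.length → ¬ (pre p m <:+ s) →
      ∀ (k : ℤ) (x : D.obj (N + 1) ⟶ (M s)⟦k⟧), tr D (Nat.le_succ N) ≫ x = 0) →
      ∀ s : List Bool, N < s.length → ¬ (pre p m <:+ s) →
      y n s = ∑ j ∈ Finset.Ico n (N + 1), tr0 D n j ≫ x j s := by
    intro n N m hN hNs s hlen hoff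
    symm
    apply Finset.sum_subset
    · intro j hj
      rw [Finset.mem_Ico] at hj ⊢
      omega
    · intro j hj hj'
      rw [Finset.mem_Ico] at hj hj'
      have hNj : N + 1 ≤ j := by omega
      have h1 : tr0 D n j = tr D hN ≫ tr D (Nat.le_succ N) ≫ tr D hNj := by
        rw [tr0_of_le D hj.1, tr_tr, tr_tr]
      rw [h1, Category.assoc, Category.assoc, hNs s hlen hoff k (tr D hNj ≫ x j s), comp_zero]
  have hycompat : ∀ n, Ev (fun s => ∀ b, y n (b :: s) = y n s ≫ (θ b s)⟦k⟧') := by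
    intro n t
    obtain ⟨N, hN, hNs⟩ := hsep (t.length + 1) n
    obtain ⟨l₂, hl₂⟩ := ((Ev.length N).and (Ev.forall_lt (fun j => G.compat (hx j)) (N + 1))) ((!p t.length) :: t)
    refine ⟨l₂ ++ [!p t.length], fun l' b => ?_⟩
    have hrw : l' ++ ((l₂ ++ [!p t.length]) ++ t) = l' ++ (l₂ ++ ((!p t.length) :: t)) := by simp
    rw [hrw]
    obtain ⟨hlen, hcs⟩ := hl₂ l'
    have hoff : ¬ (pre p (t.length + 1) <:+ l' ++ (l₂ ++ ((!p t.length) :: t))) := by
      rw [← List.append_assoc]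
      exact exists_off p t _
    have hoff' : ¬ (pre p (t.length + 1) <:+ b :: (l' ++ (l₂ ++ ((!p t.length) :: t)))) := by
      have := exists_off p t (b :: (l' ++ l₂))
      rwa [List.cons_append, List.append_assoc] at this
    generalize l' ++ (l₂ ++ ((!p t.length) :: t)) = s at hlen hcs hoff hoff'
    rw [hy n N _ hN hNs s hlen hoff, hy n N _ hN hNs (b :: s) (by rw [List.length_cons]; omega) hoff',
      Preadditive.sum_comp]
    refine Finset.sum_congr rfl fun j hj => ?_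
    rw [Finset.mem_Ico] at hj
    rw [hcs j (by omega) b, Category.assoc]
  choose h hh using fun n => G.exists_hom (hD n) (y n) (hycompat n)
  refine ⟨h, fun n => ?_⟩
  have h1 := G.sub (G.sub (hh n) (G.nat (tr D (Nat.le_succ n)) (hh (n + 1)))) (hx n)
  rw [← sub_eq_zero, G.eq_zero_iff (hD n) h1]
  intro t
  obtain ⟨N, hN, hNs⟩ := hsep (t.length + 1) (n + 1)
  obtain ⟨l₂, hl₂⟩ := (Ev.length N) ((!p t.length) :: t)
  refine ⟨l₂ ++ [!p t.length], fun l' => ?_⟩
  have hrw : l' ++ ((l₂ ++ [!p t.length]) ++ t) = l' ++ (l₂ ++ ((!p t.length) :: t)) := by simp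
  rw [hrw]
  have hlen := hl₂ l'
  have hoff : ¬ (pre p (t.length + 1) <:+ l' ++ (l₂ ++ ((!p t.length) :: t))) := by
    rw [← List.append_assoc]
    exact exists_off p t _
  generalize l' ++ (l₂ ++ ((!p t.length) :: t)) = s at hlen hoff
  change y n s - tr D (Nat.le_succ n) ≫ y (n + 1) s - x n s = 0
  rw [hy n N _ (by omega) hNs s hlen hoff, hy (n + 1) N _ hN hNs s hlen hoff,
    Finset.sum_eq_sum_Ico_succ_bot (show n < N + 1 by omega), Preadditive.comp_sum]
  have h2 : tr0 D n n ≫ x n s = x n s := by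
    rw [tr0_of_le D le_rfl, tr_self, Category.id_comp]
  have h3 : ∑ j ∈ Finset.Ico (n + 1) (N + 1), tr D (Nat.le_succ n) ≫ tr0 D (n + 1) j ≫ x j s =
      ∑ j ∈ Finset.Ico (n + 1) (N + 1), tr0 D n j ≫ x j s := by
    refine Finset.sum_congr rfl fun j hj => ?_
    rw [Finset.mem_Ico] at hj
    rw [tr0_of_le D hj.1, tr0_of_le D (show n ≤ j by omega), ← Category.assoc, tr_tr]
  rw [h2, h3, add_sub_cancel_right, sub_self]

/-- the branch telescopes are acyclic -/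
theorem GermRep.branch_zero [HasCoproducts.{v} T] (G : GermRep M θ c E) (hM : ∀ s, ∃ i, Nonempty (c i ≅ M s))
    (hsep : Separated M θ) (p : ℕ → Bool) {Y : T} (t : Telescope.{v} (branchFun M θ p) Y) (k : ℤ)
    (f : Y ⟶ E⟦k⟧) : f = 0 := by
  have hD : ∀ n, ∃ i, Nonempty (c i ≅ (branchFun M θ p).obj n) := fun n => hM (pre p n)
  have htr : ∀ n, tr (branchFun M θ p) (Nat.le_succ n) = θ (p n) (pre p n) := fun n =>
    Functor.ofSequence_map_homOfLE_succ _ n
  have hs : SepSeq M (branchFun M θ p) p := by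
    intro m n₀
    obtain ⟨n, hn, h⟩ := hsep p m n₀
    refine ⟨n, hn, fun s hs hoff k x => ?_⟩
    rw [htr]
    exact h s hs hoff k x
  exact t.hom_zero ((shiftFunctorAdd' T (k - 1) 1 k (by ring)).symm.app E)
    (G.inj _ hD p hs k) (G.surj _ hD p hs (k - 1)) f

end Pool.Agent.Helper62.Hovey

end
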